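import Pool.Agent.SawDiff.Basic
import Pool.Agent.Bubble.Ul

/-!
# Existence of a stationary law (module WIN)
-/

set_option autoImplicit false

namespace Pool.Agent.SawDiff

open Finset Filter Topology Pool.Agent.Bub4

variable {S V : Type} [Fintype S] [AddCommGroup V]

/-- the law of a word at a uniformly chosen place of a self-avoiding word of length `N` -/
noncomputable def RN (Y : Sys S V) (N : ℕ) (u : List S) : ℝ :=
  if u.length ≤ N then
    ((N : ℝ) + 1)⁻¹ * ∑ i ∈ range (N - u.length + 1),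
      (Y.E i fun p => Y.E (N - u.length - i) fun s => Y.sv (p ++ u ++ s)) / Y.a N
  else 0

/-- weight of the words `p u s` with `|p| = i`, `|s| = m` -/
noncomputable def WIN_G (Y : Sys S V) (i m : ℕ) (u : List S) : ℝ :=
  Y.E i fun p => Y.E m fun s => Y.sv (p ++ u ++ s)

theorem WIN_G_nonneg (Y : Sys S V) (i m : ℕ) (u : List S) : 0 ≤ WIN_G Y i m u :=
  Y.E_nonneg' fun _ => Y.E_nonneg' fun _ => Y.sv_nonneg _

theorem WIN_G_le {Y : Sys S V} {K : ℝ} (h1 : ∀ n, 1 ≤ Y.a n) (hK : ∀ n, Y.a n ≤ K)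
    (i m : ℕ) (u : List S) : WIN_G Y i m u ≤ K ^ 2 * Y.sv u := by
  have h2 : WIN_G Y i m u ≤ Y.a i * Y.sv u * Y.a m := by
    unfold WIN_G Sys.a
    rw [mul_assoc, ← Y.E_mul_right]
    refine Y.E_mono fun p _ => ?_
    rw [mul_comm (Y.sv u), ← Y.E_mul_right, ← Y.E_mul_left]
    refine Y.E_mono fun s _ => ?_
    calc Y.sv (p ++ u ++ s) ≤ Y.sv (p ++ u) * Y.sv s := Y.sv_append_le _ _
      _ ≤ (Y.sv p * Y.sv u) * Y.sv s :=
        mul_le_mul_of_nonneg_right (Y.sv_append_le _ _) (Y.sv_nonneg _)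
      _ = Y.sv p * (Y.sv s * Y.sv u) := by ring
  have hK0 : 0 ≤ K := le_trans zero_le_one ((h1 0).trans (hK 0))
  have h3 : Y.a i * Y.a m ≤ K * K := mul_le_mul (hK i) (hK m) (Y.a_nonneg m) hK0
  have h4 := mul_le_mul_of_nonneg_right h3 (Y.sv_nonneg u)
  calc WIN_G Y i m u ≤ Y.a i * Y.sv u * Y.a m := h2
    _ = Y.a i * Y.a m * Y.sv u := by ring
    _ ≤ K * K * Y.sv u := h4
    _ = K ^ 2 * Y.sv u := by ring

theorem WIN_G_div_le {Y : Sys S V} {K : ℝ} (h1 : ∀ n, 1 ≤ Y.a n) (hK : ∀ n, Y.a n ≤ K)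
    (N i m : ℕ) (u : List S) : WIN_G Y i m u / Y.a N ≤ K ^ 2 * Y.sv u :=
  (div_le_self (WIN_G_nonneg Y i m u) (h1 N)).trans (WIN_G_le h1 hK i m u)

theorem WIN_G_div_nonneg {Y : Sys S V} (N i m : ℕ) (u : List S) : 0 ≤ WIN_G Y i m u / Y.a N :=
  div_nonneg (WIN_G_nonneg Y i m u) (Y.a_nonneg N)

theorem WIN_RN (Y : Sys S V) {N : ℕ} {u : List S} (h : u.length ≤ N) : RN Y N u =
    ((N : ℝ) + 1)⁻¹ * ∑ i ∈ range (N - u.length + 1), WIN_G Y i (N - u.length - i) u / Y.a N := by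
  unfold RN
  rw [if_pos h]
  rfl

/-- reversal -/
theorem WIN_G_rev (Y : Sys S V) (i m : ℕ) (u : List S) :
    WIN_G Y i m u.reverse = WIN_G Y m i u := by
  unfold WIN_G
  rw [Y.E_comm]
  rw [← Y.E_reverse m (fun p => Y.E i fun s => Y.sv (p ++ u ++ s))]
  refine Y.E_congr fun s _ => ?_
  rw [← Y.E_reverse i (fun p => Y.sv (s.reverse ++ u ++ p))]
  refine Y.E_congr fun p _ => ?_
  rw [← Y.sv_reverse (p ++ u.reverse ++ s)]
  congr 1
  simp

theorem WIN_RN_rev (Y : Sys S V) (N : ℕ) (u : List S) : RN Y N u.reverse = RN Y N u := by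
  by_cases h : u.length ≤ N
  · have h' : u.reverse.length ≤ N := by simpa using h
    rw [WIN_RN Y h, WIN_RN Y h', List.length_reverse]
    congr 1
    rw [← Finset.sum_range_reflect (fun i => WIN_G Y i (N - u.length - i) u / Y.a N)]
    refine Finset.sum_congr rfl fun i hi => ?_
    rw [Finset.mem_range] at hi
    rw [WIN_G_rev]
    have e1 : N - u.length + 1 - 1 - i = N - u.length - i := by omega
    have e2 : N - u.length - (N - u.length - i) = i := by omega
    rw [e1, e2]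
  · unfold RN
    rw [List.length_reverse, if_neg h, if_neg h]

/-- `0 ≤ RN`.  Trivial (`Y.E_nonneg'`, `Y.sv_nonneg`, `Y.a_nonneg`). -/
theorem RN_nonneg (Y : Sys S V) (N : ℕ) (u : List S) : 0 ≤ RN Y N u := by
  unfold RN
  split_ifs
  · refine mul_nonneg (inv_nonneg.2 (by positivity)) (Finset.sum_nonneg fun i _ => ?_)
    exact WIN_G_div_nonneg N i _ u
  · exact le_rfl

/-- `RN ≤ K ^ 2 * sv u`.  Each summand: `sv (p ++ u ++ s) ≤ sv p * sv u * sv s`
(`Y.sv_append_le` twice), so `Y.E i (Y.E (N - |u| - i) ..) ≤ a i * sv u * a (N - |u| - i)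
≤ K ^ 2 * sv u`, and `a N ≥ 1`; there are `N - |u| + 1 ≤ N + 1` summands. -/
theorem RN_le {Y : Sys S V} {K : ℝ} (h1 : ∀ n, 1 ≤ Y.a n) (hK : ∀ n, Y.a n ≤ K)
    (N : ℕ) (u : List S) : RN Y N u ≤ K ^ 2 * Y.sv u := by
  have hN : (0 : ℝ) < (N : ℝ) + 1 := by positivity
  have hKs : 0 ≤ K ^ 2 * Y.sv u := mul_nonneg (sq_nonneg K) (Y.sv_nonneg u)
  by_cases h : u.length ≤ N
  · rw [WIN_RN Y h, inv_mul_le_iff₀ hN]
    have h2 := Finset.sum_le_card_nsmul (range (N - u.length + 1))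
      (fun i => WIN_G Y i (N - u.length - i) u / Y.a N) (K ^ 2 * Y.sv u)
      (fun i _ => WIN_G_div_le h1 hK N i _ u)
    rw [Finset.card_range, nsmul_eq_mul] at h2
    refine h2.trans (mul_le_mul_of_nonneg_right ?_ hKs)
    have : N - u.length + 1 ≤ N + 1 := by omega
    exact_mod_cast this
  · unfold RN
    rw [if_neg h]
    exact hKs

/-- `RN [] = 1`: each of the `N + 1` summands is `a N / a N = 1` (`Y.E_add` backwards:
`Y.E i fun p => Y.E (N - i) fun s => sv (p ++ s) = Y.E (i + (N - i)) sv`). -/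
theorem RN_nil {Y : Sys S V} (h1 : ∀ n, 1 ≤ Y.a n) (N : ℕ) : RN Y N [] = 1 := by
  have hN : (0 : ℝ) < (N : ℝ) + 1 := by positivity
  have ha : Y.a N ≠ 0 := (lt_of_lt_of_le one_pos (h1 N)).ne'
  rw [WIN_RN Y (show ([] : List S).length ≤ N by simp)]
  have h2 : ∀ i ∈ range (N - ([] : List S).length + 1),
      WIN_G Y i (N - ([] : List S).length - i) [] / Y.a N = 1 := by
    intro i hi
    rw [Finset.mem_range, List.length_nil, Nat.sub_zero] at hi
    have h3 : WIN_G Y i (N - ([] : List S).length - i) [] = Y.a N := by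
      rw [List.length_nil, Nat.sub_zero]
      unfold WIN_G
      simp only [List.append_nil]
      rw [← Y.E_add i (N - i) Y.sv]
      have h4 : i + (N - i) = N := by omega
      rw [h4]
      rfl
    rw [h3, div_self ha]
  rw [Finset.sum_congr rfl h2, Finset.sum_const, Finset.card_range, nsmul_eq_mul, mul_one,
    List.length_nil, Nat.sub_zero]
  push_cast
  exact inv_mul_cancel₀ hN.ne'

/-- Approximate consistency on the right, for `|u| + n ≤ N`.
`Y.E n fun v => RN (u ++ v)` `= (N+1)⁻¹ Σ_{i ≤ N - |u| - n} (Y.E i Y.E n Y.E (N - |u| - n - i)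
sv (p ++ u ++ v ++ s)) / a N`, and `Y.E n (Y.E (N - |u| - n - i) F (v ++ s)) = Y.E (N - |u| - i) F`
(`Y.E_add` backwards), so this is `RN u` minus the summands with `N - |u| - n < i ≤ N - |u|`.
These are `n` summands, each between `0` and `K ^ 2` (as in `RN_le`). -/
theorem RN_right {Y : Sys S V} {K : ℝ} (h1 : ∀ n, 1 ≤ Y.a n) (hK : ∀ n, Y.a n ≤ K)
    (N : ℕ) (u : List S) (n : ℕ) (hn : u.length + n ≤ N) :
    |(Y.E n fun v => RN Y N (u ++ v)) - RN Y N u| ≤ n * K ^ 2 * ((N : ℝ) + 1)⁻¹ := by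
  have hN : (0 : ℝ) < (N : ℝ) + 1 := by positivity
  obtain ⟨M, hM⟩ := Nat.exists_eq_add_of_le hn
  have hM1 : N - u.length = M + n := by omega
  have hu : u.length ≤ N := by omega
  set t : ℕ → ℝ := fun i => WIN_G Y i (M + n - i) u / Y.a N with ht
  have e1 : (Y.E n fun v => RN Y N (u ++ v)) =
      ((N : ℝ) + 1)⁻¹ * ∑ i ∈ range (M + 1), t i := by
    have e2 : (Y.E n fun v => RN Y N (u ++ v)) = Y.E n fun v => ((N : ℝ) + 1)⁻¹ *
        ∑ i ∈ range (M + 1), WIN_G Y i (M - i) (u ++ v) * (Y.a N)⁻¹ := by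
      refine Y.E_congr fun v hv => ?_
      have hl : (u ++ v).length = u.length + n := by rw [List.length_append, hv]
      rw [WIN_RN Y (by omega)]
      have hl2 : N - (u ++ v).length = M := by omega
      rw [hl2]
      simp only [div_eq_mul_inv]
    rw [e2, Y.E_mul_left, Y.E_fsum]
    congr 1
    refine Finset.sum_congr rfl fun i hi => ?_
    rw [Finset.mem_range] at hi
    rw [Y.E_mul_right, ht]
    simp only [div_eq_mul_inv]
    congr 1
    unfold WIN_G
    rw [Y.E_comm]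
    refine Y.E_congr fun p _ => ?_
    have e3 : M + n - i = n + (M - i) := by omega
    rw [e3, Y.E_add]
    refine Y.E_congr fun v _ => Y.E_congr fun s _ => ?_
    simp only [List.append_assoc]
  have e4 : RN Y N u = ((N : ℝ) + 1)⁻¹ * ∑ i ∈ range (M + 1 + n), t i := by
    rw [WIN_RN Y hu, hM1]
    have e5 : M + n + 1 = M + 1 + n := by ring
    rw [e5]
  rw [e1, e4, Finset.sum_range_add t (M + 1) n, ← mul_sub]
  have e6 : ∑ i ∈ range (M + 1), t i -
      (∑ i ∈ range (M + 1), t i + ∑ i ∈ range n, t (M + 1 + i)) =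
        - ∑ i ∈ range n, t (M + 1 + i) := by ring
  rw [e6, mul_neg, abs_neg]
  have h5 : ∀ i, 0 ≤ t i := fun i => WIN_G_div_nonneg N i _ u
  have h6 : ∀ i, t i ≤ K ^ 2 := fun i =>
    (WIN_G_div_le h1 hK N i _ u).trans (mul_le_of_le_one_right (sq_nonneg K) (Y.sv_le_one u))
  have h7 : 0 ≤ ∑ i ∈ range n, t (M + 1 + i) := Finset.sum_nonneg fun i _ => h5 _
  have h8 := Finset.sum_le_card_nsmul (range n) (fun i => t (M + 1 + i)) (K ^ 2)
    (fun i _ => h6 _)
  rw [Finset.card_range, nsmul_eq_mul] at h8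
  rw [abs_of_nonneg (mul_nonneg (inv_nonneg.2 hN.le) h7), mul_comm]
  exact mul_le_mul_of_nonneg_right h8 (inv_nonneg.2 hN.le)

/-- Approximate consistency on the left, for `|u| + n ≤ N`.
`Y.E n fun v => RN (v ++ u)` `= (N+1)⁻¹ Σ_{i ≤ N - |u| - n} (Y.E i Y.E n Y.E (N - |u| - n - i)
sv (p ++ v ++ u ++ s)) / a N = (N+1)⁻¹ Σ_{n ≤ i' ≤ N - |u|} (Y.E i' Y.E (N - |u| - i')
sv (p ++ u ++ s)) / a N` with `i' = i + n`; this is `RN u` minus the `n` summands `i' < n`.
(Alternatively deduce it from `RN_right` by reversal: `RN Y N u.reverse = RN Y N u` follows from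
`Y.E_reverse`, `Y.E_comm`, `Y.sv_reverse` and `Finset.sum_range_reflect`.) -/
theorem RN_left {Y : Sys S V} {K : ℝ} (h1 : ∀ n, 1 ≤ Y.a n) (hK : ∀ n, Y.a n ≤ K)
    (N : ℕ) (u : List S) (n : ℕ) (hn : u.length + n ≤ N) :
    |(Y.E n fun v => RN Y N (v ++ u)) - RN Y N u| ≤ n * K ^ 2 * ((N : ℝ) + 1)⁻¹ := by
  have h2 := RN_right h1 hK N u.reverse n (by simpa using hn)
  rw [WIN_RN_rev] at h2
  have h3 : (Y.E n fun v => RN Y N (v ++ u)) = Y.E n fun v => RN Y N (u.reverse ++ v) := by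
    rw [← Y.E_reverse n (fun v => RN Y N (u.reverse ++ v))]
    refine Y.E_congr fun v _ => ?_
    rw [← WIN_RN_rev, List.reverse_append]
  rw [h3]
  exact h2

/-- `Y.E` commutes with the ultralimit of a bounded family.
By `Y.E_eq` both sides are finite sums over `Fin n → S`; `Bubble.tendsto_ul` for every summand,
`tendsto_finset_sum`, and `Bubble.ul_eq` (uniqueness of the limit). -/
theorem E_ul (Y : Sys S V) (n : ℕ) {C : ℝ} (F : ℕ → List S → ℝ) (hF : ∀ N w, |F N w| ≤ C) :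
    (Y.E n fun w => Bubble.ul fun N => F N w) = Bubble.ul fun N => Y.E n (F N) := by
  rw [Y.E_eq]
  symm
  apply Bubble.ul_eq
  have h1 : (fun N => Y.E n (F N)) = fun N => ∑ w : Fin n → S, Y.z ^ n * F N (List.ofFn w) := by
    funext N
    exact Y.E_eq n (F N)
  rw [h1]
  refine tendsto_finsetSum _ fun w _ => ?_
  exact (Bubble.tendsto_ul (x := fun N => F N (List.ofFn w)) (C := C)
    (fun N => hF N _)).const_mul _

/-- WIN: existence of a stationary law.
Take `ρ u = Bubble.ul fun N => RN Y N u`. Nonnegativity, the upper bound `K ^ 2 * sv u` and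
`ρ [] = 1` pass to the limit (`Bubble.const_le_ul`, `Bubble.ul_le_const`, `Bubble.ul_eq`; note
`|RN Y N u| ≤ K ^ 2`). `right`: `E_ul` gives
`Y.E n fun v => ρ (u ++ v) = ul fun N => Y.E n fun v => RN Y N (u ++ v)`, and this sequence differs
from `RN Y N u` by at most `n * K ^ 2 * (N + 1)⁻¹ → 0` for `N ≥ |u| + n` (`RN_right`), so the two
limits agree (`Bubble.ul_le` twice). `left` in the same way. -/
theorem exists_bulk {Y : Sys S V} {K : ℝ} (h1 : ∀ n, 1 ≤ Y.a n) (hK : ∀ n, Y.a n ≤ K) :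
    ∃ ρ : List S → ℝ, Bulk Y (K ^ 2) ρ := by
  have hb : ∀ N u, |RN Y N u| ≤ K ^ 2 := by
    intro N u
    rw [abs_of_nonneg (RN_nonneg Y N u)]
    exact (RN_le h1 hK N u).trans (mul_le_of_le_one_right (sq_nonneg K) (Y.sv_le_one u))
  have hb' : ∀ (n : ℕ) (F : List S → List S) (N : ℕ), |Y.E n fun v => RN Y N (F v)| ≤
      Y.E n fun _ => K ^ 2 := by
    intro n F N
    refine (Y.E_abs n _).trans (Y.E_mono fun w _ => hb N _)
  have h0 : Tendsto (fun _ : ℕ => (0 : ℝ)) atTop (𝓝 0) := tendsto_const_nhds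
  have he : ∀ n : ℕ, Tendsto (fun N : ℕ => n * K ^ 2 * ((N : ℝ) + 1)⁻¹) atTop (𝓝 0) := by
    intro n
    have := (tendsto_one_div_add_atTop_nhds_zero_nat (𝕜 := ℝ)).const_mul ((n : ℝ) * K ^ 2)
    rw [mul_zero] at this
    simpa [one_div] using this
  refine ⟨fun u => Bubble.ul fun N => RN Y N u, ⟨fun u => ?_, fun u => ?_, ?_, fun u n => ?_,
    fun u n => ?_⟩⟩
  · exact Bubble.const_le_ul (e := fun _ => 0) (hb · u) h0
      (Eventually.of_forall fun N => by rw [add_zero]; exact RN_nonneg Y N u)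
  · exact Bubble.ul_le_const (e := fun _ => 0) (hb · u) h0
      (Eventually.of_forall fun N => by rw [add_zero]; exact RN_le h1 hK N u)
  · apply Bubble.ul_eq
    have : (fun N => RN Y N []) = fun _ : ℕ => (1 : ℝ) := by
      funext N
      exact RN_nil h1 N
    rw [this]
    exact tendsto_const_nhds
  · rw [E_ul Y n (fun N v => RN Y N (u ++ v)) (fun N v => hb N _)]
    have hev : ∀ᶠ N : ℕ in atTop, |(Y.E n fun v => RN Y N (u ++ v)) - RN Y N u| ≤
        n * K ^ 2 * ((N : ℝ) + 1)⁻¹ := by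
      filter_upwards [eventually_ge_atTop (u.length + n)] with N hN
      exact RN_right h1 hK N u n hN
    apply le_antisymm
    · refine Bubble.ul_le (hb' n _) (hb · u) (he n) ?_
      filter_upwards [hev] with N hN
      have := (abs_le.1 hN).2
      linarith
    · refine Bubble.ul_le (hb · u) (hb' n _) (he n) ?_
      filter_upwards [hev] with N hN
      have := (abs_le.1 hN).1
      linarith
  · rw [E_ul Y n (fun N v => RN Y N (v ++ u)) (fun N v => hb N _)]
    have hev : ∀ᶠ N : ℕ in atTop, |(Y.E n fun v => RN Y N (v ++ u)) - RN Y N u| ≤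
        n * K ^ 2 * ((N : ℝ) + 1)⁻¹ := by
      filter_upwards [eventually_ge_atTop (u.length + n)] with N hN
      exact RN_left h1 hK N u n hN
    apply le_antisymm
    · refine Bubble.ul_le (hb' n _) (hb · u) (he n) ?_
      filter_upwards [hev] with N hN
      have := (abs_le.1 hN).2
      linarith
    · refine Bubble.ul_le (hb · u) (hb' n _) (he n) ?_
      filter_upwards [hev] with N hN
      have := (abs_le.1 hN).1
      linarith

end Pool.Agent.SawDiff
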