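import Pool.Agent.MP_981a99_pr.G.Final

/-! Lower bound for the mean-square displacement of self-avoiding walks on the square lattice:
it is at least a constant times `N / log N`. -/

namespace Pool.Agent.SawDiff.CpAL

open Pool.Agent.MP_981a99_pr

/-- Two points of `ℤ^d` are neighbours if their difference is plus or minus a standard unit
vector. -/
def Nbr {d : ℕ} (u v : Fin d → ℤ) : Prop :=
  ∃ i : Fin d, v - u = Pi.single i 1 ∨ v - u = - Pi.single i 1

/-- The self-avoiding walks `(ω 0, …, ω N)` of length `N` in `ℤ^d` with `ω 0 = 0`. -/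
def SAW (d N : ℕ) : Set (Fin (N + 1) → (Fin d → ℤ)) :=
  {ω | ω 0 = 0 ∧ (∀ j : Fin N, Nbr (ω j.castSucc) (ω j.succ)) ∧ Function.Injective ω}

/-- The mean-square displacement `⟨|ω(N)|²⟩` in `ℤ^d`. -/
noncomputable def msd (d N : ℕ) : ℝ :=
  (∑ᶠ ω ∈ SAW d N, ∑ i : Fin d, ((ω (Fin.last N) i : ℤ) : ℝ) ^ 2) / ((SAW d N).ncard : ℝ)

/-- the path of a list of steps -/
def path (N : ℕ) (w : List Dir) : Fin (N + 1) → (Fin 2 → ℤ) :=
  fun j => ![xs (w.take j), ys (w.take j)]

theorem exists_dir {v : Fin 2 → ℤ} (h : ∃ i : Fin 2, v = Pi.single i 1 ∨ v = - Pi.single i 1) :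
    ∃ s : Dir, dx s = v 0 ∧ dy s = v 1 := by
  obtain ⟨i, h | h⟩ := h
  · fin_cases i
    · exact ⟨Dir.E, by rw [h]; simp [dx], by rw [h]; simp [dy]⟩
    · exact ⟨Dir.N, by rw [h]; simp [dx], by rw [h]; simp [dy]⟩
  · fin_cases i
    · exact ⟨Dir.W, by rw [h]; simp [dx], by rw [h]; simp [dy]⟩
    · exact ⟨Dir.S, by rw [h]; simp [dx], by rw [h]; simp [dy]⟩

theorem dir_single (s : Dir) : ∃ i : Fin 2, (![dx s, dy s] : Fin 2 → ℤ) = Pi.single i 1 ∨
    (![dx s, dy s] : Fin 2 → ℤ) = - Pi.single i 1 := by
  cases s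
  · refine ⟨0, Or.inl ?_⟩
    ext i; fin_cases i <;> simp [dx, dy]
  · refine ⟨0, Or.inr ?_⟩
    ext i; fin_cases i <;> simp [dx, dy]
  · refine ⟨1, Or.inl ?_⟩
    ext i; fin_cases i <;> simp [dx, dy]
  · refine ⟨1, Or.inr ?_⟩
    ext i; fin_cases i <;> simp [dx, dy]

theorem dir_ext {s t : Dir} (h1 : dx s = dx t) (h2 : dy s = dy t) : s = t := by
  cases s <;> cases t <;> simp [dx, dy] at h1 h2 ⊢

theorem xs_take_succ {w : List Dir} {j : ℕ} (hj : j < w.length) :
    xs (w.take (j + 1)) = xs (w.take j) + dx w[j] := by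
  rw [List.take_add_one, List.getElem?_eq_getElem hj, xs_append]
  simp

theorem ys_take_succ {w : List Dir} {j : ℕ} (hj : j < w.length) :
    ys (w.take (j + 1)) = ys (w.take j) + dy w[j] := by
  rw [List.take_add_one, List.getElem?_eq_getElem hj, ys_append]
  simp

theorem path_mem {N : ℕ} {w : List Dir} (hw : w ∈ walks N) : path N w ∈ SAW 2 N := by
  rw [mem_walks] at hw
  obtain ⟨hlen, hsaw⟩ := hw
  refine ⟨?_, ?_, ?_⟩
  · ext i
    fin_cases i <;> simp [path]
  · intro j
    have hj : (j : ℕ) < w.length := by rw [hlen]; exact j.2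
    obtain ⟨i, hi⟩ := dir_single w[(j : ℕ)]
    refine ⟨i, ?_⟩
    have e : path N w j.succ - path N w j.castSucc = ![dx w[(j : ℕ)], dy w[(j : ℕ)]] := by
      ext i
      fin_cases i
      · simp [path, xs_take_succ hj]
      · simp [path, ys_take_succ hj]
    rw [e]; exact hi
  · intro i j hij
    have h1 : xs (w.take i) = xs (w.take j) := by
      have := congrFun hij 0
      simpa [path] using this
    have h2 : ys (w.take i) = ys (w.take j) := by
      have := congrFun hij 1
      simpa [path] using this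
    rcases lt_trichotomy (i : ℕ) (j : ℕ) with h | h | h
    · exact absurd ⟨h1, h2⟩ (pos_inj hsaw h (by rw [hlen]; omega))
    · exact Fin.ext h
    · exact absurd ⟨h1.symm, h2.symm⟩ (pos_inj hsaw h (by rw [hlen]; omega))

theorem path_injOn (N : ℕ) : Set.InjOn (path N) (walks N : Set (List Dir)) := by
  intro w hw w' hw' heq
  rw [Finset.mem_coe, mem_walks] at hw hw'
  have hx : ∀ j ≤ N, xs (w.take j) = xs (w'.take j) := by
    intro j hj
    have := congrFun (congrFun heq ⟨j, by omega⟩) 0
    simpa [path] using this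
  have hy : ∀ j ≤ N, ys (w.take j) = ys (w'.take j) := by
    intro j hj
    have := congrFun (congrFun heq ⟨j, by omega⟩) 1
    simpa [path] using this
  refine List.ext_getElem (by rw [hw.1, hw'.1]) ?_
  intro j h1 h2
  have hjN : j + 1 ≤ N := by omega
  refine dir_ext ?_ ?_
  · have a1 := xs_take_succ h1
    have a2 := xs_take_succ h2
    have b1 := hx j (by omega)
    have b2 := hx (j + 1) hjN
    linarith
  · have a1 := ys_take_succ h1
    have a2 := ys_take_succ h2
    have b1 := hy j (by omega)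
    have b2 := hy (j + 1) hjN
    linarith

theorem path_surj {N : ℕ} {ω : Fin (N + 1) → (Fin 2 → ℤ)} (hω : ω ∈ SAW 2 N) :
    ∃ w ∈ walks N, path N w = ω := by
  obtain ⟨h0, hn, hinj⟩ := hω
  have hst : ∀ j : Fin N, ∃ s : Dir, dx s = ω j.succ 0 - ω j.castSucc 0 ∧
      dy s = ω j.succ 1 - ω j.castSucc 1 := by
    intro j
    obtain ⟨s, hs1, hs2⟩ := exists_dir (v := ω j.succ - ω j.castSucc) (hn j)
    exact ⟨s, by simpa using hs1, by simpa using hs2⟩
  choose st hst1 hst2 using hst
  set w : List Dir := List.ofFn st with hw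
  have hlen : w.length = N := by rw [hw]; simp
  have hpos : ∀ j : ℕ, ∀ hj : j ≤ N, xs (w.take j) = ω ⟨j, by omega⟩ 0 ∧
      ys (w.take j) = ω ⟨j, by omega⟩ 1 := by
    intro j
    induction j with
    | zero =>
      intro _
      have e : (⟨0, by omega⟩ : Fin (N + 1)) = 0 := rfl
      rw [e, h0]
      simp
    | succ j ih =>
      intro hj
      obtain ⟨i1, i2⟩ := ih (by omega)
      have hjl : j < w.length := by omega
      have hwj : w[j] = st ⟨j, by omega⟩ := by simp [hw]
      have s1 := hst1 ⟨j, by omega⟩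
      have s2 := hst2 ⟨j, by omega⟩
      have e1 : (⟨j, by omega⟩ : Fin N).succ = (⟨j + 1, by omega⟩ : Fin (N + 1)) := rfl
      have e2 : (⟨j, by omega⟩ : Fin N).castSucc = (⟨j, by omega⟩ : Fin (N + 1)) := rfl
      rw [e1, e2] at s1 s2
      rw [xs_take_succ hjl, ys_take_succ hjl, hwj, i1, i2, s1, s2]
      constructor <;> ring
  refine ⟨w, ?_, ?_⟩
  · rw [mem_walks]
    refine ⟨hlen, ?_⟩
    intro a u b hab hne hcon
    have hul := List.length_pos_of_ne_nil hne
    have hl := congrArg List.length hab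
    rw [List.length_append, List.length_append] at hl
    have t1 : w.take a.length = a := by rw [hab]; simp
    have t2 : w.take (a.length + u.length) = a ++ u := by
      rw [hab, List.take_add]; simp
    obtain ⟨p1, p2⟩ := hpos a.length (by omega)
    obtain ⟨q1, q2⟩ := hpos (a.length + u.length) (by omega)
    rw [t1] at p1 p2
    rw [t2] at q1 q2
    rw [xs_append, hcon.1, add_zero] at q1
    rw [ys_append, hcon.2, add_zero] at q2
    have heq : ω ⟨a.length, by omega⟩ = ω ⟨a.length + u.length, by omega⟩ := by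
      ext i
      fin_cases i
      · exact p1.symm.trans q1
      · exact p2.symm.trans q2
    have := hinj heq
    rw [Fin.mk.injEq] at this
    omega
  · funext j
    obtain ⟨p1, p2⟩ := hpos j (by omega)
    ext i
    fin_cases i
    · simpa [path] using p1
    · simpa [path] using p2

theorem saw_eq (N : ℕ) : SAW 2 N = path N '' (walks N : Set (List Dir)) := by
  ext ω
  constructor
  · intro h
    obtain ⟨w, hw, rfl⟩ := path_surj h
    exact ⟨w, hw, rfl⟩
  · rintro ⟨w, hw, rfl⟩
    exact path_mem hw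

theorem finite_saw (N : ℕ) : (SAW 2 N).Finite := by
  rw [saw_eq]
  exact (Finset.finite_toSet _).image _

/-- **Main result.** For every `N`, the mean-square displacement of the `N`-step self-avoiding
walk on `ℤ²` is at least `N / (250000 (1 + log N))`. -/
theorem result (N : ℕ) : (N : ℝ) / (250000 * (1 + Real.log N)) ≤ msd 2 N := by
  have hnum : ∑ᶠ ω ∈ SAW 2 N, ∑ i : Fin 2, ((ω (Fin.last N) i : ℤ) : ℝ) ^ 2
      = ∑ w ∈ walks N, ((xs w : ℝ) ^ 2 + (ys w : ℝ) ^ 2) := by
    rw [saw_eq, finsum_mem_image (path_injOn N), finsum_mem_coe_finset]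
    refine Finset.sum_congr rfl fun w hw => ?_
    rw [mem_walks] at hw
    rw [Fin.sum_univ_two]
    have e : w.take ((Fin.last N : Fin (N + 1)) : ℕ) = w := by
      rw [Fin.val_last, ← hw.1, List.take_length]
    simp only [path, e]
    simp
  have hden : ((SAW 2 N).ncard : ℝ) = ((walks N).card : ℝ) := by
    rw [saw_eq, (path_injOn N).ncard_image, Set.ncard_coe_finset]
  unfold msd
  rw [hnum, hden]
  rcases Nat.eq_zero_or_pos N with rfl | hN
  · rw [Nat.cast_zero, zero_div]
    positivity
  have hmain := G.list_final' N hN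
  have hne : 0 < (walks N).card := by
    rw [Finset.card_pos]
    refine ⟨List.replicate N Dir.E, ?_⟩
    rw [mem_walks]
    refine ⟨by simp, ?_⟩
    intro a u b hab hune hcon
    have hu : ∀ x ∈ u, x = Dir.E := by
      intro x hx
      have : x ∈ List.replicate N Dir.E := by rw [hab]; simp [hx]
      exact (List.mem_replicate.1 this).2
    have hx : xs u = u.length := by
      have hall : ∀ l : List Dir, (∀ x ∈ l, x = Dir.E) → xs l = l.length := by
        intro l
        induction l with
        | nil => intro _; simp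
        | cons c l ih =>
          intro hl
          rw [xs_cons, ih fun x hx => hl x (by simp [hx]), hl c (by simp)]
          simp [dx]; ring
      exact hall u hu
    have := List.length_pos_of_ne_nil hune
    have h0 := hcon.1
    omega
  rw [le_div_iff₀ (by exact_mod_cast hne)]
  refine hmain.trans (Finset.sum_le_sum fun w _ => ?_)
  nlinarith [sq_nonneg ((ys w : ℝ))]

end Pool.Agent.SawDiff.CpAL
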