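import Pool.Agent.SawDiff.CpSB
import Pool.Agent.SawDiff.CpBM
import Pool.Agent.SawDiff.CpAL
import Pool.Agent.Bub4.Bridge

/-!
# The mean-square displacement of the self-avoiding walk on `ℤ^(m + 2)`
-/

set_option autoImplicit false

namespace Pool.Agent.SawDiff

open Finset Filter Pool.Agent.SubBall

/-- mean-square displacement of the self-avoiding walk on `ℤ^(m + 2)`, in terms of words -/
noncomputable def ms (m n : ℕ) : ℝ :=
  (∑ w ∈ saws (stv m) n, ∑ i : Fin (m + 2), ((pos (stv m) w n i : ℤ) : ℝ) ^ 2) /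
    ((saws (stv m) n).card : ℝ)

theorem ms_eq (m n : ℕ) : ms m n = CpSB.msd (m + 2) n := (CpSB.msd_eq m n).symm

/-- sub-ballisticity -/
theorem lat_up (m : ℕ) (ε : ℝ) (hε : 0 < ε) : ∃ n₀ : ℕ, ∀ n ≥ n₀, ms m n ≤ ε * (n : ℝ) ^ 2 := by
  obtain ⟨C, hC⟩ := CpSB.result (m + 2) (by omega)
  have h1 : Tendsto (fun n : ℕ => Real.log n ^ ((1 : ℝ) / 3000000)) atTop atTop :=
    (tendsto_rpow_atTop (by norm_num)).comp (Real.tendsto_log_atTop.comp tendsto_natCast_atTop_atTop)
  have h2 := (h1.eventually_ge_atTop (max 1 (|C| / ε))).and (eventually_ge_atTop 2)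
  obtain ⟨n₀, hn₀⟩ := eventually_atTop.1 h2
  refine ⟨n₀, fun n hn => ?_⟩
  obtain ⟨h3, h4⟩ := hn₀ n hn
  rw [ms_eq]
  refine (hC n h4).trans ?_
  have h5 : 0 < Real.log (n : ℝ) ^ ((1 : ℝ) / 3000000) :=
    lt_of_lt_of_le one_pos ((le_max_left _ _).trans h3)
  have h6 : |C| / ε ≤ Real.log (n : ℝ) ^ ((1 : ℝ) / 3000000) := (le_max_right _ _).trans h3
  rw [div_le_iff₀ h5]
  rw [div_le_iff₀ hε] at h6
  have h7 : (0 : ℝ) ≤ (n : ℝ) ^ 2 := sq_nonneg _
  have h8 := mul_le_mul_of_nonneg_right ((le_abs_self C).trans h6) h7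
  linarith

theorem lat_low (m : ℕ) : Tendsto (fun n => ms m n) atTop atTop := by
  simp only [ms_eq]
  rcases Nat.eq_zero_or_pos m with rfl | hm
  · have h1 : Tendsto (fun n : ℕ => (n : ℝ) / (250000 * (1 + Real.log n))) atTop atTop := by
      have h2 : Tendsto (fun x : ℝ => x / (250000 * (1 + Real.log x))) atTop atTop := by
        have h3 : Tendsto (fun x : ℝ => x ^ (1 / 2 : ℝ) / 1000000) atTop atTop :=
          (tendsto_rpow_atTop (by norm_num)).atTop_div_const (by norm_num)
        refine tendsto_atTop_mono' _ ?_ h3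
        have h4 := (isLittleO_log_rpow_atTop (r := 1 / 2) (by norm_num)).bound
          (by norm_num : (0 : ℝ) < 1)
        have h5 := (tendsto_rpow_atTop (by norm_num : (0 : ℝ) < 1 / 2)).eventually_ge_atTop 1
        filter_upwards [h4, h5, eventually_ge_atTop (1 : ℝ)] with x h6 h7 h8
        rw [Real.norm_eq_abs, Real.norm_eq_abs, one_mul,
          abs_of_nonneg (Real.log_nonneg h8), abs_of_nonneg (by positivity)] at h6
        have h9 := Real.log_nonneg h8
        have h10 : x ^ (1 / 2 : ℝ) * x ^ (1 / 2 : ℝ) = x := by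
          rw [← Real.rpow_add (by linarith)]
          norm_num
        rw [div_le_div_iff₀ (by norm_num) (by positivity)]
        nlinarith
      exact h2.comp tendsto_natCast_atTop_atTop
    exact tendsto_atTop_mono (fun n => CpAL.result n) h1
  · obtain ⟨c, hc, C, hC, h⟩ := CpBM.result (m + 2) (by omega)
    have h1 : Tendsto (fun n : ℕ => C * (n : ℝ) ^ (4 / (3 * ((m + 2 : ℕ) : ℝ)) + c : ℝ))
        atTop atTop := by
      refine Tendsto.const_mul_atTop hC ?_
      exact (tendsto_rpow_atTop (by positivity)).comp tendsto_natCast_atTop_atTop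
    refine tendsto_atTop_mono' _ ?_ h1
    filter_upwards [eventually_ge_atTop 1] with n hn
    exact h n hn

end Pool.Agent.SawDiff
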