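import Pool.Agent.SawDiff.Defs

/-!
# Stationary laws on self-avoiding words: first facts
-/

set_option autoImplicit false

namespace Pool.Agent.SawDiff

open Finset Pool.Agent.Bub4

variable {S V : Type} [Fintype S] [AddCommGroup V] {Y : Sys S V} {Λ : ℝ} {ρ : List S → ℝ}

/-- Cauchy-Schwarz inequality for `Y.E` -/
theorem E_cs (Y : Sys S V) (n : ℕ) {r : List S → ℝ} (hr : ∀ u, 0 ≤ r u) (F G : List S → ℝ) :
    (Y.E n fun u => r u * (F u * G u)) ^ 2 ≤
      (Y.E n fun u => r u * F u ^ 2) * (Y.E n fun u => r u * G u ^ 2) := by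
  rw [Y.E_eq, Y.E_eq, Y.E_eq]
  have h := Finset.sum_mul_sq_le_sq_mul_sq Finset.univ
    (fun w : Fin n → S => Real.sqrt (Y.z ^ n * r (List.ofFn w)) * F (List.ofFn w))
    (fun w : Fin n → S => Real.sqrt (Y.z ^ n * r (List.ofFn w)) * G (List.ofFn w))
  have hs : ∀ w : Fin n → S, Real.sqrt (Y.z ^ n * r (List.ofFn w)) *
      Real.sqrt (Y.z ^ n * r (List.ofFn w)) = Y.z ^ n * r (List.ofFn w) := fun w =>
    Real.mul_self_sqrt (mul_nonneg (pow_pos Y.z_pos n).le (hr _))
  refine le_trans (le_of_eq ?_) (h.trans (le_of_eq ?_))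
  · congr 1
    refine Finset.sum_congr rfl fun w _ => ?_
    rw [show Real.sqrt (Y.z ^ n * r (List.ofFn w)) * F (List.ofFn w) *
      (Real.sqrt (Y.z ^ n * r (List.ofFn w)) * G (List.ofFn w)) =
      (Real.sqrt (Y.z ^ n * r (List.ofFn w)) * Real.sqrt (Y.z ^ n * r (List.ofFn w))) *
        (F (List.ofFn w) * G (List.ofFn w)) by ring, hs w]
    ring
  · congr 1
    · refine Finset.sum_congr rfl fun w _ => ?_
      rw [mul_pow, pow_two (Real.sqrt _), hs w]
      ring
    · refine Finset.sum_congr rfl fun w _ => ?_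
      rw [mul_pow, pow_two (Real.sqrt _), hs w]
      ring

/-- Cauchy-Schwarz inequality with square roots -/
theorem E_cs' (Y : Sys S V) (n : ℕ) {r : List S → ℝ} (hr : ∀ u, 0 ≤ r u) (F G : List S → ℝ) :
    |Y.E n fun u => r u * (F u * G u)| ≤
      Real.sqrt (Y.E n fun u => r u * F u ^ 2) * Real.sqrt (Y.E n fun u => r u * G u ^ 2) := by
  have h := E_cs Y n hr F G
  have h1 : 0 ≤ Y.E n fun u => r u * F u ^ 2 :=
    Y.E_nonneg' fun u => mul_nonneg (hr u) (sq_nonneg _)
  rw [← Real.sqrt_mul h1]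
  exact Real.le_sqrt_of_sq_le (by rwa [sq_abs])

/-- if a sum of nonnegative terms vanishes, every term vanishes -/
theorem E_eq_zero (Y : Sys S V) {n : ℕ} {F : List S → ℝ} (hF : ∀ w, 0 ≤ F w)
    (h : Y.E n F = 0) {w : List S} (hw : w.length = n) : F w = 0 := by
  subst hw
  rw [Y.E_eq] at h
  have h1 := (Finset.sum_eq_zero_iff_of_nonneg
    (fun w _ => mul_nonneg (pow_pos Y.z_pos _).le (hF _))).1 h (fun i => w.get i) (Finset.mem_univ _)
  have h2 : List.ofFn (fun i => w.get i) = w := List.ofFn_get w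
  rw [h2] at h1
  exact (mul_eq_zero.1 h1).resolve_left (pow_pos Y.z_pos _).ne'

/-- displacements are at most the length -/
theorem abs_xs_le (Y : Sys S V) {xs : V →+ ℝ} (hx : ∀ s, |xs (Y.vec s)| ≤ 1) (w : List S) :
    |xs (Y.sm w)| ≤ w.length := by
  induction w with
  | nil => simp
  | cons s w ih =>
    rw [Y.sm_cons, map_add, List.length_cons]
    push_cast
    refine (abs_add_le _ _).trans ?_
    linarith [hx s]

namespace Bulk

variable (h : Bulk Y Λ ρ)

include h

theorem mass (n : ℕ) : Y.E n ρ = 1 := by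
  have := h.right [] n
  simpa [h.nil] using this

theorem one_le : 1 ≤ Λ := by
  have := h.le []
  rwa [h.nil, Y.sv_nil, mul_one] at this

theorem pos : 0 < Λ := lt_of_lt_of_le one_pos h.one_le

theorem le_const (u : List S) : ρ u ≤ Λ :=
  (h.le u).trans (mul_le_of_le_one_right h.pos.le (Y.sv_le_one u))

/-- both sides at once -/
theorem mid (u : List S) (a b : ℕ) :
    Y.E a (fun p => Y.E b fun s => ρ (p ++ u ++ s)) = ρ u := by
  simp only [h.right]
  exact h.left u a

theorem eq_zero_left {u v : List S} (h0 : ρ u = 0) : ρ (u ++ v) = 0 := by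
  have h1 := h.right u v.length
  rw [h0] at h1
  exact E_eq_zero Y (F := fun v => ρ (u ++ v)) (fun v => h.nonneg _) h1 rfl

theorem eq_zero_right {u v : List S} (h0 : ρ v = 0) : ρ (u ++ v) = 0 := by
  have h1 := h.left v u.length
  rw [h0] at h1
  exact E_eq_zero Y (F := fun u => ρ (u ++ v)) (fun v => h.nonneg _) h1 rfl

/-- domination by the weights of the self-avoiding words -/
theorem E_le {n : ℕ} {F : List S → ℝ} (hF : ∀ w, 0 ≤ F w) :
    (Y.E n fun u => ρ u * F u) ≤ Λ * Y.E n fun u => Y.sv u * F u := by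
  rw [← Y.E_mul_left]
  refine Y.E_mono fun u _ => ?_
  rw [← mul_assoc]
  exact mul_le_mul_of_nonneg_right (h.le u) (hF u)

theorem V2_nonneg (xs : V →+ ℝ) (n : ℕ) : 0 ≤ V2 Y ρ xs n :=
  Y.E_nonneg' fun u => mul_nonneg (h.nonneg u) (sq_nonneg _)

theorem V2_le (xs : V →+ ℝ) (n : ℕ) : V2 Y ρ xs n ≤ Λ * Y.M xs n :=
  h.E_le fun _ => sq_nonneg _

/-- stationarity: a function of the factor of length `L` at the place `a` -/
theorem win (a L b : ℕ) (F : List S → ℝ) :
    (Y.E (a + L + b) fun w => ρ w * F ((w.drop a).take L)) = Y.E L fun w => ρ w * F w := by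
  have h1 : (Y.E (a + L + b) fun w => ρ w * F ((w.drop a).take L)) =
      Y.E a fun p => Y.E L fun w => Y.E b fun s => ρ (p ++ w ++ s) * F w := by
    rw [Y.E_add, Y.E_add]
    refine Y.E_congr fun p hp => Y.E_congr fun w hw => Y.E_congr fun s _ => ?_
    have h2 : ((p ++ w ++ s).drop a).take L = w := by
      rw [List.append_assoc, ← hp, List.drop_left, ← hw, List.take_left]
    rw [h2]
  rw [h1, Y.E_comm]
  refine Y.E_congr fun w _ => ?_
  simp only [Y.E_mul_right]
  rw [h.mid w a b]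

/-- a function of the first `L` letters -/
theorem win_left (L b : ℕ) (F : List S → ℝ) :
    (Y.E (L + b) fun w => ρ w * F (w.take L)) = Y.E L fun w => ρ w * F w := by
  have := h.win 0 L b F
  simpa using this

/-- a function of the last `L` letters -/
theorem win_right (a L : ℕ) (F : List S → ℝ) :
    (Y.E (a + L) fun w => ρ w * F (w.drop a)) = Y.E L fun w => ρ w * F w := by
  have h1 := h.win a L 0 F
  rw [Nat.add_zero] at h1
  rw [← h1]
  refine Y.E_congr fun w hw => ?_
  rw [List.take_of_length_le (by simp [hw])]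

end Bulk

end Pool.Agent.SawDiff
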