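import Pool.Agent.SubBall.Moment

/-! Quantitative sub-ballisticity of the self-avoiding walk on `ℤ^d`, `d ≥ 2`: the mean-square
displacement is at most a constant times `N ^ 2` divided by a power of `log N`. -/

namespace Pool.Agent.SawDiff.CpSB

open Pool.Agent.SubBall

/-- Two points of `ℤ^d` are neighbours if their difference is plus or minus a standard unit
vector. -/
def Nbr {d : ℕ} (u v : Fin d → ℤ) : Prop :=
  ∃ i : Fin d, v - u = Pi.single i 1 ∨ v - u = - Pi.single i 1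

/-- The self-avoiding walks `(ω 0, …, ω N)` of length `N` in `ℤ^d` with `ω 0 = 0`. -/
def SAW (d N : ℕ) : Set (Fin (N + 1) → (Fin d → ℤ)) :=
  {ω | ω 0 = 0 ∧ (∀ j : Fin N, Nbr (ω j.castSucc) (ω j.succ)) ∧ Function.Injective ω}

/-- The mean-square displacement `⟨|ω(N)|²⟩` in `ℤ^d`. -/
noncomputable def msd (d N : ℕ) : ℝ :=
  (∑ᶠ ω ∈ SAW d N, ∑ i : Fin d, ((ω (Fin.last N) i : ℤ) : ℝ) ^ 2) / ((SAW d N).ncard : ℝ)

/-- the path of a sequence of steps -/
def path (m N : ℕ) (w : ℕ → St m) : Fin (N + 1) → (Fin (m + 2) → ℤ) :=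
  fun j => pos (stv m) w j

theorem stv_inj (m : ℕ) : Function.Injective (stv m) := by
  rintro ⟨i, b⟩ ⟨j, b'⟩ h
  have h1 := congrFun h i
  by_cases hij : i = j
  · subst hij
    cases b <;> cases b' <;> simp [stv] at h1 ⊢
  · cases b <;> cases b' <;> simp [stv, hij] at h1

theorem nbr_iff {m : ℕ} {u v : Fin (m + 2) → ℤ} : Nbr u v ↔ ∃ s : St m, stv m s = v - u := by
  constructor
  · rintro ⟨i, h | h⟩
    · exact ⟨(i, true), by rw [h]; simp [stv]⟩
    · exact ⟨(i, false), by rw [h]; simp [stv]⟩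
  · rintro ⟨⟨i, b⟩, h⟩
    refine ⟨i, ?_⟩
    rw [← h]
    cases b <;> simp [stv]

theorem path_mem {m N : ℕ} {w : ℕ → St m} (hw : w ∈ saws (stv m) N) :
    path m N w ∈ SAW (m + 2) N := by
  have h := (mem_saws.1 hw).2
  refine ⟨?_, ?_, ?_⟩
  · simp [path]
  · intro j
    rw [nbr_iff]
    refine ⟨w j, ?_⟩
    simp only [path, Fin.val_succ, Fin.val_castSucc]
    rw [pos_succ]
    abel
  · intro i j hij
    simp only [path] at hij
    rcases lt_trichotomy (i : ℕ) (j : ℕ) with h1 | h1 | h1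
    · exact absurd hij (h i j h1 (Nat.lt_succ_iff.1 j.2))
    · exact Fin.ext h1
    · exact absurd hij.symm (h j i h1 (Nat.lt_succ_iff.1 i.2))

theorem path_inj {m N : ℕ} {w w' : ℕ → St m} (hw : w ∈ saws (stv m) N)
    (hw' : w' ∈ saws (stv m) N) (h : path m N w = path m N w') : w = w' := by
  have hp : ∀ j ≤ N, pos (stv m) w j = pos (stv m) w' j := by
    intro j hj
    have := congrFun h ⟨j, Nat.lt_succ_iff.2 hj⟩
    simpa [path] using this
  funext a
  by_cases ha : a < N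
  · apply stv_inj m
    have h1 := hp (a + 1) (by omega)
    rw [pos_succ, pos_succ, hp a (by omega)] at h1
    exact add_left_cancel h1
  · rw [(mem_saws.1 hw).1 a (by omega), (mem_saws.1 hw').1 a (by omega)]

theorem path_surj {m N : ℕ} {ω : Fin (N + 1) → (Fin (m + 2) → ℤ)} (hω : ω ∈ SAW (m + 2) N) :
    ∃ w ∈ saws (stv m) N, path m N w = ω := by
  obtain ⟨h0, h1, h2⟩ := hω
  have h3 : ∀ j : Fin N, ∃ s : St m, stv m s = ω j.succ - ω j.castSucc := fun j =>
    nbr_iff.1 (h1 j)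
  choose s hs using h3
  have hp : ∀ j, ∀ hj : j ≤ N, pos (stv m) (ext0 N s) j = ω ⟨j, Nat.lt_succ_iff.2 hj⟩ := by
    intro j
    induction j with
    | zero =>
      intro _
      rw [pos_zero]
      exact h0.symm
    | succ j ih =>
      intro hj
      have hjN : j < N := by omega
      rw [pos_succ, ih (by omega)]
      have h4 : ext0 N s j = s ⟨j, hjN⟩ := by simp [ext0, hjN]
      rw [h4, hs ⟨j, hjN⟩]
      simp only [Fin.succ_mk, Fin.castSucc_mk]
      abel
  refine ⟨ext0 N s, ?_, ?_⟩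
  · rw [mem_saws]
    refine ⟨?_, ?_⟩
    · intro a ha
      simp [ext0, not_lt.2 ha]
    · intro i j hij hj heq
      rw [hp i (by omega), hp j hj] at heq
      have h4 := h2 heq
      rw [Fin.mk.injEq] at h4
      omega
  · funext j
    exact hp j (Nat.lt_succ_iff.1 j.2)

theorem SAW_eq (m N : ℕ) :
    SAW (m + 2) N = (((saws (stv m) N).image (path m N) : Finset _) :
      Set (Fin (N + 1) → (Fin (m + 2) → ℤ))) := by
  ext ω
  rw [Finset.coe_image]
  constructor
  · intro h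
    obtain ⟨w, hw, hw'⟩ := path_surj h
    exact ⟨w, hw, hw'⟩
  · rintro ⟨w, hw, rfl⟩
    exact path_mem hw

theorem msd_eq (m N : ℕ) : msd (m + 2) N =
    (∑ w ∈ saws (stv m) N, ∑ i : Fin (m + 2), ((pos (stv m) w N i : ℤ) : ℝ) ^ 2) /
      ((saws (stv m) N).card : ℝ) := by
  unfold msd
  rw [SAW_eq, finsum_mem_coe_finset, Set.ncard_coe_finset]
  have hinj : Set.InjOn (path m N) (saws (stv m) N : Set (ℕ → St m)) :=
    fun w hw w' hw' h => path_inj hw hw' h
  rw [Finset.sum_image hinj, Finset.card_image_of_injOn hinj]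
  rfl

theorem sum_sym {m : ℕ} (σ : Sym (stv m)) (N : ℕ) (f : Vt m → ℝ) :
    ∑ w ∈ saws (stv m) N, f (σ.L (pos (stv m) w N)) =
      ∑ w ∈ saws (stv m) N, f (pos (stv m) w N) := by
  refine Finset.sum_nbij' (fun w => refl σ (seg 0 N) w) (fun w => refl σ (seg 0 N) w)
    (fun w hw => refl_seg_mem_saws σ hw) (fun w hw => refl_seg_mem_saws σ hw)
    (fun w _ => refl_refl σ _ w) (fun w _ => refl_refl σ _ w) ?_
  intro w _
  rw [pos_seg_mid σ w (Nat.zero_le _) le_rfl]
  simp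

theorem sum_coord (m N : ℕ) :
    ∑ w ∈ saws (stv m) N, ∑ i : Fin (m + 2), ((pos (stv m) w N i : ℤ) : ℝ) ^ 2 =
      ((m : ℝ) + 2) * ∑ w ∈ saws (stv m) N, (cy m (pos (stv m) w N) : ℝ) ^ 2 := by
  rw [Finset.sum_comm]
  have h : ∀ i ∈ (Finset.univ : Finset (Fin (m + 2))),
      ∑ w ∈ saws (stv m) N, ((pos (stv m) w N i : ℤ) : ℝ) ^ 2 =
        ∑ w ∈ saws (stv m) N, (cy m (pos (stv m) w N) : ℝ) ^ 2 := by
    intro i _
    rw [← sum_sym (sEx m i) N (fun v => (cy m v : ℝ) ^ 2)]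
    refine Finset.sum_congr rfl ?_
    intro w _
    simp only [cy_apply, sEx_L]
  rw [Finset.sum_congr rfl h, Finset.sum_const, Finset.card_univ, Fintype.card_fin, nsmul_eq_mul]
  push_cast
  ring

/-- For every `d ≥ 2` there is a constant `C` such that the mean-square displacement of the
self-avoiding walk of length `N ≥ 2` in `ℤ^d` is at most
`C * N ^ 2 / (log N) ^ (1 / 3000000)`. -/
theorem result : ∀ d : ℕ, 2 ≤ d → ∃ C : ℝ, ∀ N : ℕ, 2 ≤ N →
    msd d N ≤ C * (N : ℝ) ^ 2 / Real.log N ^ ((1 : ℝ) / 3000000) := by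
  intro d hd
  obtain ⟨m, rfl⟩ : ∃ m, d = m + 2 := ⟨d - 2, by omega⟩
  obtain ⟨C, hC, h⟩ := second_moment m
  refine ⟨((m : ℝ) + 2) * C, ?_⟩
  intro N hN
  have h1 := h N hN
  have hexp : cexp = (1 : ℝ) / 3000000 := by unfold cexp; norm_num
  rw [hexp] at h1
  have hlog : 0 < Real.log N := by
    apply Real.log_pos
    have : 1 < N := by omega
    exact_mod_cast this
  have hlogc : 0 < Real.log N ^ ((1 : ℝ) / 3000000) := Real.rpow_pos_of_pos hlog _
  have hcard : (0 : ℝ) < (saws (stv m) N).card := by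
    rw [← card_saws_eq (stv m) (cy m)]
    exact Z_pos (good_cy m).e N le_rfl
  rw [msd_eq, sum_coord, div_le_div_iff₀ hcard hlogc]
  have h2 : (0 : ℝ) ≤ (m : ℝ) + 2 := by positivity
  have h3 := mul_le_mul_of_nonneg_left h1 h2
  calc ((m : ℝ) + 2) * (∑ w ∈ saws (stv m) N, (cy m (pos (stv m) w N) : ℝ) ^ 2) *
        Real.log N ^ ((1 : ℝ) / 3000000)
      = ((m : ℝ) + 2) * ((∑ w ∈ saws (stv m) N, (cy m (pos (stv m) w N) : ℝ) ^ 2) *
        Real.log N ^ ((1 : ℝ) / 3000000)) := by ring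
    _ ≤ ((m : ℝ) + 2) * (C * (N : ℝ) ^ 2 * (saws (stv m) N).card) := h3
    _ = ((m : ℝ) + 2) * C * (N : ℝ) ^ 2 * (saws (stv m) N).card := by ring

end Pool.Agent.SawDiff.CpSB
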