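import Pool.Agent.SawDiff.Basic

/-!
# Cross terms (module CROSS)
-/

set_option autoImplicit false

namespace Pool.Agent.SawDiff

open Finset Filter Pool.Agent.Bub4

variable {S V : Type} [Fintype S] [AddCommGroup V] {Y : Sys S V} {Λ : ℝ} {ρ : List S → ℝ}

/-- truncation at the level `T` -/
noncomputable def cl (T x : ℝ) : ℝ := max (-T) (min x T)

theorem cl_cases {T : ℝ} (hT : 0 ≤ T) (x : ℝ) :
    (|x| ≤ T ∧ cl T x = x) ∨ (T < x ∧ cl T x = T) ∨ (x < -T ∧ cl T x = -T) := by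
  unfold cl
  rcases le_or_gt |x| T with h | h
  · left
    have h2 := abs_le.1 h
    exact ⟨h, by rw [min_eq_left h2.2, max_eq_right h2.1]⟩
  · right
    rcases lt_abs.1 h with h | h
    · left
      exact ⟨h, by rw [min_eq_right h.le, max_eq_right (by linarith)]⟩
    · right
      have h3 : x < -T := by linarith
      exact ⟨h3, by rw [min_eq_left (by linarith), max_eq_left h3.le]⟩

theorem abs_cl_le {T : ℝ} (hT : 0 ≤ T) (x : ℝ) : |cl T x| ≤ T := by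
  exact abs_le.2 ⟨le_max_left _ _, max_le (by linarith) (min_le_right _ _)⟩

theorem abs_cl_le' {T : ℝ} (hT : 0 ≤ T) (x : ℝ) : |cl T x| ≤ |x| := by
  rcases cl_cases hT x with ⟨_, h2⟩ | ⟨h1, h2⟩ | ⟨h1, h2⟩
  · rw [h2]
  · rw [h2, abs_of_nonneg hT]
    exact h1.le.trans (le_abs_self x)
  · rw [h2, abs_neg, abs_of_nonneg hT]
    have := neg_le_abs x
    linarith

/-- If `|x| ≤ T` the left side is `0`, otherwise it is `|x| - T ≤ |x| ≤ x² / T`. -/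
theorem abs_sub_cl {T : ℝ} (hT : 0 < T) (x : ℝ) : |x - cl T x| ≤ x ^ 2 / T := by
  have h0 : 0 ≤ x ^ 2 / T := by positivity
  rcases cl_cases hT.le x with ⟨_, h2⟩ | ⟨h1, h2⟩ | ⟨h1, h2⟩
  · rw [h2, sub_self, abs_zero]
    exact h0
  · rw [h2, abs_of_pos (by linarith), le_div_iff₀ hT]
    nlinarith
  · rw [h2, abs_of_neg (by linarith), le_div_iff₀ hT]
    nlinarith

/-- `x y - cl x * cl y = (x - cl x) y + cl x (y - cl y)`. -/
theorem cl_mul {T T' : ℝ} (hT : 0 < T) (hT' : 0 < T') (x y : ℝ) :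
    |x * y - cl T x * cl T' y| ≤ x ^ 2 * |y| / T + |x| * y ^ 2 / T' := by
  have h1 : x * y - cl T x * cl T' y = (x - cl T x) * y + cl T x * (y - cl T' y) := by ring
  rw [h1]
  refine (abs_add_le _ _).trans ?_
  rw [abs_mul, abs_mul]
  have h2 := abs_sub_cl hT x
  have h3 := abs_sub_cl hT' y
  have h4 := abs_cl_le' hT.le x
  have h5 : |x - cl T x| * |y| ≤ x ^ 2 / T * |y| := mul_le_mul_of_nonneg_right h2 (abs_nonneg y)
  have h6 : |cl T x| * |y - cl T' y| ≤ |x| * (y ^ 2 / T') :=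
    mul_le_mul h4 h3 (abs_nonneg _) (abs_nonneg _)
  have h7 : x ^ 2 * |y| / T + |x| * y ^ 2 / T' = x ^ 2 / T * |y| + |x| * (y ^ 2 / T') := by ring
  rw [h7]
  linarith

/-- Truncation error. `ρ(uγv) ≤ Λ sv u * sv γ * sv v` (`h.le`, `Y.sv_append_le` twice), `cl_mul`
and `Y.E n (sv |D|) ≤ sqrt (a n) sqrt (M n) ≤ sqrt K * R ≤ K R` (`E_cs'` with `r = sv`), where
`D u = xs (sm u)`, `M n = Y.E n (sv D²) ≤ R²` (note `Y.M xs n = Y.E n fun w => Y.sv w * Y.X2 xs w`,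
`Y.X2 xs w = (xs (Y.sm w)) ^ 2`), `a g ≤ K`, `1 ≤ K`:
`Y.E n Y.E g Y.E n (ρ(uγv) D(u)² |D(v)| / T) ≤ Λ (M n) (a g) (K R) / T ≤ Λ K² R³ / T`, and the same
for the second term with `T'`. -/
theorem cross_trunc (h : Bulk Y Λ ρ) {K : ℝ} (h1 : ∀ n, 1 ≤ Y.a n) (hK : ∀ n, Y.a n ≤ K)
    (xs : V →+ ℝ) (n g : ℕ) {R T T' : ℝ} (hR : 0 ≤ R) (hM : Y.M xs n ≤ R ^ 2) (hT : 0 < T)
    (hT' : 0 < T') :
    |(Y.E n fun u => Y.E g fun γ => Y.E n fun v =>
        ρ (u ++ γ ++ v) * (xs (Y.sm u) * xs (Y.sm v))) -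
      Y.E n fun u => Y.E g fun γ => Y.E n fun v =>
        ρ (u ++ γ ++ v) * (cl T (xs (Y.sm u)) * cl T' (xs (Y.sm v)))| ≤
      Λ * K ^ 2 * R ^ 3 / T + Λ * K ^ 2 * R ^ 3 / T' := by
  have hK1 : 1 ≤ K := (h1 0).trans (hK 0)
  have hΛ := h.pos
  rw [← Y.E_fsub]
  simp only [← Y.E_fsub]
  refine (Y.E_abs _ _).trans ?_
  have step1 : (Y.E n fun u => |Y.E g fun γ => Y.E n fun v =>
      ρ (u ++ γ ++ v) * (xs (Y.sm u) * xs (Y.sm v)) -
        ρ (u ++ γ ++ v) * (cl T (xs (Y.sm u)) * cl T' (xs (Y.sm v)))|) ≤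
      Y.E n fun u => Y.E g fun γ => Y.E n fun v =>
        (Λ / T * (Y.sv u * xs (Y.sm u) ^ 2)) * Y.sv γ * (Y.sv v * |xs (Y.sm v)|) +
        (Λ / T' * (Y.sv u * |xs (Y.sm u)|)) * Y.sv γ * (Y.sv v * xs (Y.sm v) ^ 2) := by
    refine Y.E_mono fun u _ => ?_
    refine (Y.E_abs _ _).trans (Y.E_mono fun γ _ => ?_)
    refine (Y.E_abs _ _).trans (Y.E_mono fun v _ => ?_)
    rw [← mul_sub, abs_mul, abs_of_nonneg (h.nonneg _)]
    have e1 := h.le (u ++ γ ++ v)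
    have e2 := Y.sv_append_le (u ++ γ) v
    have e3 := Y.sv_append_le u γ
    have e4 : Y.sv (u ++ γ ++ v) ≤ Y.sv u * Y.sv γ * Y.sv v :=
      e2.trans (mul_le_mul_of_nonneg_right e3 (Y.sv_nonneg v))
    have e5 : ρ (u ++ γ ++ v) ≤ Λ * (Y.sv u * Y.sv γ * Y.sv v) :=
      e1.trans (mul_le_mul_of_nonneg_left e4 hΛ.le)
    have e6 := cl_mul hT hT' (xs (Y.sm u)) (xs (Y.sm v))
    have e7 : 0 ≤ xs (Y.sm u) ^ 2 * |xs (Y.sm v)| / T + |xs (Y.sm u)| * xs (Y.sm v) ^ 2 / T' := by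
      positivity
    have e8 : 0 ≤ Λ * (Y.sv u * Y.sv γ * Y.sv v) :=
      mul_nonneg hΛ.le (mul_nonneg (mul_nonneg (Y.sv_nonneg _) (Y.sv_nonneg _)) (Y.sv_nonneg _))
    refine (mul_le_mul e5 e6 (abs_nonneg _) e8).trans (le_of_eq ?_)
    ring
  refine step1.trans ?_
  simp only [Y.E_fadd, Y.E_mul_left, Y.E_mul_right]
  have b1 : Y.E n (fun u => Y.sv u * xs (Y.sm u) ^ 2) ≤ R ^ 2 := hM
  have b1' : 0 ≤ Y.E n (fun u => Y.sv u * xs (Y.sm u) ^ 2) :=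
    Y.E_nonneg' fun w => mul_nonneg (Y.sv_nonneg w) (sq_nonneg _)
  have b2 : Y.E n (fun u => Y.sv u * |xs (Y.sm u)|) ≤ K * R := by
    have c1 := E_cs' Y n (r := Y.sv) Y.sv_nonneg (fun _ => 1) (fun u => |xs (Y.sm u)|)
    have c2 : (Y.E n fun u => Y.sv u * (1 : ℝ) ^ 2) = Y.a n := by
      simp [Sys.a]
    have c3 : (Y.E n fun u => Y.sv u * |xs (Y.sm u)| ^ 2) =
        Y.E n (fun u => Y.sv u * xs (Y.sm u) ^ 2) := by
      simp only [sq_abs]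
    rw [c2, c3] at c1
    simp only [one_mul] at c1
    refine (le_abs_self _).trans (c1.trans ?_)
    have c4 : Real.sqrt (Y.a n) ≤ K := by
      rw [Real.sqrt_le_left (by linarith)]
      have := hK n
      nlinarith
    have c5 : Real.sqrt (Y.E n (fun u => Y.sv u * xs (Y.sm u) ^ 2)) ≤ R := by
      rw [Real.sqrt_le_left hR]
      exact b1
    exact mul_le_mul c4 c5 (Real.sqrt_nonneg _) (by linarith)
  have b2' : 0 ≤ Y.E n (fun u => Y.sv u * |xs (Y.sm u)|) :=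
    Y.E_nonneg' fun w => mul_nonneg (Y.sv_nonneg w) (abs_nonneg _)
  have b3 : Y.E g (fun γ => Y.sv γ) ≤ K := hK g
  have b3' : 0 ≤ Y.E g (fun γ => Y.sv γ) := Y.E_nonneg' Y.sv_nonneg
  set A := Y.E n (fun u => Y.sv u * xs (Y.sm u) ^ 2) with hA
  set B := Y.E n (fun u => Y.sv u * |xs (Y.sm u)|) with hB
  set G := Y.E g (fun γ => Y.sv γ) with hG
  have c1 : A * G * B ≤ R ^ 2 * K * (K * R) :=
    mul_le_mul (mul_le_mul b1 b3 b3' (sq_nonneg R)) b2 b2'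
      (mul_nonneg (sq_nonneg R) (by linarith))
  have c2 : Λ / T * (A * G * B) ≤ Λ / T * (R ^ 2 * K * (K * R)) :=
    mul_le_mul_of_nonneg_left c1 (by positivity)
  have c3 : Λ / T' * (A * G * B) ≤ Λ / T' * (R ^ 2 * K * (K * R)) :=
    mul_le_mul_of_nonneg_left c1 (by positivity)
  have d1 : Λ / T * (R ^ 2 * K * (K * R)) = Λ * K ^ 2 * R ^ 3 / T := by ring
  have d2 : Λ / T' * (R ^ 2 * K * (K * R)) = Λ * K ^ 2 * R ^ 3 / T' := by ring
  have d3 : Λ / T * A * G * B = Λ / T * (A * G * B) := by ring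
  have d4 : Λ / T' * B * G * A = Λ / T' * (A * G * B) := by ring
  rw [d3, d4, ← d1, ← d2]
  linarith

/-- Replacing the law by the conditionally independent one: the integrand changes by at most
`|ρ(uγv) - ρ(uγ) ρ(γv) / ρ γ| * T * T'` (`abs_cl_le`). -/
theorem cross_dev (Y : Sys S V) (ρ : List S → ℝ) (xs : V →+ ℝ) (n g : ℕ) {T T' : ℝ} (hT : 0 < T)
    (hT' : 0 < T') :
    |(Y.E n fun u => Y.E g fun γ => Y.E n fun v =>
        ρ (u ++ γ ++ v) * (cl T (xs (Y.sm u)) * cl T' (xs (Y.sm v)))) -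
      Y.E n fun u => Y.E g fun γ => Y.E n fun v =>
        (ρ (u ++ γ) * ρ (γ ++ v) / ρ γ) * (cl T (xs (Y.sm u)) * cl T' (xs (Y.sm v)))| ≤
      T * T' * dev Y ρ n g n := by
  rw [← Y.E_fsub]
  simp only [← Y.E_fsub]
  refine (Y.E_abs _ _).trans ?_
  unfold dev
  rw [← Y.E_mul_left]
  refine Y.E_mono fun u _ => ?_
  refine (Y.E_abs _ _).trans ?_
  rw [← Y.E_mul_left]
  refine Y.E_mono fun γ _ => ?_
  refine (Y.E_abs _ _).trans ?_
  rw [← Y.E_mul_left]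
  refine Y.E_mono fun v _ => ?_
  rw [← sub_mul, abs_mul, abs_mul, mul_comm]
  refine mul_le_mul_of_nonneg_right ?_ (abs_nonneg _)
  exact mul_le_mul (abs_cl_le hT.le _) (abs_cl_le hT'.le _) (abs_nonneg _) hT.le

/-- The conditionally independent part. It equals `Y.E g (P γ * Q γ / ρ γ)` with
`P γ = Y.E n (ρ (u ++ γ) * cl T (D u))`, `Q γ = Y.E n (ρ (γ ++ v) * cl T' (D v))` (`Y.E_comm`,
`Y.E_mul_left`, `Y.E_mul_right`), `|Q γ| ≤ T' ρ γ` (`h.right`), so it is at most `T' Y.E g |P γ|`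
(the term with `ρ γ = 0` is `0`), and
`|P γ| ≤ |Y.E n (ρ (u ++ γ) * D u)| + Y.E n (ρ (u ++ γ) * D u ^ 2) / T` (`abs_sub_cl`), whose sum
over `γ` is `Y.E g |Y.E n (ρ (u ++ γ) * D u)| + V2 n / T` (`Y.E_comm`, `h.right`). -/
theorem cross_prod (h : Bulk Y Λ ρ) (xs : V →+ ℝ) (n g : ℕ) {T T' : ℝ} (hT : 0 < T)
    (hT' : 0 < T') :
    |Y.E n fun u => Y.E g fun γ => Y.E n fun v =>
        (ρ (u ++ γ) * ρ (γ ++ v) / ρ γ) * (cl T (xs (Y.sm u)) * cl T' (xs (Y.sm v)))| ≤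
      T' * ((Y.E g fun γ => |Y.E n fun u => ρ (u ++ γ) * xs (Y.sm u)|) + V2 Y ρ xs n / T) := by
  have e0 : (Y.E n fun u => Y.E g fun γ => Y.E n fun v =>
        (ρ (u ++ γ) * ρ (γ ++ v) / ρ γ) * (cl T (xs (Y.sm u)) * cl T' (xs (Y.sm v)))) =
      Y.E g fun γ => (Y.E n fun u => ρ (u ++ γ) * cl T (xs (Y.sm u))) *
        (Y.E n fun v => ρ (γ ++ v) * cl T' (xs (Y.sm v))) / ρ γ := by
    rw [Y.E_comm]
    refine Y.E_congr fun γ _ => ?_
    have e1 : ∀ u v : List S, ρ (u ++ γ) * ρ (γ ++ v) / ρ γ *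
        (cl T (xs (Y.sm u)) * cl T' (xs (Y.sm v))) =
        (ρ (u ++ γ) * cl T (xs (Y.sm u))) * ((ρ (γ ++ v) * cl T' (xs (Y.sm v))) * (ρ γ)⁻¹) := by
      intro u v
      rw [div_eq_mul_inv]
      ring
    simp only [e1, Y.E_mul_left, Y.E_mul_right]
    rw [div_eq_mul_inv]
    ring
  rw [e0]
  refine (Y.E_abs _ _).trans ?_
  have e2 : (Y.E n fun u => ρ u * xs (Y.sm u) ^ 2) =
      Y.E g fun γ => Y.E n fun u => ρ (u ++ γ) * xs (Y.sm u) ^ 2 := by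
    rw [Y.E_comm]
    refine Y.E_congr fun u _ => ?_
    rw [Y.E_mul_right, h.right u g]
  have e3 : T' * ((Y.E g fun γ => |Y.E n fun u => ρ (u ++ γ) * xs (Y.sm u)|) +
      V2 Y ρ xs n / T) =
      Y.E g fun γ => T' * (|Y.E n fun u => ρ (u ++ γ) * xs (Y.sm u)| +
        (Y.E n fun u => ρ (u ++ γ) * xs (Y.sm u) ^ 2) * T⁻¹) := by
    rw [Y.E_mul_left, Y.E_fadd, Y.E_mul_right, ← e2, V2, div_eq_mul_inv]
  rw [e3]
  refine Y.E_mono fun γ _ => ?_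
  have hP : |Y.E n fun u => ρ (u ++ γ) * cl T (xs (Y.sm u))| ≤
      |Y.E n fun u => ρ (u ++ γ) * xs (Y.sm u)| +
        (Y.E n fun u => ρ (u ++ γ) * xs (Y.sm u) ^ 2) * T⁻¹ := by
    have f1 : (Y.E n fun u => ρ (u ++ γ) * cl T (xs (Y.sm u))) =
        (Y.E n fun u => ρ (u ++ γ) * xs (Y.sm u)) -
          Y.E n fun u => ρ (u ++ γ) * (xs (Y.sm u) - cl T (xs (Y.sm u))) := by
      rw [← Y.E_fsub]
      refine Y.E_congr fun u _ => ?_
      ring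
    rw [f1]
    refine (abs_sub _ _).trans ?_
    refine add_le_add le_rfl ?_
    refine (Y.E_abs _ _).trans ?_
    rw [← Y.E_mul_right]
    refine Y.E_mono fun u _ => ?_
    rw [abs_mul, abs_of_nonneg (h.nonneg _)]
    have f2 := mul_le_mul_of_nonneg_left (abs_sub_cl hT (xs (Y.sm u))) (h.nonneg (u ++ γ))
    refine f2.trans (le_of_eq ?_)
    rw [div_eq_mul_inv]
    ring
  have hP0 : 0 ≤ |Y.E n fun u => ρ (u ++ γ) * xs (Y.sm u)| +
        (Y.E n fun u => ρ (u ++ γ) * xs (Y.sm u) ^ 2) * T⁻¹ := (abs_nonneg _).trans hP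
  have hQ : |Y.E n fun v => ρ (γ ++ v) * cl T' (xs (Y.sm v))| ≤ T' * ρ γ := by
    refine (Y.E_abs _ _).trans ?_
    rw [← h.right γ n, ← Y.E_mul_left]
    refine Y.E_mono fun v _ => ?_
    rw [abs_mul, abs_of_nonneg (h.nonneg _), mul_comm]
    exact mul_le_mul_of_nonneg_right (abs_cl_le hT'.le _) (h.nonneg _)
  rcases (h.nonneg γ).eq_or_lt with h0 | h0
  · rw [← h0, div_zero, abs_zero]
    exact mul_nonneg hT'.le hP0
  · rw [abs_div, abs_mul, abs_of_pos h0, div_le_iff₀ h0]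
    refine (mul_le_mul hP hQ (abs_nonneg _) hP0).trans (le_of_eq ?_)
    ring

/-- CROSS. Put `R = sqrt (R2 n)` (positive for large `n`), `Z g = Y.E g (fun _ => 1) > 0`.
Choose in this order `b ≥ 1` with `Λ K² / b ≤ η / 6`; `B ≥ 1` with `Λ K² / B ≤ η / 6` and
`b Λ / B ≤ η / 6`; `g` with `dev Y ρ n g n ≤ η / (6 B b)` for all `n` (`hni`); `ε₁ = η / (6 b Z g)`
and `C γ` from `hdr γ ε₁`, `C' = Y.E g C`; `n₀` with `R2 n > 0` and `6 b |C'| ≤ η sqrt (R2 n)` for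
`n ≥ n₀`. With `T = B R`, `T' = b R`: `cross_trunc` contributes `Λ K² R² / B + Λ K² R² / b
≤ (η / 3) R²`, `cross_dev` at most `B b R² dev ≤ (η / 6) R²`, and `cross_prod` at most
`b R (C' + ε₁ (Z g) R + Λ R² / (B R)) ≤ (η / 6) R² + (η / 6) R² + (η / 6) R²`
(`V2 n ≤ Λ M n ≤ Λ R²` by `h.V2_le`). Total `≤ η R² = η * R2 n`. -/
theorem cross (h : Bulk Y Λ ρ) {K : ℝ} (h1 : ∀ n, 1 ≤ Y.a n) (hK : ∀ n, Y.a n ≤ K)
    {xs : V →+ ℝ} {R2 : ℕ → ℝ} (hR : Tendsto R2 atTop atTop) (hM : ∀ n, Y.M xs n ≤ R2 n)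
    (hni : ∀ ε : ℝ, 0 < ε → ∃ g : ℕ, ∀ n, dev Y ρ n g n ≤ ε)
    (hdr : ∀ (γ : List S) (ε : ℝ), 0 < ε → ∃ C : ℝ, ∀ n,
      |Y.E n fun u => ρ (u ++ γ) * xs (Y.sm u)| ≤ C + ε * Real.sqrt (R2 n))
    {η : ℝ} (hη : 0 < η) :
    ∃ g n₀ : ℕ, ∀ n ≥ n₀, |Y.E n fun u => Y.E g fun γ => Y.E n fun v =>
        ρ (u ++ γ ++ v) * (xs (Y.sm u) * xs (Y.sm v))| ≤ η * R2 n := by
  have hK1 : 1 ≤ K := (h1 0).trans (hK 0)
  have hΛ := h.pos
  -- choice of the constants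
  obtain ⟨b, hb⟩ : ∃ b : ℝ, b = 6 * (Λ * K ^ 2) / η + 1 := ⟨_, rfl⟩
  have hb0 : 0 ≤ 6 * (Λ * K ^ 2) / η := by positivity
  have hb1 : 1 ≤ b := by linarith
  have hbpos : 0 < b := by linarith
  have hb2 : Λ * K ^ 2 / b ≤ η / 6 := by
    rw [div_le_iff₀ hbpos, hb]
    have : η / 6 * (6 * (Λ * K ^ 2) / η + 1) = Λ * K ^ 2 + η / 6 := by
      field_simp
    rw [this]
    linarith
  obtain ⟨B, hB⟩ : ∃ B : ℝ, B = 6 * (b * (Λ * K ^ 2)) / η + b := ⟨_, rfl⟩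
  have hB0 : 0 ≤ 6 * (b * (Λ * K ^ 2)) / η := by positivity
  have hB1 : 1 ≤ B := by linarith
  have hBpos : 0 < B := by linarith
  have hBb : b ≤ B := by linarith
  have hK2 : 1 ≤ K ^ 2 := by nlinarith
  have hB2 : b * (Λ * K ^ 2) / B ≤ η / 6 := by
    rw [div_le_iff₀ hBpos, hB]
    have : η / 6 * (6 * (b * (Λ * K ^ 2)) / η + b) = b * (Λ * K ^ 2) + η / 6 * b := by
      field_simp
    rw [this]
    have : 0 < η / 6 * b := by positivity
    linarith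
  have hB3 : Λ * K ^ 2 / B ≤ η / 6 := by
    refine le_trans ?_ hB2
    refine div_le_div_of_nonneg_right ?_ hBpos.le
    exact le_mul_of_one_le_left (by positivity) hb1
  have hB4 : b * Λ / B ≤ η / 6 := by
    refine le_trans ?_ hB2
    refine div_le_div_of_nonneg_right ?_ hBpos.le
    exact mul_le_mul_of_nonneg_left (le_mul_of_one_le_right hΛ.le hK2) hbpos.le
  obtain ⟨g, hg⟩ := hni (η / (6 * (B * b))) (by positivity)
  obtain ⟨Z, hZ⟩ : ∃ Z : ℝ, Z = Y.E g (fun _ => 1) := ⟨_, rfl⟩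
  have hZ0 : 0 ≤ Z := by rw [hZ]; exact Y.E_nonneg' fun _ => zero_le_one
  obtain ⟨ε₁, hε₁⟩ : ∃ ε₁ : ℝ, ε₁ = η / (6 * (b * (Z + 1))) := ⟨_, rfl⟩
  have hε₁pos : 0 < ε₁ := by rw [hε₁]; positivity
  have hε₁Z : b * (ε₁ * Z) ≤ η / 6 := by
    rw [hε₁]
    have e1 : b * (η / (6 * (b * (Z + 1))) * Z) = η / 6 * (Z / (Z + 1)) := by
      field_simp
    rw [e1]
    have e2 : Z / (Z + 1) ≤ 1 := by
      rw [div_le_one (by linarith)]
      linarith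
    have e3 : 0 < η / 6 := by positivity
    exact mul_le_of_le_one_right e3.le e2
  choose C hC using fun γ => hdr γ ε₁ hε₁pos
  obtain ⟨C', hC'⟩ : ∃ C' : ℝ, C' = Y.E g C := ⟨_, rfl⟩
  have hsq : Tendsto (fun n => Real.sqrt (R2 n)) atTop atTop :=
    Real.tendsto_sqrt_atTop.comp hR
  obtain ⟨n₁, hn₁⟩ := (Filter.tendsto_atTop.1 hsq (6 * (b * |C'|) / η + 1)).exists_forall_of_atTop
  refine ⟨g, n₁, fun n hn => ?_⟩
  have hR1 := hn₁ n hn
  obtain ⟨R, hRdef⟩ : ∃ R : ℝ, R = Real.sqrt (R2 n) := ⟨_, rfl⟩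
  rw [← hRdef] at hR1
  have hRpos : 0 < R := by
    have : 0 ≤ 6 * (b * |C'|) / η := by positivity
    linarith
  have hR2nn : 0 < R2 n := Real.sqrt_pos.1 (hRdef ▸ hRpos)
  have hR2 : R ^ 2 = R2 n := by rw [hRdef]; exact Real.sq_sqrt hR2nn.le
  have hCR : b * |C'| ≤ η / 6 * R := by
    have e1 : 6 * (b * |C'|) / η ≤ R := by linarith
    rw [div_le_iff₀ hη] at e1
    linarith
  have hMn : Y.M xs n ≤ R ^ 2 := by rw [hR2]; exact hM n
  have hT : 0 < B * R := by positivity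
  have hT' : 0 < b * R := by positivity
  have t1 := cross_trunc h h1 hK xs n g hRpos.le hMn hT hT'
  have t2 := cross_dev Y ρ xs n g hT hT'
  have t3 := cross_prod h xs n g hT hT'
  -- bounds
  have u1 : Λ * K ^ 2 * R ^ 3 / (B * R) + Λ * K ^ 2 * R ^ 3 / (b * R) ≤ η / 3 * R ^ 2 := by
    have e1 : Λ * K ^ 2 * R ^ 3 / (B * R) = (Λ * K ^ 2 / B) * R ^ 2 := by
      field_simp
    have e2 : Λ * K ^ 2 * R ^ 3 / (b * R) = (Λ * K ^ 2 / b) * R ^ 2 := by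
      field_simp
    rw [e1, e2]
    have e3 : 0 ≤ R ^ 2 := sq_nonneg R
    have e4 := mul_le_mul_of_nonneg_right hB3 e3
    have e5 := mul_le_mul_of_nonneg_right hb2 e3
    linarith
  have u2 : B * R * (b * R) * dev Y ρ n g n ≤ η / 6 * R ^ 2 := by
    have e1 := mul_le_mul_of_nonneg_left (hg n) (show 0 ≤ B * R * (b * R) by positivity)
    refine e1.trans (le_of_eq ?_)
    field_simp
  have u3 : b * R * ((Y.E g fun γ => |Y.E n fun u => ρ (u ++ γ) * xs (Y.sm u)|) +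
      V2 Y ρ xs n / (B * R)) ≤ η / 2 * R ^ 2 := by
    have e1 : (Y.E g fun γ => |Y.E n fun u => ρ (u ++ γ) * xs (Y.sm u)|) ≤
        C' + ε₁ * Z * R := by
      have f1 : (Y.E g fun γ => |Y.E n fun u => ρ (u ++ γ) * xs (Y.sm u)|) ≤
          Y.E g fun γ => C γ + ε₁ * R * 1 := by
        refine Y.E_mono fun γ _ => ?_
        have := hC γ n
        rw [← hRdef] at this
        rw [mul_one]
        exact this
      refine f1.trans (le_of_eq ?_)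
      rw [Y.E_fadd, Y.E_mul_left, ← hC', ← hZ]
      ring
    have e2 : V2 Y ρ xs n ≤ Λ * R ^ 2 := by
      refine (h.V2_le xs n).trans ?_
      exact mul_le_mul_of_nonneg_left hMn hΛ.le
    have e3 : V2 Y ρ xs n / (B * R) ≤ Λ / B * R := by
      have e4 := div_le_div_of_nonneg_right e2 hT.le
      refine e4.trans (le_of_eq ?_)
      field_simp
    have e5 : C' ≤ |C'| := le_abs_self C'
    have e6 : b * R * (|C'| + ε₁ * Z * R + Λ / B * R) =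
        R * (b * |C'|) + b * (ε₁ * Z) * R ^ 2 + b * Λ / B * R ^ 2 := by
      ring
    have e7 : R * (b * |C'|) ≤ η / 6 * R ^ 2 :=
      (mul_le_mul_of_nonneg_left hCR hRpos.le).trans (le_of_eq (by ring))
    have e8 := mul_le_mul_of_nonneg_right hε₁Z (sq_nonneg R)
    have e9 := mul_le_mul_of_nonneg_right hB4 (sq_nonneg R)
    have e10 : b * R * ((Y.E g fun γ => |Y.E n fun u => ρ (u ++ γ) * xs (Y.sm u)|) +
        V2 Y ρ xs n / (B * R)) ≤ b * R * (|C'| + ε₁ * Z * R + Λ / B * R) := by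
      refine mul_le_mul_of_nonneg_left ?_ (by positivity)
      linarith
    rw [e6] at e10
    linarith
  rw [← hR2]
  rw [abs_le] at t1 t2 t3 ⊢
  constructor
  · linarith [t1.1, t2.1, t3.1]
  · linarith [t1.2, t2.2, t3.2]

end Pool.Agent.SawDiff
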