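import Pool.Agent.Bub4.Words

/-!
# Stationary laws on self-avoiding words: definitions
-/

set_option autoImplicit false

namespace Pool.Agent.SawDiff

open Finset Pool.Agent.Bub4

variable {S V : Type} [Fintype S] [AddCommGroup V]

/-- `ρ u` is the probability that the word `u` occurs at a given place of a stationary random
two-sided sequence of steps (divided by `z ^ u.length`); it is at most `Λ` times the indicator
of the self-avoiding words. -/
structure Bulk (Y : Sys S V) (Λ : ℝ) (ρ : List S → ℝ) : Prop where
  nonneg : ∀ u, 0 ≤ ρ u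
  le : ∀ u, ρ u ≤ Λ * Y.sv u
  nil : ρ [] = 1
  right : ∀ (u : List S) (n : ℕ), Y.E n (fun v => ρ (u ++ v)) = ρ u
  left : ∀ (u : List S) (n : ℕ), Y.E n (fun v => ρ (v ++ u)) = ρ u

/-- entropy relative to the weights `z ^ n` -/
noncomputable def et (Y : Sys S V) (ρ : List S → ℝ) (n : ℕ) : ℝ :=
  - Y.E n fun u => ρ u * Real.log (ρ u)

/-- deviation from conditional independence of a word of length `m` and a word of length `n`,
given the word of length `g` between them -/
noncomputable def dev (Y : Sys S V) (ρ : List S → ℝ) (m g n : ℕ) : ℝ :=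
  Y.E m fun u => Y.E g fun γ => Y.E n fun v =>
    |ρ (u ++ γ ++ v) - ρ (u ++ γ) * ρ (γ ++ v) / ρ γ|

/-- second moment of the displacement in the direction `xs` -/
noncomputable def V2 (Y : Sys S V) (ρ : List S → ℝ) (xs : V →+ ℝ) (n : ℕ) : ℝ :=
  Y.E n fun u => ρ u * (xs (Y.sm u)) ^ 2

open Classical in
/-- indicator of the occurrence of `γ` at the place `h` of `w` -/
noncomputable def occ (γ : List S) (h : ℕ) (w : List S) : ℝ := if γ <+: w.drop h then 1 else 0

/-- frequency of `γ` among the first `H` places of `w` -/
noncomputable def av (γ : List S) (H : ℕ) (w : List S) : ℝ :=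
  (H : ℝ)⁻¹ * ∑ h ∈ range H, occ γ h w

end Pool.Agent.SawDiff
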