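import Pool.Agent.SawDiff.Erg

/-!
# No drift (module DRIFT)
-/

set_option autoImplicit false

namespace Pool.Agent.SawDiff

open Finset Pool.Agent.Bub4

variable {S V : Type} [Fintype S] [AddCommGroup V] {Y : Sys S V} {Λ : ℝ} {ρ : List S → ℝ}

/-- displacement of the factor of length `n` at the place `p` -/
noncomputable def Dp (Y : Sys S V) (xs : V →+ ℝ) (n p : ℕ) (w : List S) : ℝ :=
  xs (Y.sm ((w.drop p).take n))

private theorem DRIFT_delta (Y : Sys S V) (γ : List S) (f : List S → ℝ) :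
    Y.E γ.length (fun v => f v * occ γ 0 v) = Y.z ^ γ.length * f γ := by
  classical
  induction γ generalizing f with
  | nil =>
    simp [occ]
  | cons c γ ih =>
    rw [List.length_cons, Y.E_succ]
    have h1 : ∀ s, (Y.E γ.length fun w => f (s :: w) * occ (c :: γ) 0 (s :: w)) =
        if s = c then Y.z ^ γ.length * f (c :: γ) else 0 := by
      intro s
      by_cases hs : s = c
      · subst hs
        rw [if_pos rfl]
        rw [← ih (fun w => f (s :: w))]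
        refine Y.E_congr fun w _ => ?_
        congr 1
        unfold occ
        simp only [List.drop_zero, List.cons_prefix_cons, true_and]
      · rw [if_neg hs]
        rw [← Y.E_zero_fun γ.length]
        refine Y.E_congr fun w _ => ?_
        unfold occ
        rw [if_neg, mul_zero]
        rw [List.drop_zero, List.cons_prefix_cons]
        rintro ⟨h2, -⟩
        exact hs h2.symm
    simp only [h1]
    rw [Finset.sum_ite_eq' Finset.univ c, if_pos (Finset.mem_univ _), pow_succ]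
    ring

/-- Stationarity. For `p + n + |γ| ≤ L`:
`Y.E L (ρ w * (Dp n p w * occ γ (p + n) w)) = z ^ |γ| * Y.E n (ρ (u ++ γ) * xs (sm u))`.
`h.win` with window `[p, p + n + |γ|)` and `F x = xs (sm (x.take n)) * occ γ n x` (`occ_take`,
`occ_drop`, `List.take_take`); then `Y.E_add n |γ|`: for `x = u ++ v` with `|u| = n`, `|v| = |γ|`,
`occ γ n x = 1` if `v = γ` and `0` otherwise, and `Y.E |γ| (fun v => f v * [v = γ]) = z ^ |γ| * f γ`
(induction on `γ`, or `Y.E_eq` and `Finset.sum_eq_single`). -/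
theorem drift_stat (h : Bulk Y Λ ρ) (xs : V →+ ℝ) (γ : List S) {n p L : ℕ}
    (hL : p + n + γ.length ≤ L) :
    (Y.E L fun w => ρ w * (Dp Y xs n p w * occ γ (p + n) w)) =
      Y.z ^ γ.length * Y.E n fun u => ρ (u ++ γ) * xs (Y.sm u) := by
  obtain ⟨b, rfl⟩ : ∃ b, L = p + (n + γ.length) + b := ⟨L - (p + (n + γ.length)), by omega⟩
  have h1 : (Y.E (p + (n + γ.length) + b) fun w => ρ w * (Dp Y xs n p w * occ γ (p + n) w)) =
      Y.E (p + (n + γ.length) + b) fun w => ρ w *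
        ((fun x => xs (Y.sm (x.take n)) * occ γ n x) ((w.drop p).take (n + γ.length))) := by
    refine Y.E_congr fun w _ => ?_
    congr 1
    show _ = xs (Y.sm (((w.drop p).take (n + γ.length)).take n)) *
      occ γ n ((w.drop p).take (n + γ.length))
    rw [occ_take γ le_rfl, occ_drop, List.take_take, min_eq_left (Nat.le_add_right _ _)]
    rfl
  refine h1.trans ((h.win p (n + γ.length) b
    (fun x => xs (Y.sm (x.take n)) * occ γ n x)).trans ?_)
  rw [Y.E_add, ← Y.E_mul_left]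
  refine Y.E_congr fun u hu => ?_
  have h2 := DRIFT_delta Y γ (fun v => ρ (u ++ v) * xs (Y.sm u))
  rw [← h2]
  refine Y.E_congr fun v _ => ?_
  have h3 : (u ++ v).take n = u := by rw [← hu, List.take_left]
  have h4 : occ γ n (u ++ v) = occ γ 0 v := by
    have h5 := occ_drop γ 0 n (u ++ v)
    rw [Nat.add_zero] at h5
    rw [← h5, ← hu, List.drop_left]
  show ρ (u ++ v) * (xs (Y.sm ((u ++ v).take n)) * occ γ n (u ++ v)) = _
  rw [h3, h4]
  ring

/-- prefix sums -/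
private noncomputable def DRIFT_P (Y : Sys S V) (xs : V →+ ℝ) (w : List S) (k : ℕ) : ℝ :=
  xs (Y.sm (w.take k))

private theorem DRIFT_eq (xs : V →+ ℝ) (n p : ℕ) (w : List S) :
    Dp Y xs n p w = DRIFT_P Y xs w (p + n) - DRIFT_P Y xs w p := by
  unfold Dp DRIFT_P
  rw [List.take_add, Y.sm_append, map_add]
  ring

private theorem DRIFT_le {xs : V →+ ℝ} (hx : ∀ s, |xs (Y.vec s)| ≤ 1) (n p : ℕ) (w : List S) :
    |Dp Y xs n p w| ≤ n := by
  unfold Dp
  refine (abs_xs_le Y hx _).trans ?_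
  exact_mod_cast List.length_take_le _ _

/-- Shifting a factor by `i` changes its displacement by at most `2 i`, if `p + i + n ≤ |w|`:
both factors contain `w[p + i, p + n)` if `i ≤ n` (differences: `i` letters at each end;
`abs_xs_le`); if `i > n` both displacements are at most `n < i` in absolute value.
(Induction on `i` is easiest: shifting by one removes one letter and adds one letter.) -/
theorem Dp_shift {xs : V →+ ℝ} (hx : ∀ s, |xs (Y.vec s)| ≤ 1) {n p i : ℕ} {w : List S}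
    (hw : p + i + n ≤ w.length) : |Dp Y xs n (p + i) w - Dp Y xs n p w| ≤ 2 * i := by
  have e : Dp Y xs n (p + i) w - Dp Y xs n p w = Dp Y xs i (p + n) w - Dp Y xs i p w := by
    rw [DRIFT_eq, DRIFT_eq, DRIFT_eq, DRIFT_eq]
    have e1 : p + i + n = p + n + i := by ring
    rw [e1]
    ring
  rw [e]
  refine (abs_sub _ _).trans ?_
  have h1 := DRIFT_le (Y := Y) hx i (p + n) w
  have h2 := DRIFT_le (Y := Y) hx i p w
  linarith

/-- Sum of the displacements of all factors of length `n` at the places `p < Q`, for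
`n + Q ≤ |w|` : `Σ_{p < Q} Dp n p w = Σ_{i < n} Dp Q i w` (both are
`Σ_{p < Q} Σ_{i < n} xs (vec w[p + i])`). (For instance show
`Dp Y xs n p w = Σ_{i < n} Dp Y xs 1 (p + i) w` by induction on `n`, then `Finset.sum_comm`.) -/
theorem Dp_double {xs : V →+ ℝ} (n Q : ℕ) (w : List S) (hw : n + Q ≤ w.length) :
    ∑ p ∈ range Q, Dp Y xs n p w = ∑ i ∈ range n, Dp Y xs Q i w := by
  have h1 : ∀ m q, Dp Y xs m q w = ∑ i ∈ range m, (DRIFT_P Y xs w (q + i + 1) - DRIFT_P Y xs w (q + i)) := by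
    intro m q
    have := Finset.sum_range_sub (fun i => DRIFT_P Y xs w (q + i)) m
    rw [DRIFT_eq]
    rw [Nat.add_zero] at this
    exact this.symm
  simp only [h1]
  rw [Finset.sum_comm]
  refine Finset.sum_congr rfl fun i _ => Finset.sum_congr rfl fun p _ => ?_
  rw [Nat.add_comm p i]

private theorem DRIFT_V2 (h : Bulk Y Λ ρ) (xs : V →+ ℝ) {Q i L : ℕ} (hL : i + Q ≤ L) :
    (Y.E L fun w => ρ w * Dp Y xs Q i w ^ 2) = V2 Y ρ xs Q := by
  obtain ⟨b, rfl⟩ : ∃ b, L = i + Q + b := ⟨L - (i + Q), by omega⟩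
  exact h.win i Q b (fun x => xs (Y.sm x) ^ 2)

private theorem DRIFT_F2 (h : Bulk Y Λ ρ) {L : ℕ} {F : List S → ℝ} (hF : ∀ w, |F w| ≤ 1) :
    (Y.E L fun w => ρ w * F w ^ 2) ≤ 1 := by
  rw [← h.mass L]
  refine Y.E_mono fun w _ => ?_
  refine mul_le_of_le_one_right (h.nonneg w) ?_
  rw [← sq_abs]
  exact pow_le_one₀ (abs_nonneg _) (hF w)

/-- The averaged displacement is small: for `n + Q ≤ L`, `0 < Q` and `|F| ≤ 1`,
`|Y.E L (ρ w * ((Q⁻¹ Σ_{p < Q} Dp n p w) * F w))| ≤ (n / Q) * sqrt (V2 Q)`.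
By `Dp_double` the inner mean is `Q⁻¹ Σ_{i < n} Dp Q i w`; for each `i`,
`|Y.E L (ρ * (Dp Q i w * F w))| ≤ sqrt (Y.E L (ρ (Dp Q i) ^ 2)) * sqrt (Y.E L (ρ F ^ 2))
≤ sqrt (V2 Q) * 1` by `E_cs'`, `h.win` (place `i`, length `Q`) and `F ^ 2 ≤ 1`, `h.mass`. -/
theorem drift_mean (h : Bulk Y Λ ρ) (xs : V →+ ℝ) {n Q L : ℕ} (hQ : 0 < Q) (hL : n + Q ≤ L)
    (F : List S → ℝ) (hF : ∀ w, |F w| ≤ 1) :
    |Y.E L fun w => ρ w * (((Q : ℝ)⁻¹ * ∑ p ∈ range Q, Dp Y xs n p w) * F w)| ≤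
      n / Q * Real.sqrt (V2 Y ρ xs Q) := by
  have h1 : (Y.E L fun w => ρ w * (((Q : ℝ)⁻¹ * ∑ p ∈ range Q, Dp Y xs n p w) * F w)) =
      (Q : ℝ)⁻¹ * ∑ i ∈ range n, Y.E L fun w => ρ w * (Dp Y xs Q i w * F w) := by
    rw [← Y.E_fsum, ← Y.E_mul_left]
    refine Y.E_congr fun w hw => ?_
    rw [Dp_double n Q w (by omega)]
    rw [← Finset.mul_sum, ← Finset.sum_mul]
    ring
  rw [h1, abs_mul, abs_of_nonneg (inv_nonneg.2 (Nat.cast_nonneg Q))]
  have h2 : ∀ i ∈ range n, |Y.E L fun w => ρ w * (Dp Y xs Q i w * F w)| ≤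
      Real.sqrt (V2 Y ρ xs Q) := by
    intro i hi
    rw [Finset.mem_range] at hi
    refine (E_cs' Y L h.nonneg _ _).trans ?_
    rw [DRIFT_V2 h xs (by omega)]
    refine mul_le_of_le_one_right (Real.sqrt_nonneg _) ?_
    rw [Real.sqrt_le_one]
    exact DRIFT_F2 h hF
  have h3 : |∑ i ∈ range n, Y.E L fun w => ρ w * (Dp Y xs Q i w * F w)| ≤
      n * Real.sqrt (V2 Y ρ xs Q) := by
    refine (Finset.abs_sum_le_sum_abs _ _).trans ?_
    refine (Finset.sum_le_sum h2).trans ?_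
    rw [Finset.sum_const, Finset.card_range, nsmul_eq_mul]
  refine (mul_le_mul_of_nonneg_left h3 (inv_nonneg.2 (Nat.cast_nonneg Q))).trans (le_of_eq ?_)
  ring

private theorem DRIFT_blocks (f : ℕ → ℝ) (H k : ℕ) :
    ∑ q ∈ range (k * H), f q = ∑ j ∈ range k, ∑ i ∈ range H, f (j * H + i) := by
  induction k with
  | zero => simp
  | succ k ih =>
    rw [Nat.succ_mul, Finset.sum_range_add, ih, Finset.sum_range_succ]

private theorem DRIFT_abs_E (h : Bulk Y Λ ρ) {L : ℕ} {F : List S → ℝ} {c : ℝ}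
    (hF : ∀ w, w.length = L → |F w| ≤ c) : |Y.E L fun w => ρ w * F w| ≤ c := by
  refine (Y.E_abs _ _).trans ?_
  have h1 : (Y.E L fun w => |ρ w * F w|) ≤ Y.E L fun w => ρ w * c := by
    refine Y.E_mono fun w hw => ?_
    rw [abs_mul, abs_of_nonneg (h.nonneg w)]
    exact mul_le_mul_of_nonneg_left (hF w hw) (h.nonneg w)
  refine h1.trans (le_of_eq ?_)
  rw [Y.E_mul_right, h.mass, one_mul]

/-- the mean of the differences within blocks -/
private theorem DRIFT_mean_le {H k : ℕ} (hH : 0 < H) (hk : 0 < k) (D : ℕ → ℝ) (o : ℕ → ℝ)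
    (ho : ∀ q, |o q| ≤ 1) (hD : ∀ j < k, ∀ i < H, |D (j * H + i) - D (j * H)| ≤ 2 * i) :
    |((k * H : ℕ) : ℝ)⁻¹ * ∑ q ∈ range (k * H), D q * o q -
      (k : ℝ)⁻¹ * ∑ j ∈ range k, D (j * H) * ((H : ℝ)⁻¹ * ∑ i ∈ range H, o (j * H + i))| ≤
      2 * H := by
  have hH' : (0 : ℝ) < H := by exact_mod_cast hH
  have hk' : (0 : ℝ) < k := by exact_mod_cast hk
  have e : ((k * H : ℕ) : ℝ)⁻¹ * ∑ q ∈ range (k * H), D q * o q -
      (k : ℝ)⁻¹ * ∑ j ∈ range k, D (j * H) * ((H : ℝ)⁻¹ * ∑ i ∈ range H, o (j * H + i)) =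
      ((k : ℝ) * H)⁻¹ * ∑ j ∈ range k, ∑ i ∈ range H, (D (j * H + i) - D (j * H)) * o (j * H + i) := by
    rw [DRIFT_blocks, Nat.cast_mul]
    have e1 : (k : ℝ)⁻¹ * ∑ j ∈ range k, D (j * H) * ((H : ℝ)⁻¹ * ∑ i ∈ range H, o (j * H + i)) =
        ((k : ℝ) * H)⁻¹ * ∑ j ∈ range k, ∑ i ∈ range H, D (j * H) * o (j * H + i) := by
      rw [mul_inv, mul_assoc]
      congr 1
      rw [Finset.mul_sum]
      refine Finset.sum_congr rfl fun j _ => ?_
      rw [← Finset.mul_sum]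
      ring
    rw [e1, ← mul_sub, ← Finset.sum_sub_distrib]
    congr 1
    refine Finset.sum_congr rfl fun j _ => ?_
    rw [← Finset.sum_sub_distrib]
    refine Finset.sum_congr rfl fun i _ => ?_
    ring
  rw [e, abs_mul, abs_of_pos (inv_pos.2 (mul_pos hk' hH'))]
  have h1 : |∑ j ∈ range k, ∑ i ∈ range H, (D (j * H + i) - D (j * H)) * o (j * H + i)| ≤
      (k : ℝ) * (H * (2 * H)) := by
    refine (Finset.abs_sum_le_sum_abs _ _).trans ?_
    have h2 : ∀ j ∈ range k, |∑ i ∈ range H, (D (j * H + i) - D (j * H)) * o (j * H + i)| ≤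
        H * (2 * H) := by
      intro j hj
      refine (Finset.abs_sum_le_sum_abs _ _).trans ?_
      have h3 : ∀ i ∈ range H, |(D (j * H + i) - D (j * H)) * o (j * H + i)| ≤ 2 * H := by
        intro i hi
        rw [abs_mul]
        have h4 := hD j (Finset.mem_range.1 hj) i (Finset.mem_range.1 hi)
        have h5 := ho (j * H + i)
        have h6 : (i : ℝ) ≤ H := by exact_mod_cast (Finset.mem_range.1 hi).le
        calc |D (j * H + i) - D (j * H)| * |o (j * H + i)|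
            ≤ |D (j * H + i) - D (j * H)| * 1 := mul_le_mul_of_nonneg_left h5 (abs_nonneg _)
          _ ≤ 2 * H := by linarith
      refine (Finset.sum_le_sum h3).trans ?_
      rw [Finset.sum_const, Finset.card_range, nsmul_eq_mul]
    refine (Finset.sum_le_sum h2).trans ?_
    rw [Finset.sum_const, Finset.card_range, nsmul_eq_mul]
  refine (mul_le_mul_of_nonneg_left h1 (inv_pos.2 (mul_pos hk' hH')).le).trans (le_of_eq ?_)
  field_simp

/-- DRIFT with explicit constants. Let `0 < H`, `0 < k`, `Q = k H`, `g = |γ|`, `L = n + Q + g` and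
`F = Y.E n (ρ (u ++ γ) * xs (sm u))`. Then
`z ^ g * |F| ≤ 4 H + sqrt (V2 n) * sqrt (mf γ H - mf γ (k H)) + (n / (k H)) * sqrt (V2 (k H))`.

Proof. Write `D p = Dp n p w`, `x = w.drop n` (length `Q + g`), `A j = av γ H (x.drop (j H))
= H⁻¹ Σ_{i < H} occ γ (n + j H + i) w`, `A = av γ (k H) x = k⁻¹ Σ_{j<k} A j` (`av_blocks`).
(1) `z ^ g F = Y.E L (ρ * D (j H + i) * occ γ (j H + i + n))` for `j < k`, `i < H` (`drift_stat`;
`j H + i + n + g ≤ L`). Average over `i < H`, `j < k` and use `|D (j H + i) - D (j H)| ≤ 2 i ≤ 2 H`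
(`Dp_shift`; `j H + i + n ≤ L`), `0 ≤ occ ≤ 1`, `h.mass`:
`|z ^ g F - k⁻¹ Σ_j Y.E L (ρ * D (j H) * A j)| ≤ 2 H`.
(2) `|k⁻¹ Σ_j Y.E L (ρ * D (j H) * (A j - A))| ≤ k⁻¹ Σ_j sqrt (Y.E L (ρ D (j H) ^ 2)) *
sqrt (Y.E L (ρ (A j - A) ^ 2)) ≤ sqrt (V2 n) * sqrt (k⁻¹ Σ_j Y.E L (ρ (A j - A) ^ 2))
= sqrt (V2 n) * sqrt (mf γ H - mf γ (k H))` (`E_cs'`; `h.win` for the first factor; concavity of
the square root or Cauchy-Schwarz for the mean over `j`; `h.win_right n (Q + g)` turns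
`Y.E L (ρ w * f (w.drop n))` into `Y.E (Q + g) (ρ x * f x)`, then `block_var`).
(3) `|k⁻¹ Σ_j Y.E L (ρ * D (j H) * A)| ≤ |Y.E L (ρ * (Q⁻¹ Σ_{p < Q} D p) * A)| + 2 H
≤ (n / Q) sqrt (V2 Q) + 2 H`: again `|D (j H + i) - D (j H)| ≤ 2 H`, `0 ≤ A ≤ 1`, the mean over
`j < k`, `i < H` of `D (j H + i)` is the mean over `p < Q = k H` of `D p`, then `drift_mean`.
Add up: `z ^ g |F| ≤ 2 H + (2) + (3)`. -/
theorem drift_quant (h : Bulk Y Λ ρ) {xs : V →+ ℝ} (hx : ∀ s, |xs (Y.vec s)| ≤ 1)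
    (γ : List S) (n : ℕ) {H k : ℕ} (hH : 0 < H) (hk : 0 < k) :
    Y.z ^ γ.length * |Y.E n fun u => ρ (u ++ γ) * xs (Y.sm u)| ≤
      4 * H + Real.sqrt (V2 Y ρ xs n) * Real.sqrt (mf Y ρ γ H - mf Y ρ γ (k * H)) +
        n / (k * H : ℕ) * Real.sqrt (V2 Y ρ xs (k * H)) := by
  have hH' : (0 : ℝ) < H := by exact_mod_cast hH
  have hk' : (0 : ℝ) < k := by exact_mod_cast hk
  have hQ : 0 < k * H := Nat.mul_pos hk hH
  have hQ' : (0 : ℝ) < ((k * H : ℕ) : ℝ) := by exact_mod_cast hQ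
  set L := n + (k * H + γ.length) with hLdef
  set F := Y.E n fun u => ρ (u ++ γ) * xs (Y.sm u) with hF
  -- the four averages
  set S1 : List S → ℝ := fun w => ((k * H : ℕ) : ℝ)⁻¹ *
    ∑ q ∈ range (k * H), Dp Y xs n q w * occ γ (q + n) w with hS1
  set S2 : List S → ℝ := fun w => (k : ℝ)⁻¹ * ∑ j ∈ range k, Dp Y xs n (j * H) w *
    av γ H (w.drop (n + j * H)) with hS2
  set S3 : List S → ℝ := fun w => (k : ℝ)⁻¹ * ∑ j ∈ range k, Dp Y xs n (j * H) w *
    av γ (k * H) (w.drop n) with hS3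
  set S4 : List S → ℝ := fun w => (((k * H : ℕ) : ℝ)⁻¹ *
    ∑ q ∈ range (k * H), Dp Y xs n q w) * av γ (k * H) (w.drop n) with hS4
  have hav : ∀ j w, av γ H (w.drop (n + j * H)) =
      (H : ℝ)⁻¹ * ∑ i ∈ range H, occ γ (j * H + i + n) w := by
    intro j w
    unfold av
    congr 1
    refine Finset.sum_congr rfl fun i _ => ?_
    rw [occ_drop]
    congr 1
    ring
  have hqlt : ∀ j < k, ∀ i < H, j * H + i < k * H := by
    intro j hj i hi
    calc j * H + i < j * H + H := by omega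
      _ = (j + 1) * H := by ring
      _ ≤ k * H := Nat.mul_le_mul_right _ hj
  have hDs : ∀ w : List S, w.length = L → ∀ j < k, ∀ i < H,
      |Dp Y xs n (j * H + i) w - Dp Y xs n (j * H) w| ≤ 2 * i := by
    intro w hw j hj i hi
    have := hqlt j hj i hi
    exact Dp_shift hx (by omega)
  have h12 : ∀ w : List S, w.length = L → |S1 w - S2 w| ≤ 2 * H := by
    intro w hw
    have := DRIFT_mean_le hH hk (fun q => Dp Y xs n q w) (fun q => occ γ (q + n) w)
      (fun q => by rw [abs_of_nonneg (occ_nonneg _ _ _)]; exact occ_le_one _ _ _) (hDs w hw)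
    rw [hS1, hS2]
    simp only [hav]
    exact this
  have h34 : ∀ w : List S, w.length = L → |S4 w - S3 w| ≤ 2 * H := by
    intro w hw
    have := DRIFT_mean_le hH hk (fun q => Dp Y xs n q w) (fun _ => av γ (k * H) (w.drop n))
      (fun q => by rw [abs_of_nonneg (av_nonneg _ _ _)]; exact av_le_one _ _ _) (hDs w hw)
    have e1 : ((k * H : ℕ) : ℝ)⁻¹ * ∑ q ∈ range (k * H), (fun q => Dp Y xs n q w) q *
        (fun _ => av γ (k * H) (w.drop n)) q = S4 w := by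
      rw [hS4]
      simp only
      rw [← Finset.sum_mul]
      ring
    have e2 : (k : ℝ)⁻¹ * ∑ j ∈ range k, (fun q => Dp Y xs n q w) (j * H) *
        ((H : ℝ)⁻¹ * ∑ i ∈ range H, (fun _ => av γ (k * H) (w.drop n)) (j * H + i)) = S3 w := by
      rw [hS3]
      simp only [Finset.sum_const, Finset.card_range, nsmul_eq_mul]
      congr 1
      refine Finset.sum_congr rfl fun j _ => ?_
      field_simp
    rw [e1, e2] at this
    exact this
  -- (1)
  have hT : Y.z ^ γ.length * F = Y.E L fun w => ρ w * S1 w := by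
    have e1 : (Y.E L fun w => ρ w * S1 w) = ((k * H : ℕ) : ℝ)⁻¹ *
        ∑ q ∈ range (k * H), Y.E L fun w => ρ w * (Dp Y xs n q w * occ γ (q + n) w) := by
      rw [← Y.E_fsum, ← Y.E_mul_left]
      refine Y.E_congr fun w _ => ?_
      rw [hS1]
      simp only
      rw [← Finset.mul_sum]
      ring
    rw [e1]
    have e2 : ∀ q ∈ range (k * H), (Y.E L fun w => ρ w * (Dp Y xs n q w * occ γ (q + n) w)) =
        Y.z ^ γ.length * F := by
      intro q hq
      rw [Finset.mem_range] at hq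
      exact drift_stat h xs γ (by omega)
    rw [Finset.sum_congr rfl e2, Finset.sum_const, Finset.card_range, nsmul_eq_mul]
    field_simp
  have hE4 : |Y.E L fun w => ρ w * S4 w| ≤
      n / (k * H : ℕ) * Real.sqrt (V2 Y ρ xs (k * H)) := by
    exact drift_mean h xs hQ (by omega) (fun w => av γ (k * H) (w.drop n))
      (fun w => by rw [abs_of_nonneg (av_nonneg _ _ _)]; exact av_le_one _ _ _)
  have hE23 : |Y.E L fun w => ρ w * (S2 w - S3 w)| ≤
      Real.sqrt (V2 Y ρ xs n) * Real.sqrt (mf Y ρ γ H - mf Y ρ γ (k * H)) := by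
    have e1 : (Y.E L fun w => ρ w * (S2 w - S3 w)) = (k : ℝ)⁻¹ * ∑ j ∈ range k,
        Y.E L fun w => ρ w * (Dp Y xs n (j * H) w *
          (av γ H (w.drop (n + j * H)) - av γ (k * H) (w.drop n))) := by
      rw [← Y.E_fsum, ← Y.E_mul_left]
      refine Y.E_congr fun w _ => ?_
      rw [hS2, hS3]
      simp only
      rw [← mul_sub, ← Finset.sum_sub_distrib, ← Finset.mul_sum]
      rw [mul_left_comm]
      congr 2
      refine Finset.sum_congr rfl fun j _ => ?_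
      ring
    set q : ℕ → ℝ := fun j => Y.E L fun w => ρ w *
      (av γ H (w.drop (n + j * H)) - av γ (k * H) (w.drop n)) ^ 2 with hq
    have hq0 : ∀ j, 0 ≤ q j := fun j => Y.E_nonneg' fun w => mul_nonneg (h.nonneg w) (sq_nonneg _)
    have e2 : ∀ j ∈ range k, |Y.E L fun w => ρ w * (Dp Y xs n (j * H) w *
          (av γ H (w.drop (n + j * H)) - av γ (k * H) (w.drop n)))| ≤
        Real.sqrt (V2 Y ρ xs n) * Real.sqrt (q j) := by
      intro j hj
      rw [Finset.mem_range] at hj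
      refine (E_cs' Y L h.nonneg _ _).trans (le_of_eq ?_)
      have := hqlt j hj 0 hH
      rw [DRIFT_V2 h xs (by omega)]
    have e3 : ∀ j ∈ range k, q j = Y.E (k * H + γ.length) fun w =>
        ρ w * (av γ H (w.drop (j * H)) - av γ (k * H) w) ^ 2 := by
      intro j _
      have := h.win_right n (k * H + γ.length)
        (fun x => (av γ H (x.drop (j * H)) - av γ (k * H) x) ^ 2)
      rw [← this, hq]
      refine Y.E_congr fun w _ => ?_
      simp only [List.drop_drop]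
    have e4 : (k : ℝ)⁻¹ * ∑ j ∈ range k, q j = mf Y ρ γ H - mf Y ρ γ (k * H) := by
      rw [Finset.sum_congr rfl e3]
      exact block_var h γ hH hk
    have e5 : (k : ℝ)⁻¹ * ∑ j ∈ range k, Real.sqrt (q j) ≤
        Real.sqrt (mf Y ρ γ H - mf Y ρ γ (k * H)) := by
      refine Real.le_sqrt_of_sq_le ?_
      rw [← e4, mul_pow]
      have hcs := sq_sum_le_card_mul_sum_sq (s := range k) (f := fun j => Real.sqrt (q j))
      rw [Finset.card_range] at hcs
      have e6 : ∑ j ∈ range k, Real.sqrt (q j) ^ 2 = ∑ j ∈ range k, q j :=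
        Finset.sum_congr rfl fun j _ => Real.sq_sqrt (hq0 j)
      rw [e6] at hcs
      refine (mul_le_mul_of_nonneg_left hcs (sq_nonneg _)).trans (le_of_eq ?_)
      field_simp
    rw [e1, abs_mul, abs_of_pos (inv_pos.2 hk')]
    refine (mul_le_mul_of_nonneg_left (Finset.abs_sum_le_sum_abs _ _) (inv_pos.2 hk').le).trans ?_
    refine (mul_le_mul_of_nonneg_left (Finset.sum_le_sum e2) (inv_pos.2 hk').le).trans ?_
    rw [← Finset.mul_sum]
    calc (k : ℝ)⁻¹ * (Real.sqrt (V2 Y ρ xs n) * ∑ j ∈ range k, Real.sqrt (q j))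
        = Real.sqrt (V2 Y ρ xs n) * ((k : ℝ)⁻¹ * ∑ j ∈ range k, Real.sqrt (q j)) := by ring
      _ ≤ _ := mul_le_mul_of_nonneg_left e5 (Real.sqrt_nonneg _)
  have hsplit : (Y.E L fun w => ρ w * S1 w) = (Y.E L fun w => ρ w * (S1 w - S2 w)) +
      (Y.E L fun w => ρ w * (S2 w - S3 w)) - (Y.E L fun w => ρ w * (S4 w - S3 w)) +
        Y.E L fun w => ρ w * S4 w := by
    rw [← Y.E_fadd, ← Y.E_fsub, ← Y.E_fadd]
    refine Y.E_congr fun w _ => ?_
    ring
  have hzp : 0 < Y.z ^ γ.length := pow_pos Y.z_pos _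
  have hfin : Y.z ^ γ.length * |F| = |Y.E L fun w => ρ w * S1 w| := by
    rw [← hT, abs_mul, abs_of_pos hzp]
  rw [hfin, hsplit]
  have b1 : |Y.E L fun w => ρ w * (S1 w - S2 w)| ≤ 2 * H := DRIFT_abs_E h h12
  have b2 : |Y.E L fun w => ρ w * (S4 w - S3 w)| ≤ 2 * H := DRIFT_abs_E h h34
  rw [abs_le] at b1 b2 hE23 hE4 ⊢
  constructor <;> linarith [b1.1, b1.2, b2.1, b2.2, hE23.1, hE23.2, hE4.1, hE4.2]

/-- DRIFT. Given `γ`, `ε > 0` let `δ = (ε z ^ g) ^ 2`, `H` from `exists_window`, and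
`C = z ^ (-g) (4 H + 1)`. For each `n` choose `k > 0` with
`(n / (k H)) sqrt (V2 (k H)) ≤ 1`, possible since `sqrt (V2 Q) / Q → 0` as `Q → ∞` (`hV` with
`ε' = 1 / (n + 1) ^ 2`). Then `drift_quant` gives
`z ^ g |F| ≤ 4 H + sqrt (V2 n) * ε z ^ g + 1`; divide by `z ^ g > 0`. -/
theorem drift (h : Bulk Y Λ ρ) {xs : V →+ ℝ} (hx : ∀ s, |xs (Y.vec s)| ≤ 1)
    (hV : ∀ ε : ℝ, 0 < ε → ∃ n₀ : ℕ, ∀ n ≥ n₀, V2 Y ρ xs n ≤ ε * (n : ℝ) ^ 2)
    (γ : List S) {ε : ℝ} (hε : 0 < ε) :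
    ∃ C : ℝ, ∀ n, |Y.E n fun u => ρ (u ++ γ) * xs (Y.sm u)| ≤
      C + ε * Real.sqrt (V2 Y ρ xs n) := by
  have hzp : 0 < Y.z ^ γ.length := pow_pos Y.z_pos _
  obtain ⟨H, hH, hw⟩ := exists_window h γ (δ := (ε * Y.z ^ γ.length) ^ 2) (by positivity)
  refine ⟨(4 * H + 1) / Y.z ^ γ.length, fun n => ?_⟩
  obtain ⟨n₀, hn₀⟩ := hV (1 / ((n : ℝ) + 1) ^ 2) (by positivity)
  have hk : 0 < n₀ + 1 := Nat.succ_pos _
  have hq := drift_quant h hx γ n hH hk
  have hQ : n₀ ≤ (n₀ + 1) * H := by nlinarith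
  have hQ0 : 0 < (n₀ + 1) * H := Nat.mul_pos hk hH
  have hQ' : (0 : ℝ) < (((n₀ + 1) * H : ℕ) : ℝ) := by exact_mod_cast hQ0
  have hv := hn₀ _ hQ
  have hn1 : (0 : ℝ) < (n : ℝ) + 1 := by positivity
  have hs : Real.sqrt (V2 Y ρ xs ((n₀ + 1) * H)) ≤ (((n₀ + 1) * H : ℕ) : ℝ) / ((n : ℝ) + 1) := by
    refine Real.sqrt_le_iff.2 ⟨by positivity, ?_⟩
    refine hv.trans (le_of_eq ?_)
    rw [div_pow]
    ring
  have h3 : (n : ℝ) / (((n₀ + 1) * H : ℕ) : ℝ) * Real.sqrt (V2 Y ρ xs ((n₀ + 1) * H)) ≤ 1 := by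
    refine (mul_le_mul_of_nonneg_left hs (by positivity)).trans ?_
    rw [div_mul_div_comm, div_le_one (by positivity)]
    nlinarith
  have h4 : Real.sqrt (mf Y ρ γ H - mf Y ρ γ ((n₀ + 1) * H)) ≤ ε * Y.z ^ γ.length := by
    refine Real.sqrt_le_iff.2 ⟨by positivity, hw _ hk⟩
  have h5 := mul_le_mul_of_nonneg_left h4 (Real.sqrt_nonneg (V2 Y ρ xs n))
  have h6 : Y.z ^ γ.length * |Y.E n fun u => ρ (u ++ γ) * xs (Y.sm u)| ≤
      4 * H + 1 + Real.sqrt (V2 Y ρ xs n) * (ε * Y.z ^ γ.length) := by linarith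
  have h7 : (4 * H + 1) / Y.z ^ γ.length + ε * Real.sqrt (V2 Y ρ xs n) =
      (4 * H + 1 + Real.sqrt (V2 Y ρ xs n) * (ε * Y.z ^ γ.length)) / Y.z ^ γ.length := by
    field_simp
  rw [h7, le_div_iff₀ hzp]
  linarith

end Pool.Agent.SawDiff
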