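import Pool.Agent.SawDiff.Basic

/-!
# Block averages of the frequency of a word (module ERG)
-/

set_option autoImplicit false

namespace Pool.Agent.SawDiff

open Finset Pool.Agent.Bub4

variable {S V : Type} [Fintype S] [AddCommGroup V] {Y : Sys S V} {Λ : ℝ} {ρ : List S → ℝ}

/-- second moment of the frequency of `γ` in a window with `H` places -/
noncomputable def mf (Y : Sys S V) (ρ : List S → ℝ) (γ : List S) (H : ℕ) : ℝ :=
  Y.E (H + γ.length) fun w => ρ w * av γ H w ^ 2

theorem occ_nonneg (γ : List S) (h : ℕ) (w : List S) : 0 ≤ occ γ h w := by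
  unfold occ; split_ifs <;> norm_num

theorem occ_le_one (γ : List S) (h : ℕ) (w : List S) : occ γ h w ≤ 1 := by
  unfold occ; split_ifs <;> norm_num

theorem av_nonneg (γ : List S) (H : ℕ) (w : List S) : 0 ≤ av γ H w :=
  mul_nonneg (inv_nonneg.2 (Nat.cast_nonneg H)) (Finset.sum_nonneg fun _ _ => occ_nonneg _ _ _)

/-- `av γ H w` is a mean of `H` numbers in `[0, 1]` (it is `0` for `H = 0`). -/
theorem av_le_one (γ : List S) (H : ℕ) (w : List S) : av γ H w ≤ 1 := by
  unfold av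
  rcases Nat.eq_zero_or_pos H with rfl | hH
  · simp
  · have h1 : ∑ h ∈ range H, occ γ h w ≤ H := by
      have := Finset.sum_le_card_nsmul (range H) (fun h => occ γ h w) 1
        (fun h _ => occ_le_one γ h w)
      simpa using this
    have h2 : (0 : ℝ) < H := by exact_mod_cast hH
    rw [inv_mul_le_iff₀ h2, mul_one]
    exact h1

/-- `occ γ h (w.drop p) = occ γ (p + h) w` (`List.drop_drop`). -/
theorem occ_drop (γ : List S) (h p : ℕ) (w : List S) : occ γ h (w.drop p) = occ γ (p + h) w := by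
  unfold occ
  rw [List.drop_drop]

/-- `occ γ h w` depends only on the first `L ≥ h + |γ|` letters of `w`. -/
theorem occ_take (γ : List S) {h L : ℕ} (hL : h + γ.length ≤ L) (w : List S) :
    occ γ h (w.take L) = occ γ h w := by
  unfold occ
  have h1 : γ <+: (w.take L).drop h ↔ γ <+: w.drop h := by
    rw [List.drop_take, List.prefix_take_iff]
    exact ⟨fun h2 => h2.1, fun h2 => ⟨h2, by omega⟩⟩
  by_cases h2 : γ <+: w.drop h
  · rw [if_pos h2, if_pos (h1.2 h2)]
  · rw [if_neg h2, if_neg (fun h3 => h2 (h1.1 h3))]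

/-- the same for the frequency -/
theorem av_take (γ : List S) {H L : ℕ} (hL : H + γ.length ≤ L) (w : List S) :
    av γ H (w.take L) = av γ H w := by
  unfold av
  congr 1
  refine Finset.sum_congr rfl fun h hh => ?_
  rw [Finset.mem_range] at hh
  exact occ_take γ (by omega) w

/-- The frequency in a window of `k H` places is the mean of the frequencies in its `k` blocks.
(`Finset.sum_range` over `k * H` = double sum over `j < k`, `h < H` of the place `j H + h`;
e.g. `Finset.sum_range_succ_mul_comm` or induction on `k` with `Finset.sum_range_add`.) -/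
theorem av_blocks (γ : List S) {H k : ℕ} (hH : 0 < H) (hk : 0 < k) (w : List S) :
    av γ (k * H) w = (k : ℝ)⁻¹ * ∑ j ∈ range k, av γ H (w.drop (j * H)) := by
  have key : ∀ (f : ℕ → ℝ) (k : ℕ), ∑ i ∈ range (k * H), f i =
      ∑ j ∈ range k, ∑ h ∈ range H, f (j * H + h) := by
    intro f k
    induction k with
    | zero => simp
    | succ k ih => rw [Finset.sum_range_succ, ← ih, Nat.succ_mul, Finset.sum_range_add]
  unfold av
  rw [key]
  simp only [occ_drop]
  rw [← Finset.mul_sum, ← mul_assoc]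
  congr 1
  push_cast
  rw [mul_inv]

/-- ERG (variance decomposition). With `A j = av γ H (w.drop (j H))` and `A = av γ (k H) w
= k⁻¹ Σ A j` (`av_blocks`) one has `k⁻¹ Σ (A j - A)² = k⁻¹ Σ A j² - A²`. Take expectations:
`Y.E (k H + |γ|) (ρ w * (A j) ^ 2) = mf γ H` for every `j < k` by stationarity (`h.win` with
`a = j H`, `L = H + |γ|`, `b = (k - 1 - j) H`, `F x = av γ H x ^ 2`; here
`av γ H ((w.drop (j H)).take (H + |γ|)) = av γ H (w.drop (j H))` by `av_take`) and
`Y.E (k H + |γ|) (ρ w * A ^ 2) = mf γ (k H)` by definition. -/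
theorem block_var (h : Bulk Y Λ ρ) (γ : List S) {H k : ℕ} (hH : 0 < H) (hk : 0 < k) :
    (k : ℝ)⁻¹ * ∑ j ∈ range k, (Y.E (k * H + γ.length) fun w =>
      ρ w * (av γ H (w.drop (j * H)) - av γ (k * H) w) ^ 2) = mf Y ρ γ H - mf Y ρ γ (k * H) := by
  have hk' : (k : ℝ) ≠ 0 := by exact_mod_cast hk.ne'
  have h1 : ∀ j ∈ range k, (Y.E (k * H + γ.length) fun w =>
      ρ w * av γ H (w.drop (j * H)) ^ 2) = mf Y ρ γ H := by
    intro j hj
    rw [Finset.mem_range] at hj
    obtain ⟨c, rfl⟩ := Nat.exists_eq_add_of_lt hj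
    have h2 := h.win (j * H) (H + γ.length) (c * H) (fun x => av γ H x ^ 2)
    have h3 : j * H + (H + γ.length) + c * H = (j + c + 1) * H + γ.length := by ring
    rw [h3] at h2
    rw [mf, ← h2]
    refine Y.E_congr fun w _ => ?_
    rw [av_take γ le_rfl]
  have h4 : (Y.E (k * H + γ.length) fun w => ρ w * ((k : ℝ)⁻¹ *
      (∑ j ∈ range k, (av γ H (w.drop (j * H)) - av γ (k * H) w) ^ 2))) =
      Y.E (k * H + γ.length) fun w => ((k : ℝ)⁻¹ *
        ∑ j ∈ range k, ρ w * av γ H (w.drop (j * H)) ^ 2) - ρ w * av γ (k * H) w ^ 2 := by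
    refine Y.E_congr fun w _ => ?_
    have h5 := av_blocks γ hH hk w
    have h6 : ∑ j ∈ range k, av γ H (w.drop (j * H)) = k * av γ (k * H) w := by
      rw [h5, ← mul_assoc, mul_inv_cancel₀ hk', one_mul]
    have h7 : ∑ j ∈ range k, (av γ H (w.drop (j * H)) - av γ (k * H) w) ^ 2 =
        (∑ j ∈ range k, av γ H (w.drop (j * H)) ^ 2) - k * av γ (k * H) w ^ 2 := by
      have h8 : ∀ j, (av γ H (w.drop (j * H)) - av γ (k * H) w) ^ 2 =
          av γ H (w.drop (j * H)) ^ 2 - 2 * av γ (k * H) w * av γ H (w.drop (j * H)) +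
            av γ (k * H) w ^ 2 := fun j => by ring
      simp only [h8, Finset.sum_add_distrib, Finset.sum_sub_distrib, ← Finset.mul_sum, h6,
        Finset.sum_const, Finset.card_range, nsmul_eq_mul]
      ring
    rw [h7, ← Finset.mul_sum]
    field_simp
  have h9 : (k : ℝ)⁻¹ * ∑ j ∈ range k, (Y.E (k * H + γ.length) fun w =>
      ρ w * (av γ H (w.drop (j * H)) - av γ (k * H) w) ^ 2) =
      Y.E (k * H + γ.length) fun w => ρ w * ((k : ℝ)⁻¹ *
      (∑ j ∈ range k, (av γ H (w.drop (j * H)) - av γ (k * H) w) ^ 2)) := by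
    rw [← Y.E_fsum, ← Y.E_mul_left]
    refine Y.E_congr fun w _ => ?_
    rw [← Finset.mul_sum]
    ring
  rw [h9, h4, Y.E_fsub, Y.E_mul_left, Y.E_fsum, Finset.sum_congr rfl h1, Finset.sum_const,
    Finset.card_range, nsmul_eq_mul, ← mul_assoc, inv_mul_cancel₀ hk', one_mul]
  rfl

/-- For every `δ > 0` there is a window size `H > 0` with `mf γ H - mf γ (k H) ≤ δ` for all
`k > 0`: `mf ≥ 0`, so there is `H > 0` with `mf γ H ≤ inf_{H' > 0} mf γ H' + δ`
(`exists_lt_of_csInf_lt` or a well-ordering argument). -/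
theorem exists_window (h : Bulk Y Λ ρ) (γ : List S) {δ : ℝ} (hδ : 0 < δ) :
    ∃ H : ℕ, 0 < H ∧ ∀ k : ℕ, 0 < k → mf Y ρ γ H - mf Y ρ γ (k * H) ≤ δ := by
  have h0 : ∀ H, 0 ≤ mf Y ρ γ H := fun H =>
    Y.E_nonneg' fun w => mul_nonneg (h.nonneg w) (sq_nonneg _)
  set A : Set ℝ := {x | ∃ H : ℕ, 0 < H ∧ x = mf Y ρ γ H} with hA
  have hne : A.Nonempty := ⟨_, 1, one_pos, rfl⟩
  have hbd : BddBelow A := ⟨0, by
    rintro x ⟨H, -, rfl⟩
    exact h0 H⟩
  obtain ⟨x, ⟨H, hH, rfl⟩, hx⟩ := exists_lt_of_csInf_lt hne (show sInf A < sInf A + δ by linarith)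
  refine ⟨H, hH, fun k hk => ?_⟩
  have h1 : sInf A ≤ mf Y ρ γ (k * H) := csInf_le hbd ⟨k * H, Nat.mul_pos hk hH, rfl⟩
  linarith

end Pool.Agent.SawDiff
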