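import Pool.Agent.SawDiff.Basic

/-!
# Almost additivity of the second moment (module GROW1)
-/

set_option autoImplicit false

namespace Pool.Agent.SawDiff

open Finset Pool.Agent.Bub4

variable {S V : Type} [Fintype S] [AddCommGroup V] {Y : Sys S V} {Λ : ℝ} {ρ : List S → ℝ}

theorem GROW1_first (h : Bulk Y Λ ρ) (xs : V →+ ℝ) (n : ℕ) :
    (Y.E n fun u => ρ u * |xs (Y.sm u)|) ≤ Real.sqrt (V2 Y ρ xs n) := by
  have h1 := E_cs' Y n (r := ρ) h.nonneg (fun u => |xs (Y.sm u)|) (fun _ => 1)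
  simp only [mul_one, one_pow, sq_abs] at h1
  rw [h.mass, Real.sqrt_one, mul_one] at h1
  exact (le_abs_self _).trans h1

/-- Adding `m` steps. `V2 (n + m) = Y.E n Y.E m (ρ(uv) (D u + D v)²)`, `Y.E n Y.E m (ρ(uv) D(u)²)
= V2 n` (`h.right`), `D(v)² ≤ m²`, `|Y.E n Y.E m (ρ(uv) D(u) D(v))| ≤ m Y.E n (ρ u |D u|)
≤ m sqrt (V2 n)` (`abs_xs_le`, `h.right`, `E_cs'`, `h.mass`). -/
theorem V2_step (h : Bulk Y Λ ρ) {xs : V →+ ℝ} (hx : ∀ s, |xs (Y.vec s)| ≤ 1) (n m : ℕ) :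
    |V2 Y ρ xs (n + m) - V2 Y ρ xs n| ≤ 2 * m * Real.sqrt (V2 Y ρ xs n) + (m : ℝ) ^ 2 := by
  set X : ℝ := Y.E n fun u => Y.E m fun v => ρ (u ++ v) * (xs (Y.sm u) * xs (Y.sm v)) with hX
  set Z : ℝ := Y.E n fun u => Y.E m fun v => ρ (u ++ v) * xs (Y.sm v) ^ 2 with hZ
  have e0 : (Y.E n fun u => Y.E m fun v => ρ (u ++ v) * xs (Y.sm u) ^ 2) = V2 Y ρ xs n := by
    unfold V2
    refine Y.E_congr fun u _ => ?_
    rw [Y.E_mul_right, h.right]
  have e1 : V2 Y ρ xs (n + m) = V2 Y ρ xs n + 2 * X + Z := by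
    rw [← e0, hX, hZ]
    unfold V2
    rw [Y.E_add]
    simp only [← Y.E_fadd, ← Y.E_mul_left]
    refine Y.E_congr fun u _ => Y.E_congr fun v _ => ?_
    rw [Y.sm_append, map_add]
    ring
  have hDm : ∀ v : List S, v.length = m → |xs (Y.sm v)| ≤ m := by
    intro v hv
    have := abs_xs_le Y hx v
    rwa [hv] at this
  have h1 : |X| ≤ m * Real.sqrt (V2 Y ρ xs n) := by
    have h2 : |X| ≤ Y.E n fun u => Y.E m fun v => ρ (u ++ v) * (|xs (Y.sm u)| * m) := by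
      refine (Y.E_abs n _).trans (Y.E_mono fun u _ => ?_)
      refine (Y.E_abs m _).trans (Y.E_mono fun v hv => ?_)
      rw [abs_mul, abs_mul, abs_of_nonneg (h.nonneg _)]
      exact mul_le_mul_of_nonneg_left (mul_le_mul_of_nonneg_left (hDm v hv) (abs_nonneg _))
        (h.nonneg _)
    refine h2.trans (le_trans (le_of_eq ?_)
      (mul_le_mul_of_nonneg_left (GROW1_first h xs n) (Nat.cast_nonneg m)))
    rw [← Y.E_mul_left]
    refine Y.E_congr fun u _ => ?_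
    rw [Y.E_mul_right, h.right]
    ring
  have h2 : |Z| ≤ (m : ℝ) ^ 2 := by
    have h3 : |Z| ≤ Y.E n fun u => Y.E m fun v => ρ (u ++ v) * (m : ℝ) ^ 2 := by
      refine (Y.E_abs n _).trans (Y.E_mono fun u _ => ?_)
      refine (Y.E_abs m _).trans (Y.E_mono fun v hv => ?_)
      rw [abs_mul, abs_of_nonneg (h.nonneg _), abs_of_nonneg (sq_nonneg (xs (Y.sm v))), ← sq_abs]
      exact mul_le_mul_of_nonneg_left (pow_le_pow_left₀ (abs_nonneg _) (hDm v hv) 2) (h.nonneg _)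
    refine h3.trans (le_of_eq ?_)
    simp only [Y.E_mul_right, h.right]
    rw [h.mass, one_mul]
  rw [e1, show V2 Y ρ xs n + 2 * X + Z - V2 Y ρ xs n = 2 * X + Z by ring]
  calc |2 * X + Z| ≤ |2 * X| + |Z| := abs_add_le _ _
    _ = 2 * |X| + |Z| := by rw [abs_mul, abs_two]
    _ ≤ 2 * (m * Real.sqrt (V2 Y ρ xs n)) + (m : ℝ) ^ 2 := by linarith
    _ = _ := by ring

/-- GROW1. `V2 (n + g + n) = Y.E n Y.E g Y.E n (ρ(uγv) (D u + D γ + D v)²)` (`Y.E_add` twice,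
`Y.sm_append`), `(D u + D γ + D v)² = D u² + D v² + D γ² + 2 D u D v + 2 D u D γ + 2 D v D γ`;
`E (ρ D u²) = V2 n` (`h.right` twice), `E (ρ D v²) = V2 n` (`Y.E_comm`, `h.left`),
`|E (ρ D γ²)| ≤ g²`, `|E (ρ D u D γ)| ≤ g E (ρ |D u|) ≤ g sqrt (V2 n)` and the same for `v`. -/
theorem V2_double (h : Bulk Y Λ ρ) {xs : V →+ ℝ} (hx : ∀ s, |xs (Y.vec s)| ≤ 1) (n g : ℕ) :
    |V2 Y ρ xs (n + g + n) - 2 * V2 Y ρ xs n| ≤
      2 * |Y.E n fun u => Y.E g fun γ => Y.E n fun v =>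
        ρ (u ++ γ ++ v) * (xs (Y.sm u) * xs (Y.sm v))| +
      (g : ℝ) ^ 2 + 4 * g * Real.sqrt (V2 Y ρ xs n) := by
  set X : ℝ := Y.E n fun u => Y.E g fun γ => Y.E n fun v =>
    ρ (u ++ γ ++ v) * (xs (Y.sm u) * xs (Y.sm v)) with hX
  set X1 : ℝ := Y.E n fun u => Y.E g fun γ => Y.E n fun v =>
    ρ (u ++ γ ++ v) * (xs (Y.sm u) * xs (Y.sm γ)) with hX1
  set X2 : ℝ := Y.E n fun u => Y.E g fun γ => Y.E n fun v =>
    ρ (u ++ γ ++ v) * (xs (Y.sm v) * xs (Y.sm γ)) with hX2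
  set Z : ℝ := Y.E n fun u => Y.E g fun γ => Y.E n fun v =>
    ρ (u ++ γ ++ v) * xs (Y.sm γ) ^ 2 with hZ
  have hu : ∀ F : List S → ℝ, (Y.E n fun u => Y.E g fun γ => Y.E n fun v =>
      ρ (u ++ γ ++ v) * F u) = Y.E n fun u => ρ u * F u := by
    intro F
    refine Y.E_congr fun u _ => ?_
    simp only [Y.E_mul_right, h.right]
  have hv : ∀ F : List S → ℝ, (Y.E n fun u => Y.E g fun γ => Y.E n fun v =>
      ρ (u ++ γ ++ v) * F v) = Y.E n fun v => ρ v * F v := by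
    intro F
    have h1 : (Y.E n fun u => Y.E g fun γ => Y.E n fun v => ρ (u ++ γ ++ v) * F v) =
        Y.E (n + g) fun w => Y.E n fun v => ρ (w ++ v) * F v := by
      rw [Y.E_add]
    rw [h1, Y.E_comm]
    refine Y.E_congr fun v _ => ?_
    rw [Y.E_mul_right, h.left]
  have e1 : V2 Y ρ xs (n + g + n) = V2 Y ρ xs n + V2 Y ρ xs n + Z + 2 * X + 2 * X1 + 2 * X2 := by
    have a1 : V2 Y ρ xs n = Y.E n fun u => Y.E g fun γ => Y.E n fun v =>
      ρ (u ++ γ ++ v) * xs (Y.sm u) ^ 2 := (hu fun u => xs (Y.sm u) ^ 2).symm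
    have a2 : V2 Y ρ xs n = Y.E n fun u => Y.E g fun γ => Y.E n fun v =>
      ρ (u ++ γ ++ v) * xs (Y.sm v) ^ 2 := (hv fun u => xs (Y.sm u) ^ 2).symm
    have a3 : V2 Y ρ xs n + V2 Y ρ xs n = (Y.E n fun u => Y.E g fun γ => Y.E n fun v =>
      ρ (u ++ γ ++ v) * xs (Y.sm u) ^ 2) + Y.E n fun u => Y.E g fun γ => Y.E n fun v =>
      ρ (u ++ γ ++ v) * xs (Y.sm v) ^ 2 := by rw [← a1, ← a2]
    rw [a3, hX, hX1, hX2, hZ]
    unfold V2
    rw [Y.E_add, Y.E_add]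
    simp only [← Y.E_fadd, ← Y.E_mul_left]
    refine Y.E_congr fun u _ => Y.E_congr fun γ _ => Y.E_congr fun v _ => ?_
    rw [Y.sm_append, Y.sm_append, map_add, map_add]
    ring
  have hDg : ∀ v : List S, v.length = g → |xs (Y.sm v)| ≤ g := by
    intro v hv
    have := abs_xs_le Y hx v
    rwa [hv] at this
  have habs : ∀ F G : List S → List S → List S → ℝ,
      (∀ u γ v, γ.length = g → |F u γ v| ≤ G u γ v) →
      |Y.E n fun u => Y.E g fun γ => Y.E n fun v => ρ (u ++ γ ++ v) * F u γ v| ≤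
      Y.E n fun u => Y.E g fun γ => Y.E n fun v => ρ (u ++ γ ++ v) * G u γ v := by
    intro F G hFG
    refine (Y.E_abs n _).trans (Y.E_mono fun u _ => ?_)
    refine (Y.E_abs g _).trans (Y.E_mono fun γ hγ => ?_)
    refine (Y.E_abs n _).trans (Y.E_mono fun v _ => ?_)
    rw [abs_mul, abs_of_nonneg (h.nonneg _)]
    exact mul_le_mul_of_nonneg_left (hFG u γ v hγ) (h.nonneg _)
  have hfirst : (Y.E n fun u => ρ u * (|xs (Y.sm u)| * g)) ≤ g * Real.sqrt (V2 Y ρ xs n) := by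
    refine le_trans (le_of_eq ?_)
      (mul_le_mul_of_nonneg_left (GROW1_first h xs n) (Nat.cast_nonneg g))
    rw [← Y.E_mul_left]
    exact Y.E_congr fun u _ => by ring
  have h1 : |X1| ≤ g * Real.sqrt (V2 Y ρ xs n) := by
    refine (habs (fun u γ _ => xs (Y.sm u) * xs (Y.sm γ)) (fun u _ _ => |xs (Y.sm u)| * g)
      fun u γ v hγ => ?_).trans ?_
    · rw [abs_mul]
      exact mul_le_mul_of_nonneg_left (hDg γ hγ) (abs_nonneg _)
    · rw [hu fun u => |xs (Y.sm u)| * g]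
      exact hfirst
  have h2 : |X2| ≤ g * Real.sqrt (V2 Y ρ xs n) := by
    refine (habs (fun _ γ v => xs (Y.sm v) * xs (Y.sm γ)) (fun _ _ v => |xs (Y.sm v)| * g)
      fun u γ v hγ => ?_).trans ?_
    · rw [abs_mul]
      exact mul_le_mul_of_nonneg_left (hDg γ hγ) (abs_nonneg _)
    · rw [hv fun v => |xs (Y.sm v)| * g]
      exact hfirst
  have h3 : |Z| ≤ (g : ℝ) ^ 2 := by
    refine (habs (fun _ γ _ => xs (Y.sm γ) ^ 2) (fun _ _ _ => (g : ℝ) ^ 2)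
      fun u γ v hγ => ?_).trans (le_of_eq ?_)
    · rw [abs_of_nonneg (sq_nonneg (xs (Y.sm γ))), ← sq_abs]
      exact pow_le_pow_left₀ (abs_nonneg _) (hDg γ hγ) 2
    · rw [hu fun _ => (g : ℝ) ^ 2, Y.E_mul_right, h.mass, one_mul]
  rw [e1, show V2 Y ρ xs n + V2 Y ρ xs n + Z + 2 * X + 2 * X1 + 2 * X2 - 2 * V2 Y ρ xs n =
    2 * X + Z + (2 * X1 + 2 * X2) by ring]
  calc |2 * X + Z + (2 * X1 + 2 * X2)| ≤ |2 * X + Z| + |2 * X1 + 2 * X2| := abs_add_le _ _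
    _ ≤ (|2 * X| + |Z|) + (|2 * X1| + |2 * X2|) := add_le_add (abs_add_le _ _) (abs_add_le _ _)
    _ = (2 * |X| + |Z|) + (2 * |X1| + 2 * |X2|) := by simp only [abs_mul, abs_two]
    _ ≤ _ := by linarith

end Pool.Agent.SawDiff
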