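import Mathlib

/-!
# A lemma on real sequences (module GROW2)
-/

set_option autoImplicit false

namespace Pool.Agent.SawDiff

open Filter

private theorem GROW2_sqrt {C η : ℝ} (hη : 0 < η) {x : ℝ} (h1 : 1 ≤ x)
    (h2 : (2 * |C| / η) ^ 2 ≤ x) : C * Real.sqrt x + C ≤ η * x := by
  have h0 : 0 ≤ x := by linarith
  have hs1 : 1 ≤ Real.sqrt x := by rw [Real.one_le_sqrt]; exact h1
  have hs2 : 2 * |C| / η ≤ Real.sqrt x := Real.le_sqrt_of_sq_le h2
  have hs3 : Real.sqrt x * Real.sqrt x = x := Real.mul_self_sqrt h0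
  have hC : C ≤ |C| := le_abs_self C
  have hC0 : 0 ≤ |C| := abs_nonneg C
  have h3 : C * Real.sqrt x + C ≤ 2 * |C| * Real.sqrt x := by
    have a1 : C * Real.sqrt x ≤ |C| * Real.sqrt x :=
      mul_le_mul_of_nonneg_right hC (by linarith)
    have a2 : C ≤ |C| * Real.sqrt x := hC.trans (le_mul_of_one_le_right hC0 hs1)
    linarith
  have h4 : 2 * |C| ≤ η * Real.sqrt x := by
    rw [div_le_iff₀ hη] at hs2
    linarith
  calc C * Real.sqrt x + C ≤ 2 * |C| * Real.sqrt x := h3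
    _ ≤ η * Real.sqrt x * Real.sqrt x := mul_le_mul_of_nonneg_right h4 (by linarith)
    _ = η * x := by rw [mul_assoc, hs3]

/-- One binary step: for `δ > 0` and large `n`, `(2 - δ) f n ≤ f (2 n + b) ≤ (2 + δ) f n` for
`b = 0, 1`. For `b = 0` it is the hypothesis. For `b = 1`:
`|f (2 n + 1) - f (2 n)| ≤ C sqrt (f (2 n)) + C ≤ (δ / 8) f (2 n)` for large `n` because
`f → ∞`, and `f (2 n) ≤ (2 + δ / 4) f n`. -/
theorem grow_step (f : ℕ → ℝ) (hinf : Tendsto f atTop atTop) {C : ℝ}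
    (hstep : ∀ n, |f (n + 1) - f n| ≤ C * Real.sqrt (f n) + C)
    (hdbl : ∀ ε : ℝ, 0 < ε → ∀ᶠ n in atTop, |f (2 * n) - 2 * f n| ≤ ε * f n)
    {δ : ℝ} (hδ : 0 < δ) :
    ∃ n₀ : ℕ, ∀ n ≥ n₀, ∀ b ≤ 1, (2 - δ) * f n ≤ f (2 * n + b) ∧ f (2 * n + b) ≤ (2 + δ) * f n := by
  set η : ℝ := δ / (4 + δ) with hη
  have hη0 : 0 < η := by positivity
  have h1 := hdbl (δ / 4) (by positivity)
  have h2 : ∀ᶠ n in atTop, max 1 ((2 * |C| / η) ^ 2) ≤ f n := hinf.eventually_ge_atTop _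
  have h3 : ∀ᶠ n : ℕ in atTop, max 1 ((2 * |C| / η) ^ 2) ≤ f (2 * n) := by
    have : Tendsto (fun n : ℕ => 2 * n) atTop atTop :=
      tendsto_atTop_mono (fun n => (by show n ≤ 2 * n; omega)) tendsto_id
    exact this.eventually h2
  have h4 : ∀ᶠ n in atTop, (0 : ℝ) ≤ f n := hinf.eventually_ge_atTop 0
  obtain ⟨n₀, hn₀⟩ := eventually_atTop.1 (h1.and (h3.and h4))
  refine ⟨n₀, fun n hn b hb => ?_⟩
  obtain ⟨k1, k2, k3⟩ := hn₀ n hn
  have k4 := abs_le.1 k1
  have hδn : 0 ≤ δ * f n := mul_nonneg hδ.le k3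
  rcases Nat.le_one_iff_eq_zero_or_eq_one.1 hb with rfl | rfl
  · rw [add_zero]
    constructor <;> nlinarith [k4.1, k4.2]
  · have k5 : C * Real.sqrt (f (2 * n)) + C ≤ η * f (2 * n) :=
      GROW2_sqrt hη0 ((le_max_left _ _).trans k2) ((le_max_right _ _).trans k2)
    have k6 := abs_le.1 ((hstep (2 * n)).trans k5)
    have k7 : η * f (2 * n) ≤ δ / 2 * f n := by
      have a1 : f (2 * n) ≤ (2 + δ / 2) * f n := by nlinarith [k4.2]
      calc η * f (2 * n) ≤ η * ((2 + δ / 2) * f n) := mul_le_mul_of_nonneg_left a1 hη0.le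
        _ = δ / 2 * f n := by
          rw [hη]
          field_simp
          ring
    constructor <;> nlinarith [k4.1, k4.2, k6.1, k6.2]

/-- GROW2. Upper bound: let `δ = 2 ^ (1 + ε / 2) - 2 > 0`, `n₀ ≥ 1` from `grow_step` with moreover
`f n > 0` for `n ≥ n₀`, and `C₁ = max_{n₀ ≤ n < 2 n₀ + 2} f n / n ^ (1 + ε / 2)`. Then
`f n ≤ C₁ n ^ (1 + ε / 2)` for all `n ≥ n₀` by strong induction: for `n ≥ 2 n₀ + 2` write
`n = 2 m + b` with `m ≥ n₀`, `f n ≤ 2 ^ (1 + ε / 2) f m ≤ C₁ (2 m) ^ (1 + ε / 2) ≤ C₁ n ^ (1 + ε / 2)`.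
Finally `C₁ n ^ (1 + ε / 2) ≤ n ^ (1 + ε)` for large `n`.
Lower bound (assume `ε < 1`, the statement for larger `ε` follows from a smaller one for `n ≥ 1`):
let `δ = 2 - 2 ^ (1 - ε / 4) > 0`, and enlarge `n₀` so that
`((2 m + 1) / (2 m)) ^ (1 - ε / 2) ≤ 2 ^ (ε / 4)` for `m ≥ n₀`. With
`C₂ = min_{n₀ ≤ n < 2 n₀ + 2} f n / n ^ (1 - ε / 2) > 0`, for `n = 2 m + b`, `m ≥ n₀`:
`f n ≥ 2 ^ (1 - ε / 4) f m ≥ C₂ 2 ^ (1 - ε / 4) m ^ (1 - ε / 2) = C₂ 2 ^ (ε / 4) (2 m) ^ (1 - ε / 2)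
≥ C₂ (2 m + b) ^ (1 - ε / 2)`. Finally `C₂ n ^ (1 - ε / 2) ≥ n ^ (1 - ε)` for large `n`. -/
theorem grow2 (f : ℕ → ℝ) (hinf : Tendsto f atTop atTop) {C : ℝ}
    (hstep : ∀ n, |f (n + 1) - f n| ≤ C * Real.sqrt (f n) + C)
    (hdbl : ∀ ε : ℝ, 0 < ε → ∀ᶠ n in atTop, |f (2 * n) - 2 * f n| ≤ ε * f n)
    {ε : ℝ} (hε : 0 < ε) :
    ∀ᶠ n : ℕ in atTop, (n : ℝ) ^ (1 - ε) ≤ f n ∧ f n ≤ (n : ℝ) ^ (1 + ε) := by
  have hpow : ∀ K : ℝ, ∀ᶠ n : ℕ in atTop, K ≤ (n : ℝ) ^ (ε / 2) := fun K =>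
    ((tendsto_rpow_atTop (by positivity : 0 < ε / 2)).comp
      tendsto_natCast_atTop_atTop).eventually_ge_atTop K
  refine Filter.Eventually.and ?_ ?_
  · -- lower bound
    by_cases hε1 : 1 ≤ ε
    · filter_upwards [hinf.eventually_ge_atTop 1, eventually_ge_atTop 1] with n h1 h2
      have h3 : (1 : ℝ) ≤ n := by exact_mod_cast h2
      exact (Real.rpow_le_one_of_one_le_of_nonpos h3 (by linarith)).trans h1
    · push Not at hε1
      set q : ℝ := 1 - ε / 2 with hq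
      have hq0 : 0 < q := by rw [hq]; linarith
      have hq1 : (2 : ℝ) ^ q < 2 := by
        calc (2 : ℝ) ^ q < (2 : ℝ) ^ (1 : ℝ) :=
              Real.rpow_lt_rpow_of_exponent_lt (by norm_num) (by rw [hq]; linarith)
          _ = 2 := Real.rpow_one 2
      obtain ⟨n₁, hn₁⟩ := grow_step f hinf hstep hdbl (δ := 2 - (2 : ℝ) ^ q) (by linarith)
      obtain ⟨n₂, hn₂⟩ := eventually_atTop.1 (hinf.eventually_ge_atTop 1)
      set n₀ := max n₁ n₂ with hn₀
      set c : ℝ := 1 / ((2 * n₀ + 3 : ℕ) : ℝ) ^ q with hc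
      have hc0 : 0 < c := by positivity
      have key : ∀ n, n₀ ≤ n → c * ((n : ℝ) + 1) ^ q ≤ f n := by
        intro n
        induction n using Nat.strong_induction_on with
        | _ n ih =>
          intro hn
          have hf1 : 1 ≤ f n := hn₂ n (le_trans (le_max_right _ _) hn)
          by_cases hlt : n < 2 * n₀ + 2
          · refine le_trans ?_ hf1
            rw [hc, div_mul_eq_mul_div, one_mul, div_le_one (by positivity)]
            refine Real.rpow_le_rpow (by positivity) ?_ hq0.le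
            have : n + 1 ≤ 2 * n₀ + 3 := by omega
            exact_mod_cast this
          · have hm : n = 2 * (n / 2) + n % 2 := by omega
            have hm1 : n₀ ≤ n / 2 := by omega
            have hm2 : n / 2 < n := by omega
            have hb : n % 2 ≤ 1 := by omega
            have h1 := (hn₁ (n / 2) (le_trans (le_max_left _ _) hm1) (n % 2) hb).1
            rw [← hm] at h1
            have h2 := ih (n / 2) hm2 hm1
            have h3 : (2 : ℝ) - (2 - (2 : ℝ) ^ q) = (2 : ℝ) ^ q := by ring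
            rw [h3] at h1
            have h4 : ((n : ℝ) + 1) ^ q ≤ (2 : ℝ) ^ q * (((n / 2 : ℕ) : ℝ) + 1) ^ q := by
              rw [← Real.mul_rpow (by norm_num) (by positivity)]
              refine Real.rpow_le_rpow (by positivity) ?_ hq0.le
              have : n + 1 ≤ 2 * (n / 2 + 1) := by omega
              exact_mod_cast this
            calc c * ((n : ℝ) + 1) ^ q ≤ c * ((2 : ℝ) ^ q * (((n / 2 : ℕ) : ℝ) + 1) ^ q) :=
                  mul_le_mul_of_nonneg_left h4 hc0.le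
              _ = (2 : ℝ) ^ q * (c * (((n / 2 : ℕ) : ℝ) + 1) ^ q) := by ring
              _ ≤ (2 : ℝ) ^ q * f (n / 2) := mul_le_mul_of_nonneg_left h2 (by positivity)
              _ ≤ f n := h1
      filter_upwards [eventually_ge_atTop (max n₀ 1), hpow (1 / c)] with n h1 h2
      have hn0 : (0 : ℝ) < n := by
        have : 1 ≤ n := le_trans (le_max_right _ _) h1
        exact_mod_cast this
      refine le_trans ?_ (key n (le_trans (le_max_left _ _) h1))
      have h3 : (n : ℝ) ^ q = (n : ℝ) ^ (1 - ε) * (n : ℝ) ^ (ε / 2) := by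
        rw [← Real.rpow_add hn0]
        congr 1
        rw [hq]; ring
      have h4 : (n : ℝ) ^ q ≤ ((n : ℝ) + 1) ^ q :=
        Real.rpow_le_rpow hn0.le (by linarith) hq0.le
      have h5 : 1 ≤ c * (n : ℝ) ^ (ε / 2) := by
        rw [div_le_iff₀ hc0] at h2
        linarith
      calc (n : ℝ) ^ (1 - ε) ≤ (n : ℝ) ^ (1 - ε) * (c * (n : ℝ) ^ (ε / 2)) :=
            le_mul_of_one_le_right (by positivity) h5
        _ = c * (n : ℝ) ^ q := by rw [h3]; ring
        _ ≤ c * ((n : ℝ) + 1) ^ q := mul_le_mul_of_nonneg_left h4 hc0.le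
  · -- upper bound
    set p : ℝ := 1 + ε / 2 with hp
    have hp0 : 0 < p := by rw [hp]; linarith
    have hp1 : (2 : ℝ) < (2 : ℝ) ^ p := by
      calc (2 : ℝ) = (2 : ℝ) ^ (1 : ℝ) := (Real.rpow_one 2).symm
        _ < (2 : ℝ) ^ p := Real.rpow_lt_rpow_of_exponent_lt (by norm_num) (by rw [hp]; linarith)
    obtain ⟨n₁, hn₁⟩ := grow_step f hinf hstep hdbl (δ := (2 : ℝ) ^ p - 2) (by linarith)
    set n₀ := max n₁ 1 with hn₀
    set K : ℝ := ∑ i ∈ Finset.range (2 * n₀ + 2), |f i| with hK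
    have hK0 : 0 ≤ K := Finset.sum_nonneg fun i _ => abs_nonneg _
    have key : ∀ n, n₀ ≤ n → f n ≤ K * (n : ℝ) ^ p := by
      intro n
      induction n using Nat.strong_induction_on with
      | _ n ih =>
        intro hn
        have hn1 : 1 ≤ n := le_trans (le_max_right _ _) hn
        have hn1' : (1 : ℝ) ≤ n := by exact_mod_cast hn1
        by_cases hlt : n < 2 * n₀ + 2
        · have h1 : f n ≤ K := (le_abs_self _).trans
            (Finset.single_le_sum (f := fun i => |f i|) (fun i _ => abs_nonneg _)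
              (Finset.mem_range.2 hlt))
          exact h1.trans (le_mul_of_one_le_right hK0 (Real.one_le_rpow hn1' hp0.le))
        · have hm : n = 2 * (n / 2) + n % 2 := by omega
          have hm1 : n₀ ≤ n / 2 := by omega
          have hm2 : n / 2 < n := by omega
          have hb : n % 2 ≤ 1 := by omega
          have h1 := (hn₁ (n / 2) (le_trans (le_max_left _ _) hm1) (n % 2) hb).2
          rw [← hm] at h1
          have h2 := ih (n / 2) hm2 hm1
          have h3 : (2 : ℝ) + ((2 : ℝ) ^ p - 2) = (2 : ℝ) ^ p := by ring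
          rw [h3] at h1
          have h4 : (2 : ℝ) ^ p * ((n / 2 : ℕ) : ℝ) ^ p ≤ (n : ℝ) ^ p := by
            rw [← Real.mul_rpow (by norm_num) (by positivity)]
            refine Real.rpow_le_rpow (by positivity) ?_ hp0.le
            have : 2 * (n / 2) ≤ n := by omega
            exact_mod_cast this
          calc f n ≤ (2 : ℝ) ^ p * f (n / 2) := h1
            _ ≤ (2 : ℝ) ^ p * (K * ((n / 2 : ℕ) : ℝ) ^ p) :=
                mul_le_mul_of_nonneg_left h2 (by positivity)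
            _ = K * ((2 : ℝ) ^ p * ((n / 2 : ℕ) : ℝ) ^ p) := by ring
            _ ≤ K * (n : ℝ) ^ p := mul_le_mul_of_nonneg_left h4 hK0
    filter_upwards [eventually_ge_atTop n₀, hpow K] with n h1 h2
    have hn0 : (0 : ℝ) < n := by
      have : 1 ≤ n := le_trans (le_max_right _ _) h1
      exact_mod_cast this
    have h3 : (n : ℝ) ^ (1 + ε) = (n : ℝ) ^ (ε / 2) * (n : ℝ) ^ p := by
      rw [← Real.rpow_add hn0]
      congr 1
      rw [hp]; ring
    rw [h3]
    exact (key n h1).trans (mul_le_mul_of_nonneg_right h2 (by positivity))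

end Pool.Agent.SawDiff
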