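import Pool.Agent.SawDiff.Basic

/-!
# Non-concentration (module NCV)
-/

set_option autoImplicit false

namespace Pool.Agent.SawDiff

open Finset Pool.Agent.Bub4

variable {S V : Type} [Fintype S] [AddCommGroup V] {Y : Sys S V} {Λ : ℝ} {ρ : List S → ℝ}

open Classical in
/-- NCV. `q x ≥ t (1 - 1_{q x ≤ t})` for every `x`; multiply by `ρ u`, sum, use `h.mass` and
`Y.E n (ρ u * 1_{q ≤ t}) ≤ Λ * Y.E n (sv u * 1_{q ≤ t})` (`h.E_le`). -/
theorem ncv (h : Bulk Y Λ ρ) (q : V → ℝ) (hq : ∀ x, 0 ≤ q x) (n : ℕ) {t : ℝ} (ht : 0 ≤ t) :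
    t * (1 - Λ * Y.E n fun u => Y.sv u * (if q (Y.sm u) ≤ t then 1 else 0)) ≤
      Y.E n fun u => ρ u * q (Y.sm u) := by
  have h1 : (Y.E n fun u => t * (ρ u - ρ u * (if q (Y.sm u) ≤ t then 1 else 0))) ≤
      Y.E n fun u => ρ u * q (Y.sm u) := by
    refine Y.E_mono fun u _ => ?_
    have h2 := h.nonneg u
    by_cases h3 : q (Y.sm u) ≤ t
    · rw [if_pos h3]
      have h4 := mul_nonneg h2 (hq (Y.sm u))
      linarith
    · rw [if_neg h3, mul_zero, sub_zero, mul_comm]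
      exact mul_le_mul_of_nonneg_left (not_le.1 h3).le h2
  rw [Y.E_mul_left, Y.E_fsub, h.mass] at h1
  have h5 := h.E_le (n := n) (F := fun u => if q (Y.sm u) ≤ t then (1 : ℝ) else 0)
    (fun u => by split_ifs <;> norm_num)
  refine le_trans ?_ h1
  refine mul_le_mul_of_nonneg_left ?_ ht
  linarith

end Pool.Agent.SawDiff
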