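import Pool.Agent.SawDiff.Ssa

/-!
# Bounded entropy and near independence (module NEAR)
-/

set_option autoImplicit false

namespace Pool.Agent.SawDiff

open Finset Pool.Agent.Bub4

variable {S V : Type} [Fintype S] [AddCommGroup V] {Y : Sys S V} {Λ : ℝ} {ρ : List S → ℝ}

/-- `ρ ≤ Λ`, so `ρ log ρ ≤ ρ log Λ` (trivially if `ρ = 0`), and `Y.E n ρ = 1`. -/
theorem et_ge (h : Bulk Y Λ ρ) (n : ℕ) : - Real.log Λ ≤ et Y ρ n := by
  unfold et
  rw [neg_le_neg_iff]
  have h1 : (Y.E n fun u => ρ u * Real.log (ρ u)) ≤ Y.E n fun u => ρ u * Real.log Λ := by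
    refine Y.E_mono fun u _ => ?_
    rcases (h.nonneg u).eq_or_lt with h0 | h0
    · rw [← h0]; simp
    · exact mul_le_mul_of_nonneg_left (Real.log_le_log h0 (h.le_const u)) h0.le
  refine h1.trans (le_of_eq ?_)
  rw [Y.E_mul_right, h.mass, one_mul]

/-- For every word `u`: `- ρ log ρ ≤ ρ log (a n) + sv / a n - ρ`. Indeed if `ρ = 0` the right side
is `sv / a n ≥ 0`; if `ρ > 0` then `sv u = 1` (from `h.le`) and `log x ≤ x - 1` for
`x = 1 / (ρ a n)` gives `- log ρ - log (a n) ≤ 1 / (ρ a n) - 1`; multiply by `ρ`.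
Sum: `et n ≤ log (a n) + a n / a n - 1 = log (a n) ≤ log K` (`Y.a n = Y.E n Y.sv` by definition). -/
theorem et_le (h : Bulk Y Λ ρ) {K : ℝ} (h1 : ∀ n, 1 ≤ Y.a n) (hK : ∀ n, Y.a n ≤ K) (n : ℕ) :
    et Y ρ n ≤ Real.log K := by
  have ha : 0 < Y.a n := lt_of_lt_of_le one_pos (h1 n)
  have hpt : ∀ u : List S, - (ρ u * Real.log (ρ u)) ≤
      ρ u * Real.log (Y.a n) + Y.sv u * (Y.a n)⁻¹ - ρ u := by
    intro u
    have hsv0 : 0 ≤ Y.sv u := by
      unfold Sys.sv
      split_ifs <;> norm_num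
    rcases (h.nonneg u).eq_or_lt with h0 | h0
    · rw [← h0]
      simp only [zero_mul, neg_zero, zero_add, sub_zero]
      exact mul_nonneg hsv0 (inv_nonneg.2 ha.le)
    · have hsv : Y.sv u = 1 := by
        have h2 := h.le u
        unfold Sys.sv at h2 ⊢
        split_ifs with h3
        · rfl
        · rw [if_neg h3, mul_zero] at h2
          exact absurd h2 (not_le.2 h0)
      have hpos : 0 < (ρ u * Y.a n)⁻¹ := inv_pos.2 (mul_pos h0 ha)
      have h4 := Real.log_le_sub_one_of_pos hpos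
      rw [Real.log_inv, Real.log_mul h0.ne' ha.ne'] at h4
      have h5 := mul_le_mul_of_nonneg_left h4 h0.le
      have h6 : ρ u * ((ρ u * Y.a n)⁻¹ - 1) = (Y.a n)⁻¹ - ρ u := by
        field_simp
      rw [h6] at h5
      rw [hsv, one_mul]
      linarith
  have h2 : et Y ρ n ≤ Y.E n fun u => ρ u * Real.log (Y.a n) + Y.sv u * (Y.a n)⁻¹ - ρ u := by
    unfold et
    rw [← Y.E_fneg]
    exact Y.E_mono fun u _ => hpt u
  refine h2.trans ?_
  rw [Y.E_fsub, Y.E_fadd, Y.E_mul_right, Y.E_mul_right, h.mass]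
  have h3 : Y.E n Y.sv = Y.a n := rfl
  rw [show (Y.E n fun w => Y.sv w) = Y.a n from h3, mul_inv_cancel₀ ha.ne']
  have := Real.log_le_log ha (hK n)
  linarith

/-- An abstract lemma on real sequences. Let `e` be bounded and
`0 ≤ e (m + g) + e (g + n) - e g - e (m + g + n)` for all `m`, `g`, `n`. Then the right side is
small for large `g`, uniformly in `m` and `n`.
Proof: `m = n = 1` gives `d (g + 1) ≤ d g` for `d g = e (g + 1) - e g`. If some `d g₀ < 0` then
`e (g₀ + k) ≤ e g₀ + k d g₀` is unbounded below, so `d ≥ 0` and `e` is monotone; it is bounded,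
so for `L = sup e` and given `ε` there is `g₀` with `e g ≥ L - ε` for `g ≥ g₀`. Then
`e (m + g) + e (g + n) - e g - e (m + g + n) = (e (m + g) - e g) - (e (m + g + n) - e (g + n))
≤ L - e g ≤ ε`, since `e (m + g + n) ≥ e (g + n)` (monotone). -/
theorem conc_seq (e : ℕ → ℝ) {A B : ℝ} (hA : ∀ n, A ≤ e n) (hB : ∀ n, e n ≤ B)
    (hss : ∀ m g n, 0 ≤ e (m + g) + e (g + n) - e g - e (m + g + n)) {ε : ℝ} (hε : 0 < ε) :
    ∃ g₀ : ℕ, ∀ g ≥ g₀, ∀ m n, e (m + g) + e (g + n) - e g - e (m + g + n) ≤ ε := by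
  have hd : ∀ g, e (g + 2) - e (g + 1) ≤ e (g + 1) - e g := by
    intro g
    have h1 := hss 1 g 1
    have e1 : 1 + g = g + 1 := by ring
    have e2 : 1 + g + 1 = g + 2 := by ring
    rw [e2, e1] at h1
    linarith
  have hdd : ∀ g k, e (g + k + 1) - e (g + k) ≤ e (g + 1) - e g := by
    intro g k
    induction k with
    | zero => simp
    | succ k ih =>
      have := hd (g + k)
      have e1 : g + (k + 1) + 1 = g + k + 2 := by ring
      have e2 : g + (k + 1) = g + k + 1 := by ring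
      rw [e1, e2]
      linarith
  have hlin : ∀ g k, e (g + k) ≤ e g + k * (e (g + 1) - e g) := by
    intro g k
    induction k with
    | zero => simp
    | succ k ih =>
      have h1 := hdd g k
      have e2 : g + (k + 1) = g + k + 1 := by ring
      rw [e2]
      push_cast
      nlinarith [h1, ih]
  have hpos : ∀ g, e g ≤ e (g + 1) := by
    intro g
    by_contra hlt
    push Not at hlt
    obtain ⟨k, hk⟩ := exists_nat_gt ((e g - A) / (e g - e (g + 1)))
    have h1 : 0 < e g - e (g + 1) := by linarith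
    rw [div_lt_iff₀ h1] at hk
    have h2 := hlin g k
    have h3 := hA (g + k)
    nlinarith
  have hmono : Monotone e := monotone_nat_of_le_succ hpos
  have hbdd : BddAbove (Set.range e) := ⟨B, by rintro x ⟨n, rfl⟩; exact hB n⟩
  obtain ⟨g₀, hg₀⟩ : ∃ g₀, (⨆ n, e n) - ε < e g₀ :=
    exists_lt_of_lt_ciSup (by linarith)
  refine ⟨g₀, fun g hg m n => ?_⟩
  have h1 : e g₀ ≤ e g := hmono hg
  have h2 : e (m + g) ≤ ⨆ n, e n := le_ciSup hbdd _
  have h3 : e (g + n) ≤ e (m + g + n) := hmono (by omega)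
  linarith

/-- NEAR: words separated by a long gap are almost conditionally independent given the gap.
`conc_seq` for `e = et Y ρ` (hypothesis from `ssa` and `0 ≤ dev ^ 2`, bounds `et_ge`, `et_le`) with
`ε ^ 2 / 2` in place of `ε`; then `dev ^ 2 ≤ ε ^ 2` and `0 ≤ dev`, so `dev ≤ ε`. -/
theorem near_indep (h : Bulk Y Λ ρ) {K : ℝ} (h1 : ∀ n, 1 ≤ Y.a n) (hK : ∀ n, Y.a n ≤ K)
    {ε : ℝ} (hε : 0 < ε) : ∃ g₀ : ℕ, ∀ g ≥ g₀, ∀ m n, dev Y ρ m g n ≤ ε := by
  obtain ⟨g₀, hg⟩ := conc_seq (et Y ρ) (et_ge h) (et_le h h1 hK) (fun m g n => by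
    have h2 := ssa h m g n
    have h3 := sq_nonneg (dev Y ρ m g n)
    linarith) (show 0 < ε ^ 2 / 2 by positivity)
  refine ⟨g₀, fun g hgg m n => ?_⟩
  have h2 := hg g hgg m n
  have h3 := ssa h m g n
  exact abs_le_of_sq_le_sq (by linarith) hε.le |> le_trans (le_abs_self _)

end Pool.Agent.SawDiff
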