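import Pool.Agent.SawDiff.Win
import Pool.Agent.SawDiff.Near
import Pool.Agent.SawDiff.Drift
import Pool.Agent.SawDiff.Cross
import Pool.Agent.SawDiff.Grow1
import Pool.Agent.SawDiff.Grow2
import Pool.Agent.SawDiff.Ncv
import Pool.Agent.SawDiff.Lat

/-!
# Bounded amplitude and non-concentration imply diffusive scale: assembly
-/

set_option autoImplicit false

namespace Pool.Agent.SawDiff

open Finset Filter Topology Pool.Agent.Bub4 Pool.Agent.SubBall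

section Gen

variable {S V : Type} [Fintype S] [AddCommGroup V] {Y : Sys S V} {Λ : ℝ} {ρ : List S → ℝ}

theorem V2_two (h : Bulk Y Λ ρ) (xs : V →+ ℝ) (n : ℕ) :
    V2 Y ρ xs (2 * n) ≤ 4 * V2 Y ρ xs n := by
  have h1 : V2 Y ρ xs (2 * n) =
      Y.E n fun u => Y.E n fun v => ρ (u ++ v) * (xs (Y.sm (u ++ v))) ^ 2 := by
    unfold V2
    rw [two_mul, Y.E_add]
  have h2 : (Y.E n fun u => Y.E n fun v => ρ (u ++ v) * (2 * (xs (Y.sm u)) ^ 2)) =
      2 * V2 Y ρ xs n := by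
    simp only [Y.E_mul_right, h.right]
    unfold V2
    rw [← Y.E_mul_left]
    exact Y.E_congr fun u _ => by ring
  have h3 : (Y.E n fun u => Y.E n fun v => ρ (u ++ v) * (2 * (xs (Y.sm v)) ^ 2)) =
      2 * V2 Y ρ xs n := by
    rw [Y.E_comm]
    simp only [Y.E_mul_right, h.left]
    unfold V2
    rw [← Y.E_mul_left]
    exact Y.E_congr fun u _ => by ring
  have h4 : V2 Y ρ xs (2 * n) ≤
      (Y.E n fun u => Y.E n fun v => ρ (u ++ v) * (2 * (xs (Y.sm u)) ^ 2)) +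
      (Y.E n fun u => Y.E n fun v => ρ (u ++ v) * (2 * (xs (Y.sm v)) ^ 2)) := by
    rw [h1, ← Y.E_fadd]
    refine Y.E_mono fun u _ => ?_
    rw [← Y.E_fadd]
    refine Y.E_mono fun v _ => ?_
    rw [← mul_add]
    refine mul_le_mul_of_nonneg_left ?_ (h.nonneg _)
    rw [Y.sm_append, map_add]
    nlinarith [sq_nonneg (xs (Y.sm u) - xs (Y.sm v))]
  linarith

/-- one coordinate -/
theorem coord_dbl (h : Bulk Y Λ ρ) {K : ℝ} (h1 : ∀ n, 1 ≤ Y.a n) (hK : ∀ n, Y.a n ≤ K)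
    {xs : V →+ ℝ} (hx : ∀ s, |xs (Y.vec s)| ≤ 1) {R2 : ℕ → ℝ} (hR : Tendsto R2 atTop atTop)
    (hM : ∀ n, Y.M xs n ≤ R2 n)
    (hV : ∀ ε : ℝ, 0 < ε → ∃ n₀ : ℕ, ∀ n ≥ n₀, R2 n ≤ ε * (n : ℝ) ^ 2)
    {η : ℝ} (hη : 0 < η) :
    ∀ᶠ n in atTop, |V2 Y ρ xs (2 * n) - 2 * V2 Y ρ xs n| ≤ η * R2 n := by
  have hΛ := h.pos
  have hsΛ : 0 < Real.sqrt Λ := Real.sqrt_pos.2 hΛ
  have hVle : ∀ n, V2 Y ρ xs n ≤ Λ * R2 n := fun n =>
    (h.V2_le xs n).trans (mul_le_mul_of_nonneg_left (hM n) hΛ.le)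
  have hsq : ∀ n, Real.sqrt (V2 Y ρ xs n) ≤ Real.sqrt Λ * Real.sqrt (R2 n) := by
    intro n
    rw [← Real.sqrt_mul hΛ.le]
    exact Real.sqrt_le_sqrt (hVle n)
  have hV' : ∀ ε : ℝ, 0 < ε → ∃ n₀ : ℕ, ∀ n ≥ n₀, V2 Y ρ xs n ≤ ε * (n : ℝ) ^ 2 := by
    intro ε hε
    obtain ⟨n₀, hn₀⟩ := hV (ε / Λ) (div_pos hε hΛ)
    refine ⟨n₀, fun n hn => (hVle n).trans ?_⟩
    have := mul_le_mul_of_nonneg_left (hn₀ n hn) hΛ.le
    refine this.trans (le_of_eq ?_)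
    field_simp
  have hdr : ∀ (γ : List S) (ε : ℝ), 0 < ε → ∃ C : ℝ, ∀ n,
      |Y.E n fun u => ρ (u ++ γ) * xs (Y.sm u)| ≤ C + ε * Real.sqrt (R2 n) := by
    intro γ ε hε
    obtain ⟨C, hC⟩ := drift h hx hV' γ (div_pos hε hsΛ)
    refine ⟨C, fun n => (hC n).trans ?_⟩
    have := mul_le_mul_of_nonneg_left (hsq n) (div_pos hε hsΛ).le
    have h2 : ε / Real.sqrt Λ * (Real.sqrt Λ * Real.sqrt (R2 n)) = ε * Real.sqrt (R2 n) := by
      field_simp
    linarith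
  have hni : ∀ ε : ℝ, 0 < ε → ∃ g : ℕ, ∀ n, dev Y ρ n g n ≤ ε := by
    intro ε hε
    obtain ⟨g, hg⟩ := near_indep h h1 hK hε
    exact ⟨g, fun n => hg g le_rfl n n⟩
  obtain ⟨g, n₀, hg⟩ := cross h h1 hK hR hM hni hdr (η := η / 4) (by positivity)
  -- the lower-order terms
  have hsR : Tendsto (fun n => Real.sqrt (R2 n)) atTop atTop :=
    Real.tendsto_sqrt_atTop.comp hR
  filter_upwards [eventually_ge_atTop n₀, hR.eventually_ge_atTop (max 1 (8 * (g : ℝ) ^ 2 / η)),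
    hsR.eventually_ge_atTop (32 * g * Real.sqrt Λ / η)] with n hn hn2 hn3
  have hRn : 0 ≤ R2 n := le_trans zero_le_one ((le_max_left _ _).trans hn2)
  have hR8 : 8 * (g : ℝ) ^ 2 / η ≤ R2 n := (le_max_right _ _).trans hn2
  rw [div_le_iff₀ hη] at hR8 hn3
  have e1 := V2_double h hx n g
  have e2 := V2_step h hx (2 * n) g
  have e3 := V2_two h xs n
  have e4 : n + g + n = 2 * n + g := by ring
  rw [e4] at e1
  have e5 := hg n hn
  have e6 : Real.sqrt (V2 Y ρ xs (2 * n)) ≤ 2 * Real.sqrt (V2 Y ρ xs n) := by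
    have : Real.sqrt (4 * V2 Y ρ xs n) = 2 * Real.sqrt (V2 Y ρ xs n) := by
      rw [Real.sqrt_mul (by norm_num)]
      rw [show (4 : ℝ) = 2 ^ 2 by norm_num, Real.sqrt_sq (by norm_num)]
    rw [← this]
    exact Real.sqrt_le_sqrt e3
  have hg0 : (0 : ℝ) ≤ g := Nat.cast_nonneg g
  have e7 : |V2 Y ρ xs (2 * n) - 2 * V2 Y ρ xs n| ≤
      |V2 Y ρ xs (2 * n + g) - V2 Y ρ xs (2 * n)| +
        |V2 Y ρ xs (2 * n + g) - 2 * V2 Y ρ xs n| := by
    rw [abs_sub_comm (V2 Y ρ xs (2 * n + g)) (V2 Y ρ xs (2 * n))]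
    exact abs_sub_le _ _ _
  have e8 := mul_le_mul_of_nonneg_left e6 (by positivity : (0 : ℝ) ≤ 2 * g)
  have e9 := mul_le_mul_of_nonneg_left (hsq n) (by positivity : (0 : ℝ) ≤ 8 * g)
  have e10 : 8 * (g : ℝ) * (Real.sqrt Λ * Real.sqrt (R2 n)) ≤ η / 4 * R2 n := by
    have h5 : Real.sqrt (R2 n) * Real.sqrt (R2 n) = R2 n := Real.mul_self_sqrt hRn
    have h6 := mul_le_mul_of_nonneg_right hn3 (Real.sqrt_nonneg (R2 n))
    have h7 : Real.sqrt (R2 n) * η * Real.sqrt (R2 n) = η * R2 n := by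
      rw [mul_right_comm, h5, mul_comm]
    rw [h7] at h6
    linarith
  have e11 : 2 * (g : ℝ) ^ 2 ≤ η / 4 * R2 n := by linarith
  linarith

end Gen

theorem abs_coord_le (m : ℕ) {μ : ℝ} (hμ : 0 < μ) (i : Fin (m + 2)) (s : St m) :
    |Sys.coord i ((lat m hμ).vec s)| ≤ 1 := by
  obtain ⟨j, b⟩ := s
  show |((stv m (j, b) i : ℤ) : ℝ)| ≤ 1
  unfold stv
  by_cases hij : i = j
  · subst hij
    cases b <;> simp
  · cases b <;> simp [hij]

/-- the square of the norm, on words -/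
noncomputable def nq {m : ℕ} (x : Vt m) : ℝ := ∑ i : Fin (m + 2), ((x i : ℤ) : ℝ) ^ 2

theorem nq_nonneg {m : ℕ} (x : Vt m) : 0 ≤ nq x := Finset.sum_nonneg fun _ _ => sq_nonneg _

theorem sumM_eq (m : ℕ) {μ : ℝ} (hμ : 0 < μ) (n : ℕ) (hc : (0 : ℝ) < (saws (stv m) n).card) :
    ∑ i : Fin (m + 2), (lat m hμ).M (Sys.coord i) n = Bubble.an (stv m) μ n * ms m n := by
  simp only [lat_M]
  rw [← Finset.sum_div, Finset.sum_comm]
  unfold Bubble.an ms
  field_simp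

open Classical in
theorem lat_small (m : ℕ) {μ : ℝ} (hμ : 0 < μ) (n : ℕ) (t : ℝ) :
    ((lat m hμ).E n fun u => (lat m hμ).sv u * (if nq ((lat m hμ).sm u) ≤ t then 1 else 0)) =
      (((saws (stv m) n).filter (fun w => ∑ i : Fin (m + 2),
        ((pos (stv m) w n i : ℤ) : ℝ) ^ 2 ≤ t)).card : ℝ) / μ ^ n := by
  have h := lat_E m hμ n (fun x => if nq x ≤ t then 1 else 0)
  rw [h]
  congr 1
  rw [Finset.card_filter]
  push_cast
  rfl

open Classical in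
theorem main_words (m : ℕ) {μ A : ℝ} (hμ : 0 < μ) (h1 : ∀ n, 1 ≤ Bubble.an (stv m) μ n)
    (hA : ∀ n, Bubble.an (stv m) μ n ≤ A)
    (hnc : ∀ η : ℝ, 0 < η → ∃ δ : ℝ, 0 < δ ∧ ∀ᶠ n in atTop,
      (((saws (stv m) n).filter (fun w => ∑ i : Fin (m + 2), ((pos (stv m) w n i : ℤ) : ℝ) ^ 2 ≤
        δ * ms m n)).card : ℝ) ≤ η * (saws (stv m) n).card)
    {ε : ℝ} (hε : 0 < ε) :
    ∀ᶠ n : ℕ in atTop, (n : ℝ) ^ (1 - ε) ≤ ms m n ∧ ms m n ≤ (n : ℝ) ^ (1 + ε) := by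
  have hA1 : 1 ≤ A := (h1 0).trans (hA 0)
  have hA0 : 0 < A := by linarith
  set Y := lat m hμ with hY
  have ha1 : ∀ n, 1 ≤ Y.a n := fun n => by rw [hY, lat_a]; exact h1 n
  have haA : ∀ n, Y.a n ≤ A := fun n => by rw [hY, lat_a]; exact hA n
  obtain ⟨ρ, h⟩ := exists_bulk ha1 haA
  have hΛ := h.pos
  set R2 : ℕ → ℝ := fun n => ∑ i : Fin (m + 2), Y.M (Sys.coord i) n with hR2
  have hcard : ∀ n, (0 : ℝ) < (saws (stv m) n).card := by
    intro n
    have h2 := h1 n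
    unfold Bubble.an at h2
    rw [one_le_div (pow_pos hμ n)] at h2
    exact lt_of_lt_of_le (pow_pos hμ n) h2
  have hms0 : ∀ n, 0 ≤ ms m n := fun n =>
    div_nonneg (Finset.sum_nonneg fun _ _ => Finset.sum_nonneg fun _ _ => sq_nonneg _) (hcard n).le
  have hR2e : ∀ n, R2 n = Bubble.an (stv m) μ n * ms m n := fun n => sumM_eq m hμ n (hcard n)
  have hR2ge : ∀ n, ms m n ≤ R2 n := fun n => by
    rw [hR2e]
    exact le_mul_of_one_le_left (hms0 n) (h1 n)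
  have hR2le : ∀ n, R2 n ≤ A * ms m n := fun n => by
    rw [hR2e]
    exact mul_le_mul_of_nonneg_right (hA n) (hms0 n)
  have hR : Tendsto R2 atTop atTop := tendsto_atTop_mono hR2ge (lat_low m)
  have hMnn : ∀ (i : Fin (m + 2)) n, 0 ≤ Y.M (Sys.coord i) n := fun i n =>
    Y.E_nonneg' fun u => mul_nonneg (Y.sv_nonneg u) (sq_nonneg _)
  have hM : ∀ (i : Fin (m + 2)) n, Y.M (Sys.coord i) n ≤ R2 n := fun i n =>
    Finset.single_le_sum (f := fun i => Y.M (Sys.coord i) n) (fun j _ => hMnn j n)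
      (Finset.mem_univ i)
  have hV : ∀ ε : ℝ, 0 < ε → ∃ n₀ : ℕ, ∀ n ≥ n₀, R2 n ≤ ε * (n : ℝ) ^ 2 := by
    intro ε hε
    obtain ⟨n₀, hn₀⟩ := lat_up m (ε / A) (div_pos hε hA0)
    refine ⟨n₀, fun n hn => (hR2le n).trans ?_⟩
    refine (mul_le_mul_of_nonneg_left (hn₀ n hn) hA0.le).trans (le_of_eq ?_)
    field_simp
  -- the total second moment
  set f : ℕ → ℝ := fun n => ∑ i : Fin (m + 2), V2 Y ρ (Sys.coord i) n with hf
  have hVnn : ∀ (i : Fin (m + 2)) n, 0 ≤ V2 Y ρ (Sys.coord i) n := fun i n => h.V2_nonneg _ n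
  have hVf : ∀ (i : Fin (m + 2)) n, V2 Y ρ (Sys.coord i) n ≤ f n := fun i n =>
    Finset.single_le_sum (f := fun i => V2 Y ρ (Sys.coord i) n) (fun j _ => hVnn j n)
      (Finset.mem_univ i)
  have hfle : ∀ n, f n ≤ A ^ 2 * R2 n := by
    intro n
    simp only [hf, hR2, Finset.mul_sum]
    exact Finset.sum_le_sum fun i _ => h.V2_le _ n
  have hfE : ∀ n, f n = Y.E n fun u => ρ u * nq (Y.sm u) := by
    intro n
    simp only [hf]
    unfold V2
    rw [← Y.E_fsum]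
    refine Y.E_congr fun u _ => ?_
    unfold nq
    rw [Finset.mul_sum]
    rfl
  -- non-concentration
  obtain ⟨δ, hδ, hδn⟩ := hnc (1 / (2 * A ^ 2 * A)) (by positivity)
  have hlow : ∀ᶠ n in atTop, δ / 2 * ms m n ≤ f n := by
    filter_upwards [hδn] with n hn
    have h2 := ncv h (nq (m := m)) nq_nonneg n (t := δ * ms m n) (mul_nonneg hδ.le (hms0 n))
    rw [← hfE, hY, lat_small] at h2
    have h3 : (((saws (stv m) n).filter (fun w => ∑ i : Fin (m + 2),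
        ((pos (stv m) w n i : ℤ) : ℝ) ^ 2 ≤ δ * ms m n)).card : ℝ) / μ ^ n ≤
        1 / (2 * A ^ 2 * A) * A := by
      have h4 : (((saws (stv m) n).filter (fun w => ∑ i : Fin (m + 2),
        ((pos (stv m) w n i : ℤ) : ℝ) ^ 2 ≤ δ * ms m n)).card : ℝ) / μ ^ n ≤
        1 / (2 * A ^ 2 * A) * (saws (stv m) n).card / μ ^ n :=
        div_le_div_of_nonneg_right hn (pow_pos hμ n).le
      refine h4.trans ?_
      rw [mul_div_assoc]
      exact mul_le_mul_of_nonneg_left (hA n) (by positivity)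
    have h5 : 1 / (2 * A ^ 2 * A) * A = 1 / (2 * A ^ 2) := by field_simp
    rw [h5] at h3
    have h6 := mul_le_mul_of_nonneg_left h3 (by positivity : (0 : ℝ) ≤ A ^ 2)
    have h7 : A ^ 2 * (1 / (2 * A ^ 2)) = 1 / 2 := by field_simp
    rw [h7] at h6
    have h8 : 0 ≤ δ * ms m n := mul_nonneg hδ.le (hms0 n)
    nlinarith
  have hfinf : Tendsto f atTop atTop := by
    refine tendsto_atTop_mono' _ hlow ?_
    exact (lat_low m).const_mul_atTop (by positivity)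
  have hR2f : ∀ᶠ n in atTop, R2 n ≤ 2 * A / δ * f n := by
    filter_upwards [hlow] with n hn
    have h2 := hR2le n
    have h3 := mul_le_mul_of_nonneg_left hn (by positivity : (0 : ℝ) ≤ 2 * A / δ)
    have h4 : 2 * A / δ * (δ / 2 * ms m n) = A * ms m n := by field_simp
    linarith
  have hd2 : (0 : ℝ) < ((m + 2 : ℕ) : ℝ) := by positivity
  -- doubling
  have hdbl : ∀ ε : ℝ, 0 < ε → ∀ᶠ n in atTop, |f (2 * n) - 2 * f n| ≤ ε * f n := by
    intro ε hε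
    have h2 : ∀ i : Fin (m + 2), ∀ᶠ n in atTop,
        |V2 Y ρ (Sys.coord i) (2 * n) - 2 * V2 Y ρ (Sys.coord i) n| ≤
          (ε * δ / (2 * A * (m + 2 : ℕ))) * R2 n := fun i =>
      coord_dbl h ha1 haA (abs_coord_le m hμ i) hR (hM i) hV (by positivity)
    filter_upwards [eventually_all.2 h2, hR2f] with n hn hn2
    have h3 : |f (2 * n) - 2 * f n| ≤ ∑ i : Fin (m + 2), (ε * δ / (2 * A * (m + 2 : ℕ))) * R2 n := by
      have h4 : f (2 * n) - 2 * f n =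
          ∑ i : Fin (m + 2), (V2 Y ρ (Sys.coord i) (2 * n) - 2 * V2 Y ρ (Sys.coord i) n) := by
        simp only [hf, Finset.sum_sub_distrib, Finset.mul_sum]
      rw [h4]
      exact (Finset.abs_sum_le_sum_abs _ _).trans (Finset.sum_le_sum fun i _ => hn i)
    refine h3.trans ?_
    rw [Finset.sum_const, Finset.card_univ, Fintype.card_fin, nsmul_eq_mul]
    have h5 := mul_le_mul_of_nonneg_left hn2
      (by positivity : (0 : ℝ) ≤ ((m + 2 : ℕ) : ℝ) * (ε * δ / (2 * A * (m + 2 : ℕ))))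
    have h6 : ((m + 2 : ℕ) : ℝ) * (ε * δ / (2 * A * (m + 2 : ℕ))) * (2 * A / δ * f n) = ε * f n := by
      field_simp
    linarith
  -- steps
  have hstep : ∀ n, |f (n + 1) - f n| ≤
      (2 * ((m + 2 : ℕ) : ℝ)) * Real.sqrt (f n) + 2 * ((m + 2 : ℕ) : ℝ) := by
    intro n
    have h4 : f (n + 1) - f n =
        ∑ i : Fin (m + 2), (V2 Y ρ (Sys.coord i) (n + 1) - V2 Y ρ (Sys.coord i) n) := by
      simp only [hf, Finset.sum_sub_distrib]
    have h5 : ∀ i : Fin (m + 2), |V2 Y ρ (Sys.coord i) (n + 1) - V2 Y ρ (Sys.coord i) n| ≤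
        2 * Real.sqrt (f n) + 1 := by
      intro i
      have h6 := V2_step h (abs_coord_le m hμ i) n 1
      have h7 := Real.sqrt_le_sqrt (hVf i n)
      push_cast at h6
      linarith
    rw [h4]
    refine (Finset.abs_sum_le_sum_abs _ _).trans ((Finset.sum_le_sum fun i _ => h5 i).trans ?_)
    rw [Finset.sum_const, Finset.card_univ, Fintype.card_fin, nsmul_eq_mul]
    nlinarith [Real.sqrt_nonneg (f n)]
  have hg := grow2 f hfinf hstep hdbl (ε := ε / 2) (by positivity)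
  -- comparison with `ms`
  have hpow : Tendsto (fun n : ℕ => (n : ℝ) ^ (ε / 2)) atTop atTop :=
    (tendsto_rpow_atTop (by positivity)).comp tendsto_natCast_atTop_atTop
  filter_upwards [hg, hlow, hpow.eventually_ge_atTop (max (2 / δ) (A ^ 2 * A)),
    eventually_ge_atTop 1] with n hn hn2 hn3 hn4
  have hn0 : (0 : ℝ) < n := by exact_mod_cast hn4
  have hp1 : 2 / δ ≤ (n : ℝ) ^ (ε / 2) := (le_max_left _ _).trans hn3
  have hp2 : A ^ 2 * A ≤ (n : ℝ) ^ (ε / 2) := (le_max_right _ _).trans hn3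
  have hq0 : (0 : ℝ) < (n : ℝ) ^ (ε / 2) := Real.rpow_pos_of_pos hn0 _
  constructor
  · -- lower bound
    have h2 : f n ≤ A ^ 2 * A * ms m n := by
      have h3 := mul_le_mul_of_nonneg_left (hR2le n) (by positivity : (0 : ℝ) ≤ A ^ 2)
      linarith [hfle n]
    have h3 : f n ≤ (n : ℝ) ^ (ε / 2) * ms m n :=
      h2.trans (mul_le_mul_of_nonneg_right hp2 (hms0 n))
    have h4 : (n : ℝ) ^ (1 - ε / 2) = (n : ℝ) ^ (ε / 2) * (n : ℝ) ^ (1 - ε) := by
      rw [← Real.rpow_add hn0]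
      congr 1
      ring
    have h5 : (n : ℝ) ^ (ε / 2) * (n : ℝ) ^ (1 - ε) ≤ (n : ℝ) ^ (ε / 2) * ms m n := by
      rw [← h4]
      exact hn.1.trans h3
    exact le_of_mul_le_mul_left h5 hq0
  · have h2 : ms m n ≤ 2 / δ * f n := by
      have h3 := mul_le_mul_of_nonneg_left hn2 (by positivity : (0 : ℝ) ≤ 2 / δ)
      have h4 : 2 / δ * (δ / 2 * ms m n) = ms m n := by field_simp
      linarith
    have hf0 : 0 ≤ f n := Finset.sum_nonneg fun i _ => hVnn i n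
    have h3 : ms m n ≤ (n : ℝ) ^ (ε / 2) * (n : ℝ) ^ (1 + ε / 2) :=
      h2.trans (mul_le_mul hp1 hn.2 hf0 hq0.le)
    have h4 : (n : ℝ) ^ (ε / 2) * (n : ℝ) ^ (1 + ε / 2) = (n : ℝ) ^ (1 + ε) := by
      rw [← Real.rpow_add hn0]
      congr 1
      ring
    rwa [h4] at h3

end Pool.Agent.SawDiff
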