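import Mathlib

/-!
# Pinsker's inequality on a finite set (module PIN)
-/

set_option autoImplicit false

namespace Pool.Agent.SawDiff

open Finset

private noncomputable def PIN_g (t : ℝ) : ℝ := Real.log t - (5 * t ^ 2 - 4 * t - 1) / (2 * t ^ 2 + 4 * t)

private theorem PIN_deriv {t : ℝ} (ht : 0 < t) :
    HasDerivAt PIN_g ((t - 1) ^ 3 / (t ^ 2 * (t + 2) ^ 2)) t := by
  have h0 : (2 * t ^ 2 + 4 * t) ≠ 0 := by positivity
  have h1 : HasDerivAt (fun t : ℝ => 5 * t ^ 2 - 4 * t - 1) (10 * t - 4) t := by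
    have := (((hasDerivAt_pow 2 t).const_mul 5).sub ((hasDerivAt_id t).const_mul 4)).sub_const 1
    refine this.congr_deriv ?_
    simp; ring
  have h2 : HasDerivAt (fun t : ℝ => 2 * t ^ 2 + 4 * t) (4 * t + 4) t := by
    have := ((hasDerivAt_pow 2 t).const_mul 2).add ((hasDerivAt_id t).const_mul 4)
    refine this.congr_deriv ?_
    simp; ring
  have h3 := (Real.hasDerivAt_log ht.ne').sub (h1.div h2 h0)
  refine h3.congr_deriv ?_
  have h4 : t + 2 ≠ 0 := by positivity
  field_simp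
  ring

private theorem PIN_nonneg {t : ℝ} (ht : 0 < t) : 0 ≤ PIN_g t := by
  have h1 : PIN_g 1 = 0 := by
    unfold PIN_g
    norm_num
  rcases le_total t 1 with h | h
  · have hanti : AntitoneOn PIN_g (Set.Ioc 0 1) := by
      refine antitoneOn_of_deriv_nonpos (convex_Ioc 0 1) ?_ ?_ ?_
      · intro x hx
        exact (PIN_deriv hx.1).continuousAt.continuousWithinAt
      · intro x hx
        rw [interior_Ioc] at hx
        exact (PIN_deriv hx.1).differentiableAt.differentiableWithinAt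
      · intro x hx
        rw [interior_Ioc] at hx
        rw [(PIN_deriv hx.1).deriv]
        refine div_nonpos_of_nonpos_of_nonneg ?_ (by positivity)
        have : x - 1 ≤ 0 := by linarith [hx.2]
        exact Odd.pow_nonpos (by decide) this
    have := hanti (show t ∈ Set.Ioc (0 : ℝ) 1 from ⟨ht, h⟩) (show (1 : ℝ) ∈ Set.Ioc (0 : ℝ) 1 from
      ⟨one_pos, le_rfl⟩) h
    rwa [h1] at this
  · have hmono : MonotoneOn PIN_g (Set.Ici 1) := by
      refine monotoneOn_of_deriv_nonneg (convex_Ici 1) ?_ ?_ ?_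
      · intro x hx
        have hx' : (0 : ℝ) < x := lt_of_lt_of_le one_pos hx
        exact (PIN_deriv hx').continuousAt.continuousWithinAt
      · intro x hx
        rw [interior_Ici] at hx
        have hx' : (0 : ℝ) < x := lt_trans one_pos hx
        exact (PIN_deriv hx').differentiableAt.differentiableWithinAt
      · intro x hx
        rw [interior_Ici] at hx
        have hx' : (0 : ℝ) < x := lt_trans one_pos hx
        rw [(PIN_deriv hx').deriv]
        have h3 : (0 : ℝ) ≤ x - 1 := by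
          have : (1 : ℝ) < x := hx
          linarith
        positivity
    have := hmono (show (1 : ℝ) ∈ Set.Ici (1 : ℝ) from le_refl (1 : ℝ)) (show t ∈ Set.Ici (1 : ℝ) from h) h
    rwa [h1] at this

/-- `3 (t - 1)² ≤ (2 t + 4) (t log t - t + 1)` for `t ≥ 0` (`Real.log 0 = 0`: at `t = 0` it reads
`3 ≤ 4`). For `t > 0` put `φ t = t log t - t + 1 - 3 (t - 1)² / (2 t + 4)`; `φ 1 = 0`,
`φ' t = log t - 3 (t - 1) (t + 5) / (2 (t + 2)²)`, `φ' 1 = 0` and
`φ'' t = 1 / t - 27 / (t + 2)³ = ((t + 2)³ - 27 t) / (t (t + 2)³) ≥ 0` because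
`(t + 2)³ - 27 t = (t - 1)² (t + 8)`. Hence `φ' ≤ 0` on `(0, 1]`, `φ' ≥ 0` on `[1, ∞)` and
`φ ≥ φ 1 = 0`. (Any other proof is welcome.) -/
theorem pinsker_aux {t : ℝ} (ht : 0 ≤ t) :
    3 * (t - 1) ^ 2 ≤ (2 * t + 4) * (t * Real.log t - t + 1) := by
  rcases ht.eq_or_lt with rfl | h
  · norm_num
  have h1 := PIN_nonneg h
  unfold PIN_g at h1
  have h2 : (0 : ℝ) < 2 * t ^ 2 + 4 * t := by positivity
  have h3 : (5 * t ^ 2 - 4 * t - 1) / (2 * t ^ 2 + 4 * t) ≤ Real.log t := by linarith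
  rw [div_le_iff₀ h2] at h3
  nlinarith [h3]

/-- PIN: Pinsker's inequality. For `Q i ≠ 0` put `t i = P i / Q i`. By `pinsker_aux`,
`3 Q (t - 1)² / (2 t + 4) ≤ Q (t log t - t + 1) = P log (P / Q) - P + Q`. By Cauchy-Schwarz
`(Σ |P - Q|)² = (Σ Q |t - 1|)² ≤ (Σ Q (2 t + 4) / 3) (Σ 3 Q (t - 1)² / (2 t + 4))
≤ ((2 + 4) / 3) Σ (P log (P / Q) - P + Q) = 2 Σ P log (P / Q)`.
Indices with `Q i = 0` have `P i = 0` and contribute nothing anywhere. (A convenient form for Lean:
for every `i`, `3 (P i - Q i)² ≤ (2 P i + 4 Q i) (P i log (P i / Q i) - P i + Q i)`, then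
`Finset.sum_mul_sq_le_sq_mul_sq` with `sqrt`, or `Finset.sum_sqrt_mul_sqrt_le`, or
`inner_mul_le_norm_mul_norm`.) -/
theorem pinsker {ι : Type} [Fintype ι] (P Q : ι → ℝ) (hP : ∀ i, 0 ≤ P i) (hQ : ∀ i, 0 ≤ Q i)
    (hPQ : ∀ i, Q i = 0 → P i = 0) (h1 : ∑ i, P i = 1) (h2 : ∑ i, Q i = 1) :
    (∑ i, |P i - Q i|) ^ 2 ≤ 2 * ∑ i, P i * Real.log (P i / Q i) := by
  have key : ∀ i, 3 * (P i - Q i) ^ 2 ≤
      (2 * P i + 4 * Q i) * (P i * Real.log (P i / Q i) - P i + Q i) := by
    intro i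
    rcases (hQ i).eq_or_lt with h | h
    · have hP0 := hPQ i h.symm
      rw [hP0, ← h]
      simp
    · have h3 := pinsker_aux (t := P i / Q i) (div_nonneg (hP i) h.le)
      have h4 := mul_le_mul_of_nonneg_left h3 (sq_nonneg (Q i))
      have e1 : Q i ^ 2 * (3 * (P i / Q i - 1) ^ 2) = 3 * (P i - Q i) ^ 2 := by
        field_simp
      have e2 : Q i ^ 2 * ((2 * (P i / Q i) + 4) * (P i / Q i * Real.log (P i / Q i) - P i / Q i + 1)) =
          (2 * P i + 4 * Q i) * (P i * Real.log (P i / Q i) - P i + Q i) := by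
        field_simp
      rw [e1, e2] at h4
      exact h4
  have hf : ∀ i, 0 ≤ (2 * P i + 4 * Q i) / 3 := fun i => by
    have := hP i
    have := hQ i
    positivity
  have hg : ∀ i, 0 ≤ P i * Real.log (P i / Q i) - P i + Q i := by
    intro i
    have hPi := hP i
    have hQi := hQ i
    rcases (hf i).eq_or_lt with h | h
    · have hP0 : P i = 0 := by linarith
      have hQ0 : Q i = 0 := by linarith
      simp [hP0, hQ0]
    · have h3 := key i
      have h4 : 0 ≤ (2 * P i + 4 * Q i) * (P i * Real.log (P i / Q i) - P i + Q i) :=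
        le_trans (by positivity) h3
      exact nonneg_of_mul_nonneg_right h4 (by linarith)
  have hcs := Finset.sum_sq_le_sum_mul_sum_of_sq_le_mul Finset.univ
    (r := fun i => |P i - Q i|) (f := fun i => (2 * P i + 4 * Q i) / 3)
    (g := fun i => P i * Real.log (P i / Q i) - P i + Q i)
    (fun i _ => hf i) (fun i _ => hg i) (fun i _ => by
      have := key i
      rw [sq_abs]
      linarith)
  have hsf : ∑ i, (2 * P i + 4 * Q i) / 3 = 2 := by
    rw [← Finset.sum_div, Finset.sum_add_distrib, ← Finset.mul_sum, ← Finset.mul_sum, h1, h2]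
    norm_num
  have hsg : ∑ i, (P i * Real.log (P i / Q i) - P i + Q i) = ∑ i, P i * Real.log (P i / Q i) := by
    rw [Finset.sum_add_distrib, Finset.sum_sub_distrib, h1, h2]
    ring
  rw [hsf, hsg] at hcs
  exact hcs

end Pool.Agent.SawDiff
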