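import Pool.Agent.SawDiff.Basic
import Pool.Agent.SawDiff.Pin

/-!
# Strong subadditivity with a quantitative error (module SSA)
-/

set_option autoImplicit false

namespace Pool.Agent.SawDiff

open Finset Pool.Agent.Bub4

variable {S V : Type} [Fintype S] [AddCommGroup V] {Y : Sys S V} {Λ : ℝ} {ρ : List S → ℝ}

/-- The comparison law has mass one:
`Y.E m Y.E g Y.E n (ρ (u γ) ρ (γ v) / ρ γ) = Y.E g (ρ γ ρ γ / ρ γ) = Y.E g ρ = 1`
(`Y.E_comm`, then `h.left γ m`, `h.right γ n`; where `ρ γ = 0` both sides vanish). -/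
theorem ssa_mass (h : Bulk Y Λ ρ) (m g n : ℕ) :
    (Y.E m fun u => Y.E g fun γ => Y.E n fun v => ρ (u ++ γ) * ρ (γ ++ v) / ρ γ) = 1 := by
  have h1 : ∀ u γ : List S, (Y.E n fun v => ρ (u ++ γ) * ρ (γ ++ v) / ρ γ) = ρ (u ++ γ) := by
    intro u γ
    have e : (fun v => ρ (u ++ γ) * ρ (γ ++ v) / ρ γ) = fun v => (ρ (u ++ γ) / ρ γ) * ρ (γ ++ v) := by
      funext v; ring
    rw [e, Y.E_mul_left, h.right]
    by_cases h0 : ρ γ = 0
    · rw [h0, h.eq_zero_right h0]; simp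
    · field_simp
  simp only [h1, h.right]
  exact h.mass m

private theorem SSA_pt (h : Bulk Y Λ ρ) (u γ v : List S) :
    ρ (u ++ γ ++ v) * Real.log (ρ (u ++ γ ++ v) / (ρ (u ++ γ) * ρ (γ ++ v) / ρ γ)) =
      ρ (u ++ γ ++ v) * Real.log (ρ (u ++ γ ++ v)) + ρ (u ++ γ ++ v) * Real.log (ρ γ) -
        ρ (u ++ γ ++ v) * Real.log (ρ (u ++ γ)) - ρ (u ++ γ ++ v) * Real.log (ρ (γ ++ v)) := by
  by_cases h0 : ρ (u ++ γ ++ v) = 0
  · rw [h0]; simp
  have h1 : ρ (u ++ γ) ≠ 0 := fun h2 => h0 (h.eq_zero_left h2)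
  have h2 : ρ (γ ++ v) ≠ 0 := fun h3 => h0 (by rw [List.append_assoc]; exact h.eq_zero_right h3)
  have h3 : ρ γ ≠ 0 := fun h4 => h2 (h.eq_zero_left h4)
  rw [Real.log_div h0 (div_ne_zero (mul_ne_zero h1 h2) h3), Real.log_div (mul_ne_zero h1 h2) h3,
    Real.log_mul h1 h2]
  ring

/-- The four entropies: for all words,
`ρ(uγv) log (ρ(uγv) / (ρ(uγ) ρ(γv) / ρ γ)) = ρ(uγv) (log ρ(uγv) + log ρ γ - log ρ(uγ) - log ρ(γv))`
(if `ρ(uγv) = 0` both sides are `0`; otherwise `ρ(uγ)`, `ρ(γv)`, `ρ γ` are nonzero by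
`h.eq_zero_left`, `h.eq_zero_right`). Sum over `u`, `γ`, `v`:
`Σ ρ(uγv) log ρ(uγv) = - et (m + g + n)` (`Y.E_add` twice),
`Σ ρ(uγv) log ρ γ = - et g` (`h.mid`), `Σ ρ(uγv) log ρ(uγ) = - et (m + g)` (`h.right`),
`Σ ρ(uγv) log ρ(γv) = - et (g + n)` (`h.left`). -/
theorem ssa_ent (h : Bulk Y Λ ρ) (m g n : ℕ) :
    (Y.E m fun u => Y.E g fun γ => Y.E n fun v =>
      ρ (u ++ γ ++ v) * Real.log (ρ (u ++ γ ++ v) / (ρ (u ++ γ) * ρ (γ ++ v) / ρ γ))) =
    et Y ρ (m + g) + et Y ρ (g + n) - et Y ρ g - et Y ρ (m + g + n) := by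
  simp only [SSA_pt h, Y.E_fsub, Y.E_fadd]
  have f1 : (Y.E m fun u => Y.E g fun γ => Y.E n fun v =>
      ρ (u ++ γ ++ v) * Real.log (ρ (u ++ γ ++ v))) = - et Y ρ (m + g + n) := by
    unfold et
    rw [neg_neg, Y.E_add, Y.E_add]
  have f2 : (Y.E m fun u => Y.E g fun γ => Y.E n fun v =>
      ρ (u ++ γ ++ v) * Real.log (ρ γ)) = - et Y ρ g := by
    unfold et
    rw [neg_neg, Y.E_comm]
    refine Y.E_congr fun γ _ => ?_
    simp only [Y.E_mul_right]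
    rw [h.mid γ m n]
  have f3 : (Y.E m fun u => Y.E g fun γ => Y.E n fun v =>
      ρ (u ++ γ ++ v) * Real.log (ρ (u ++ γ))) = - et Y ρ (m + g) := by
    unfold et
    rw [neg_neg, Y.E_add]
    refine Y.E_congr fun u _ => Y.E_congr fun γ _ => ?_
    rw [Y.E_mul_right, h.right]
  have f4 : (Y.E m fun u => Y.E g fun γ => Y.E n fun v =>
      ρ (u ++ γ ++ v) * Real.log (ρ (γ ++ v))) = - et Y ρ (g + n) := by
    unfold et
    rw [neg_neg, Y.E_add, Y.E_comm]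
    refine Y.E_congr fun γ _ => ?_
    rw [Y.E_comm]
    refine Y.E_congr fun v _ => ?_
    rw [Y.E_mul_right]
    congr 1
    rw [← h.left (γ ++ v) m]
    refine Y.E_congr fun u _ => ?_
    rw [List.append_assoc]
  rw [f1, f2, f3, f4]
  ring

private theorem SSA_E3 (Y : Sys S V) (m g n : ℕ) (F : List S → List S → List S → ℝ) :
    (Y.E m fun u => Y.E g fun γ => Y.E n fun v => F u γ v) =
      ∑ i : (Fin m → S) × (Fin g → S) × (Fin n → S),
        (Y.z ^ m * Y.z ^ g * Y.z ^ n) * F (List.ofFn i.1) (List.ofFn i.2.1) (List.ofFn i.2.2) := by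
  rw [Y.E_eq, Fintype.sum_prod_type]
  refine Finset.sum_congr rfl fun u _ => ?_
  rw [Y.E_eq, Fintype.sum_prod_type, Finset.mul_sum]
  refine Finset.sum_congr rfl fun γ _ => ?_
  rw [Y.E_eq, Finset.mul_sum, Finset.mul_sum]
  refine Finset.sum_congr rfl fun v _ => ?_
  ring

/-- SSA. `pinsker` on `ι = (Fin m → S) × (Fin g → S) × (Fin n → S)` (`Y.E_eq` three times) with
`P = z ^ (m + g + n) ρ(uγv)`, `Q = z ^ (m + g + n) ρ(uγ) ρ(γv) / ρ γ`. `P` has mass `1` because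
`Y.E m Y.E g Y.E n ρ(uγv) = 1` (`h.right`, `h.mass`), `Q` by `ssa_mass`; if `Q = 0` then one of
`ρ(uγ)`, `ρ(γv)`, `ρ γ` vanishes, hence `ρ(uγv) = 0` (`h.eq_zero_left`, `h.eq_zero_right`).
`P / Q` does not contain the power of `z`. The right side is `2 ·` (left side of `ssa_ent`). -/
theorem ssa (h : Bulk Y Λ ρ) (m g n : ℕ) :
    dev Y ρ m g n ^ 2 ≤
      2 * (et Y ρ (m + g) + et Y ρ (g + n) - et Y ρ g - et Y ρ (m + g + n)) := by
  rw [← ssa_ent h m g n]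
  unfold dev
  have hc : 0 < Y.z ^ m * Y.z ^ g * Y.z ^ n := by
    have := Y.z_pos
    positivity
  have hm := ssa_mass h m g n
  have hp : (Y.E m fun u => Y.E g fun γ => Y.E n fun v => ρ (u ++ γ ++ v)) = 1 := by
    simp only [h.right]
    exact h.mass m
  rw [SSA_E3] at hm hp
  rw [SSA_E3, SSA_E3]
  have key := pinsker (ι := (Fin m → S) × (Fin g → S) × (Fin n → S))
    (fun i => (Y.z ^ m * Y.z ^ g * Y.z ^ n) *
      ρ (List.ofFn i.1 ++ List.ofFn i.2.1 ++ List.ofFn i.2.2))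
    (fun i => (Y.z ^ m * Y.z ^ g * Y.z ^ n) *
      (ρ (List.ofFn i.1 ++ List.ofFn i.2.1) * ρ (List.ofFn i.2.1 ++ List.ofFn i.2.2) /
        ρ (List.ofFn i.2.1)))
    (fun i => mul_nonneg hc.le (h.nonneg _))
    (fun i => mul_nonneg hc.le (div_nonneg (mul_nonneg (h.nonneg _) (h.nonneg _)) (h.nonneg _)))
    (fun i hi => by
      have hq := (mul_eq_zero.1 hi).resolve_left hc.ne'
      refine mul_eq_zero.2 (Or.inr ?_)
      rcases div_eq_zero_iff.1 hq with h0 | h0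
      · rcases mul_eq_zero.1 h0 with h0 | h0
        · exact h.eq_zero_left h0
        · rw [List.append_assoc]; exact h.eq_zero_right h0
      · rw [List.append_assoc]; exact h.eq_zero_right (h.eq_zero_left h0)) hp hm
  refine le_trans (le_of_eq ?_) (key.trans (le_of_eq ?_))
  · congr 1
    refine Finset.sum_congr rfl fun i _ => ?_
    rw [← mul_sub, abs_mul, abs_of_pos hc]
  · congr 1
    refine Finset.sum_congr rfl fun i _ => ?_
    rw [mul_div_mul_left _ _ hc.ne']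
    ring

end Pool.Agent.SawDiff
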